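import Pool.Agent.Helper21.H3.Defs

/-!
# MP_e98778_an (full), H3, block AFF: comparison of affine functions on overlapping squares

BLOCK TF-H3-AFF. Proof by helper29.

`affine_sq`: Fubini on the square.
`overlap`: the square `Sq ((p + q)/2) (ρ/2)` lies in both squares, on it
`((m - m') y + (c - c'))² ≤ 2 (V - (m y + c))² + 2 (V' - (m' y + c'))²`, so the integral of the left side is
at most `4 δ²`; now `affine_sq` with `A = m - m'`, `B = A q'.im + (c - c')`, `q' = (p + q)/2`.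
`chain`: walk from `p` to `q` in `N = ⌈2 R / ρ⌉₊ + 1` steps `p + (j/N) (q - p)`, choose the affine
functions of the intermediate points by the hypothesis, sum up `overlap`.
`aff_near`: `∫ (V - (m' y + c'))² ≤ 2 δ² + 2 ∫ ((m - m') y + (c - c'))²`.
-/

set_option autoImplicit false

open MeasureTheory Set Pool.Agent.Helper72.TF

namespace Pool.Agent.Helper21.H3

private theorem sq_eq29 (q : ℂ) (r : ℝ) :
    Sq q r = Complex.measurableEquivRealProd ⁻¹'
      (Icc (q.re - r) (q.re + r) ×ˢ Icc (q.im - r) (q.im + r)) := by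
  ext z
  simp only [Sq, mem_setOf_eq, mem_preimage, mem_prod, mem_Icc, abs_le,
    Complex.measurableEquivRealProd_apply]
  constructor
  · rintro ⟨⟨h1, h2⟩, h3, h4⟩
    exact ⟨⟨by linarith, by linarith⟩, by linarith, by linarith⟩
  · rintro ⟨⟨h1, h2⟩, h3, h4⟩
    exact ⟨⟨by linarith, by linarith⟩, by linarith, by linarith⟩

private theorem sq_compact29 (q : ℂ) (r : ℝ) : IsCompact (Sq q r) := by
  have h : Sq q r = Icc (q.re - r) (q.re + r) ×ℂ Icc (q.im - r) (q.im + r) := by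
    ext z
    rw [Complex.mem_reProdIm]
    simp only [Sq, mem_setOf_eq, mem_Icc, abs_le]
    constructor
    · rintro ⟨⟨h1, h2⟩, h3, h4⟩
      exact ⟨⟨by linarith, by linarith⟩, by linarith, by linarith⟩
    · rintro ⟨⟨h1, h2⟩, h3, h4⟩
      exact ⟨⟨by linarith, by linarith⟩, by linarith, by linarith⟩
  rw [h]
  exact IsCompact.reProdIm isCompact_Icc isCompact_Icc

theorem affine_sq (q : ℂ) {r : ℝ} (hr : 0 < r) (A B : ℝ) :
    ∫ z in Sq q r, (A * (z.im - q.im) + B) ^ 2 = 4 * r ^ 2 * (B ^ 2 + A ^ 2 * r ^ 2 / 3) := by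
  have h1 := MeasurePreserving.setIntegral_preimage_emb Complex.volume_preserving_equiv_real_prod
    Complex.measurableEquivRealProd.measurableEmbedding
    (fun p : ℝ × ℝ => (1 : ℝ) * (A * (p.2 - q.im) + B) ^ 2)
    (Icc (q.re - r) (q.re + r) ×ˢ Icc (q.im - r) (q.im + r))
  have h2 := setIntegral_prod_mul (μ := (volume : Measure ℝ)) (ν := (volume : Measure ℝ))
    (fun _ : ℝ => (1 : ℝ)) (fun y : ℝ => (A * (y - q.im) + B) ^ 2)
    (Icc (q.re - r) (q.re + r)) (Icc (q.im - r) (q.im + r))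
  rw [← sq_eq29] at h1
  have h3 : ∫ z in Sq q r, (A * (z.im - q.im) + B) ^ 2 =
      ∫ z in Sq q r, (1 : ℝ) * (A * ((Complex.measurableEquivRealProd z).2 - q.im) + B) ^ 2 := by
    congr 1
    funext z
    rw [one_mul, Complex.measurableEquivRealProd_apply]
  rw [h3, h1, Measure.volume_eq_prod, h2]
  have h4 : ∫ x in Icc (q.re - r) (q.re + r), (1 : ℝ) = 2 * r := by
    rw [setIntegral_const, Real.volume_real_Icc_of_le (by linarith)]
    simp
    ring
  have h5 : ∫ y in Icc (q.im - r) (q.im + r), (A * (y - q.im) + B) ^ 2 =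
      2 * r * (B ^ 2 + A ^ 2 * r ^ 2 / 3) := by
    rw [integral_Icc_eq_integral_Ioc, ← intervalIntegral.integral_of_le (by linarith)]
    have hF : ∀ y ∈ uIcc (q.im - r) (q.im + r),
        HasDerivAt (fun y => A ^ 2 * (y - q.im) ^ 3 / 3 + A * B * (y - q.im) ^ 2 + B ^ 2 * (y - q.im))
          ((A * (y - q.im) + B) ^ 2) y := by
      intro y _
      have h0 : HasDerivAt (fun y : ℝ => y - q.im) 1 y := (hasDerivAt_id y).sub_const _
      have e1 := ((h0.pow 3).const_mul (A ^ 2)).div_const 3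
      have e2 := (h0.pow 2).const_mul (A * B)
      have e3 := h0.const_mul (B ^ 2)
      have e4 := (e1.add e2).add e3
      refine e4.congr_deriv ?_
      push_cast
      ring
    rw [intervalIntegral.integral_eq_sub_of_hasDerivAt hF]
    · ring
    · exact Continuous.intervalIntegrable (by fun_prop) _ _
  rw [h4, h5]
  ring

/-- Comparison of two affine functions, from an estimate on one square. -/
private theorem aff_bound29 (q : ℂ) {r : ℝ} (hr : 0 < r) (A B δ : ℝ) (hδ : 0 ≤ δ)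
    (h : ∫ z in Sq q r, (A * (z.im - q.im) + B) ^ 2 ≤ 4 * δ ^ 2) :
    |A| ≤ 2 / r ^ 2 * δ ∧ |B| ≤ 1 / r * δ := by
  rw [affine_sq q hr] at h
  have hr2 : 0 < r ^ 2 := by positivity
  constructor
  · refine abs_le_of_sq_le_sq ?_ (by positivity)
    have h1 : A ^ 2 * r ^ 4 ≤ 3 * δ ^ 2 := by nlinarith [sq_nonneg B]
    have h2 : (2 / r ^ 2 * δ) ^ 2 = 4 * δ ^ 2 / r ^ 4 := by
      field_simp
      ring
    rw [h2, le_div_iff₀ (by positivity)]
    nlinarith [sq_nonneg δ]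
  · refine abs_le_of_sq_le_sq ?_ (by positivity)
    have h1 : B ^ 2 * r ^ 2 ≤ δ ^ 2 := by nlinarith [mul_nonneg (sq_nonneg A) (sq_nonneg (r ^ 2))]
    have h2 : (1 / r * δ) ^ 2 = δ ^ 2 / r ^ 2 := by
      field_simp
    rw [h2, le_div_iff₀ hr2]
    exact h1

private theorem intg29 {p : ℂ} {ρ : ℝ} {V : ℂ → ℝ} (hV : ContinuousOn V (Sq p ρ)) (m c : ℝ) :
    IntegrableOn (fun z : ℂ => (V z - (m * z.im + c)) ^ 2) (Sq p ρ) := by
  refine ContinuousOn.integrableOn_compact (sq_compact29 p ρ) ?_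
  refine (hV.sub ?_).pow 2
  exact (Continuous.continuousOn (by fun_prop))

private theorem overlap_aux29 {ρ : ℝ} (p q : ℂ) (hre : |p.re - q.re| ≤ ρ)
    (him : |p.im - q.im| ≤ ρ) (V V' : ℂ → ℝ) (hV : ContinuousOn V (Sq p ρ))
    (hV' : ContinuousOn V' (Sq q ρ)) (heq : ∀ z ∈ Sq p ρ, z ∈ Sq q ρ → V z = V' z) (δ : ℝ)
    (m c m' c' : ℝ)
    (h1 : (∫ z in Sq p ρ, (V z - (m * z.im + c)) ^ 2) ≤ δ ^ 2)
    (h2 : (∫ z in Sq q ρ, (V' z - (m' * z.im + c')) ^ 2) ≤ δ ^ 2) :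
    ∫ z in Sq ((p + q) / 2) (ρ / 2),
      ((m - m') * (z.im - ((p + q) / 2).im) + ((m - m') * ((p + q) / 2).im + (c - c'))) ^ 2 ≤
      4 * δ ^ 2 := by
  have hqre : ((p + q) / 2).re = (p.re + q.re) / 2 := by simp
  have hqim : ((p + q) / 2).im = (p.im + q.im) / 2 := by simp
  have hsub1 : Sq ((p + q) / 2) (ρ / 2) ⊆ Sq p ρ := by
    intro z hz
    obtain ⟨a1, a2⟩ := hz
    rw [hqre] at a1
    rw [hqim] at a2
    rw [abs_le] at a1 a2 hre him
    refine ⟨abs_le.mpr ⟨by linarith, by linarith⟩, abs_le.mpr ⟨by linarith, by linarith⟩⟩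
  have hsub2 : Sq ((p + q) / 2) (ρ / 2) ⊆ Sq q ρ := by
    intro z hz
    obtain ⟨a1, a2⟩ := hz
    rw [hqre] at a1
    rw [hqim] at a2
    rw [abs_le] at a1 a2 hre him
    refine ⟨abs_le.mpr ⟨by linarith, by linarith⟩, abs_le.mpr ⟨by linarith, by linarith⟩⟩
  have i1 := intg29 hV m c
  have i2 := intg29 hV' m' c'
  have b1 : ∫ z in Sq ((p + q) / 2) (ρ / 2), (V z - (m * z.im + c)) ^ 2 ≤ δ ^ 2 :=
    (setIntegral_mono_set i1 (Filter.Eventually.of_forall fun z => sq_nonneg _)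
      (Filter.Eventually.of_forall hsub1)).trans h1
  have b2 : ∫ z in Sq ((p + q) / 2) (ρ / 2), (V' z - (m' * z.im + c')) ^ 2 ≤ δ ^ 2 :=
    (setIntegral_mono_set i2 (Filter.Eventually.of_forall fun z => sq_nonneg _)
      (Filter.Eventually.of_forall hsub2)).trans h2
  have j1 := i1.mono_set hsub1
  have j2 := i2.mono_set hsub2
  have hmeas : MeasurableSet (Sq ((p + q) / 2) (ρ / 2)) :=
    (sq_compact29 _ _).isClosed.measurableSet
  have hcont : IntegrableOn (fun z : ℂ => ((m - m') * (z.im - ((p + q) / 2).im) +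
      ((m - m') * ((p + q) / 2).im + (c - c'))) ^ 2) (Sq ((p + q) / 2) (ρ / 2)) :=
    ContinuousOn.integrableOn_compact (sq_compact29 _ _) (Continuous.continuousOn (by fun_prop))
  calc _ ≤ ∫ z in Sq ((p + q) / 2) (ρ / 2),
        (2 * (V z - (m * z.im + c)) ^ 2 + 2 * (V' z - (m' * z.im + c')) ^ 2) := by
        refine setIntegral_mono_on hcont ((j1.const_mul 2).add (j2.const_mul 2)) hmeas ?_
        intro z hz
        have e1 : V z = V' z := heq z (hsub1 hz) (hsub2 hz)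
        rw [← e1]
        nlinarith [sq_nonneg ((V z - (m * z.im + c)) + (V z - (m' * z.im + c')))]
    _ = 2 * (∫ z in Sq ((p + q) / 2) (ρ / 2), (V z - (m * z.im + c)) ^ 2) +
        2 * ∫ z in Sq ((p + q) / 2) (ρ / 2), (V' z - (m' * z.im + c')) ^ 2 := by
        rw [integral_add (j1.const_mul 2) (j2.const_mul 2), integral_const_mul, integral_const_mul]
    _ ≤ 4 * δ ^ 2 := by linarith

theorem overlap {ρ R : ℝ} (hρ : 0 < ρ) (hR : 0 ≤ R) : ∃ C : ℝ, 0 ≤ C ∧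
    ∀ p q : ℂ, |p.re - q.re| ≤ ρ → |p.im - q.im| ≤ ρ → |p.im| ≤ R → ∀ V V' : ℂ → ℝ,
      ContinuousOn V (Sq p ρ) → ContinuousOn V' (Sq q ρ) →
      (∀ z ∈ Sq p ρ, z ∈ Sq q ρ → V z = V' z) → ∀ δ : ℝ, 0 ≤ δ → ∀ m c m' c' : ℝ,
        (∫ z in Sq p ρ, (V z - (m * z.im + c)) ^ 2) ≤ δ ^ 2 →
        (∫ z in Sq q ρ, (V' z - (m' * z.im + c')) ^ 2) ≤ δ ^ 2 →
        |m - m'| ≤ C * δ ∧ |c - c'| ≤ C * δ := by
  have hC1 : 0 < 2 / (ρ / 2) ^ 2 := by positivity
  have hC2 : 0 < 1 / (ρ / 2) := by positivity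
  refine ⟨2 / (ρ / 2) ^ 2 + 1 / (ρ / 2) + 2 / (ρ / 2) ^ 2 * (R + ρ), by positivity, ?_⟩
  intro p q hre him hpR V V' hV hV' heq δ hδ m c m' c' h1 h2
  have h3 := overlap_aux29 p q hre him V V' hV hV' heq δ m c m' c' h1 h2
  obtain ⟨k1, k2⟩ := aff_bound29 ((p + q) / 2) (by positivity : 0 < ρ / 2) (m - m')
    ((m - m') * ((p + q) / 2).im + (c - c')) δ hδ h3
  have hqim : ((p + q) / 2).im = (p.im + q.im) / 2 := by simp
  have hq : |((p + q) / 2).im| ≤ R + ρ := by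
    rw [hqim]
    rw [abs_le] at hpR him ⊢
    constructor <;> linarith
  have hRρ : 0 ≤ R + ρ := by positivity
  constructor
  · refine k1.trans ?_
    refine mul_le_mul_of_nonneg_right ?_ hδ
    nlinarith [mul_nonneg hC1.le hRρ]
  · have e1 : c - c' = ((m - m') * ((p + q) / 2).im + (c - c')) - (m - m') * ((p + q) / 2).im := by
      ring
    have e2 : |c - c'| ≤ |(m - m') * ((p + q) / 2).im + (c - c')| +
        |m - m'| * |((p + q) / 2).im| := by
      rw [← abs_mul]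
      conv_lhs => rw [e1]
      exact abs_sub _ _
    have e3 : |m - m'| * |((p + q) / 2).im| ≤ 2 / (ρ / 2) ^ 2 * δ * (R + ρ) :=
      mul_le_mul k1 hq (abs_nonneg _) (by positivity)
    nlinarith [mul_nonneg hC1.le hδ]

theorem chain {ρ R : ℝ} (hρ : 0 < ρ) (hR : 0 ≤ R) : ∃ C : ℝ, 0 ≤ C ∧
    ∀ S : Set ℂ, Convex ℝ S → (∀ z ∈ S, ‖z‖ ≤ R) → ∀ V : ℂ → ℝ,
      (∀ p ∈ S, ContinuousOn V (Sq p ρ)) → ∀ δ : ℝ, 0 ≤ δ →
      (∀ p ∈ S, ∃ m c : ℝ, (∫ z in Sq p ρ, (V z - (m * z.im + c)) ^ 2) ≤ δ ^ 2) →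
      ∀ p ∈ S, ∀ q ∈ S, ∀ m c m' c' : ℝ,
        (∫ z in Sq p ρ, (V z - (m * z.im + c)) ^ 2) ≤ δ ^ 2 →
        (∫ z in Sq q ρ, (V z - (m' * z.im + c')) ^ 2) ≤ δ ^ 2 →
        |m - m'| ≤ C * δ ∧ |c - c'| ≤ C * δ := by
  obtain ⟨C, hC, hov⟩ := overlap hρ hR
  obtain ⟨N, hN⟩ : ∃ N : ℕ, N = ⌈2 * R / ρ⌉₊ + 1 := ⟨_, rfl⟩
  have hN0 : (0 : ℝ) < N := by
    rw [hN]
    positivity
  have hN1 : 2 * R / ρ ≤ N := by
    rw [hN]
    push_cast
    have := Nat.le_ceil (2 * R / ρ)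
    linarith
  refine ⟨(N + 1) * C, by positivity, ?_⟩
  intro S hS hSR V hV δ hδ hex p hp q hq m c m' c' h1 h2
  -- the points of the walk
  have hmem : ∀ j : ℕ, j ≤ N → p + ((j : ℝ) / N) • (q - p) ∈ S := by
    intro j hj
    have hj' : (j : ℝ) ≤ N := by exact_mod_cast hj
    exact hS.add_smul_sub_mem hp hq ⟨by positivity, (div_le_one hN0).mpr hj'⟩
  have hstep : ‖(1 / (N : ℝ)) • (q - p)‖ ≤ ρ := by
    rw [norm_smul, Real.norm_of_nonneg (by positivity)]
    have h3 : ‖q - p‖ ≤ 2 * R := by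
      refine (norm_sub_le _ _).trans ?_
      linarith [hSR p hp, hSR q hq]
    rw [one_div, inv_mul_le_iff₀ hN0]
    rw [div_le_iff₀ hρ] at hN1
    linarith
  have key : ∀ j : ℕ, j ≤ N → ∀ m' c' : ℝ,
      (∫ z in Sq (p + ((j : ℝ) / N) • (q - p)) ρ, (V z - (m' * z.im + c')) ^ 2) ≤ δ ^ 2 →
      |m - m'| ≤ (j + 1) * C * δ ∧ |c - c'| ≤ (j + 1) * C * δ := by
    intro j
    induction j with
    | zero =>
      intro _ m' c' h3
      have e0 : p + (((0 : ℕ) : ℝ) / N) • (q - p) = p := by simp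
      rw [e0] at h3
      have h4 := hov p p (by simpa using hρ.le) (by simpa using hρ.le)
        ((Complex.abs_im_le_norm p).trans (hSR p hp)) V V (hV p hp) (hV p hp)
        (fun z _ _ => rfl) δ hδ m c m' c' h1 h3
      simpa using h4
    | succ j ih =>
      intro hj m' c' h3
      have hj' : j ≤ N := by omega
      have hpj := hmem j hj'
      have hpj1 := hmem (j + 1) hj
      obtain ⟨m'', c'', h4⟩ := hex _ hpj
      obtain ⟨a1, a2⟩ := ih hj' m'' c'' h4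
      have hdiff : (p + ((j : ℝ) / N) • (q - p)) - (p + (((j + 1 : ℕ) : ℝ) / N) • (q - p)) =
          -((1 / (N : ℝ)) • (q - p)) := by
        push_cast
        rw [add_div, add_smul]
        ring
      have hn : ‖(p + ((j : ℝ) / N) • (q - p)) - (p + (((j + 1 : ℕ) : ℝ) / N) • (q - p))‖ ≤ ρ := by
        rw [hdiff, norm_neg]
        exact hstep
      have hre := (Complex.abs_re_le_norm _).trans hn
      have him := (Complex.abs_im_le_norm _).trans hn
      rw [Complex.sub_re] at hre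
      rw [Complex.sub_im] at him
      obtain ⟨b1, b2⟩ := hov _ _ hre him ((Complex.abs_im_le_norm _).trans (hSR _ hpj)) V V
        (hV _ hpj) (hV _ hpj1) (fun z _ _ => rfl) δ hδ m'' c'' m' c' h4 h3
      have t1 : |m - m'| ≤ |m - m''| + |m'' - m'| := by
        have : m - m' = (m - m'') + (m'' - m') := by ring
        rw [this]
        exact abs_add_le _ _
      have t2 : |c - c'| ≤ |c - c''| + |c'' - c'| := by
        have : c - c' = (c - c'') + (c'' - c') := by ring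
        rw [this]
        exact abs_add_le _ _
      push_cast
      constructor
      · nlinarith
      · nlinarith
  have e1 : p + ((N : ℝ) / N) • (q - p) = q := by
    rw [div_self hN0.ne', one_smul]
    ring
  have h5 := key N le_rfl m' c'
  rw [e1] at h5
  exact h5 h2

theorem aff_near {ρ R D : ℝ} (hρ : 0 < ρ) (hR : 0 ≤ R) (hD : 0 ≤ D) : ∃ C : ℝ, 0 ≤ C ∧
    ∀ p : ℂ, ‖p‖ ≤ R → ∀ V : ℂ → ℝ, ContinuousOn V (Sq p ρ) → ∀ δ : ℝ, 0 ≤ δ →
      ∀ m c m' c' : ℝ, (∫ z in Sq p ρ, (V z - (m * z.im + c)) ^ 2) ≤ δ ^ 2 →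
        |m - m'| ≤ D * δ → |c - c'| ≤ D * δ →
        (∫ z in Sq p ρ, (V z - (m' * z.im + c')) ^ 2) ≤ C * δ ^ 2 := by
  refine ⟨2 + 8 * ρ ^ 2 * (D ^ 2 * (R + 1) ^ 2 + D ^ 2 * ρ ^ 2 / 3), by positivity, ?_⟩
  intro p hp V hV δ hδ m c m' c' h1 h2 h3
  have i1 := intg29 hV m c
  have i2 := intg29 hV m' c'
  have hcont : IntegrableOn (fun z : ℂ => ((m - m') * (z.im - p.im) +
      ((m - m') * p.im + (c - c'))) ^ 2) (Sq p ρ) :=
    ContinuousOn.integrableOn_compact (sq_compact29 _ _) (Continuous.continuousOn (by fun_prop))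
  have hmeas : MeasurableSet (Sq p ρ) := (sq_compact29 _ _).isClosed.measurableSet
  have h4 : ∫ z in Sq p ρ, (V z - (m' * z.im + c')) ^ 2 ≤
      2 * δ ^ 2 + 2 * ∫ z in Sq p ρ, ((m - m') * (z.im - p.im) +
      ((m - m') * p.im + (c - c'))) ^ 2 := by
    calc ∫ z in Sq p ρ, (V z - (m' * z.im + c')) ^ 2
        ≤ ∫ z in Sq p ρ, (2 * (V z - (m * z.im + c)) ^ 2 + 2 * ((m - m') * (z.im - p.im) +
          ((m - m') * p.im + (c - c'))) ^ 2) := by
          refine setIntegral_mono_on i2 ((i1.const_mul 2).add (hcont.const_mul 2)) hmeas ?_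
          intro z _
          nlinarith [sq_nonneg ((V z - (m * z.im + c)) - ((m - m') * (z.im - p.im) +
            ((m - m') * p.im + (c - c'))))]
      _ = 2 * (∫ z in Sq p ρ, (V z - (m * z.im + c)) ^ 2) + 2 * ∫ z in Sq p ρ,
          ((m - m') * (z.im - p.im) + ((m - m') * p.im + (c - c'))) ^ 2 := by
          rw [integral_add (i1.const_mul 2) (hcont.const_mul 2), integral_const_mul,
            integral_const_mul]
      _ ≤ _ := by linarith
  rw [affine_sq p hρ] at h4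
  have hA : (m - m') ^ 2 ≤ (D * δ) ^ 2 := sq_le_sq' (by linarith [(abs_le.mp h2).1]) (abs_le.mp h2).2
  have hB : ((m - m') * p.im + (c - c')) ^ 2 ≤ (D * δ * (R + 1)) ^ 2 := by
    have hb : |(m - m') * p.im + (c - c')| ≤ D * δ * (R + 1) := by
      refine (abs_add_le _ _).trans ?_
      rw [abs_mul]
      have h5 : |m - m'| * |p.im| ≤ D * δ * R :=
        mul_le_mul h2 ((Complex.abs_im_le_norm p).trans hp) (abs_nonneg _) (by positivity)
      linarith
    exact sq_le_sq' (by linarith [(abs_le.mp hb).1]) (abs_le.mp hb).2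
  have h6 : 4 * ρ ^ 2 * (((m - m') * p.im + (c - c')) ^ 2 + (m - m') ^ 2 * ρ ^ 2 / 3) ≤
      4 * ρ ^ 2 * ((D * δ * (R + 1)) ^ 2 + (D * δ) ^ 2 * ρ ^ 2 / 3) := by
    refine mul_le_mul_of_nonneg_left ?_ (by positivity)
    have h7 : (m - m') ^ 2 * ρ ^ 2 ≤ (D * δ) ^ 2 * ρ ^ 2 :=
      mul_le_mul_of_nonneg_right hA (by positivity)
    linarith
  calc _ ≤ _ := h4
    _ ≤ 2 * δ ^ 2 + 2 * (4 * ρ ^ 2 * ((D * δ * (R + 1)) ^ 2 + (D * δ) ^ 2 * ρ ^ 2 / 3)) := by
      linarith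
    _ = _ := by ring

end Pool.Agent.Helper21.H3
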