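import Pool.Agent.Helper21.H3.Cut

/-!
# MP_e98778_an (full), H3, block CACC: Caccioppoli inequality

BLOCK TF-H3-CACC. Let `v h = pot T x f h - m h z.im - c h`, `e h = et T x f h - m h I` (its gradient, almost
everywhere), `g h = Th² v`. `g` is a corner family (products of bounded Lipschitz functions on the bounded
closed triangles; `th_zero`; `th_edge` and `pot_sg`), and so is `m h g h`. So by `meanC`
`∑ m h ∫ (grad (g h)).im = 0` and
`∑ ∫ dot (et) (grad g) = ∑ ∫ dot e (grad g) = ∑ ∫ Th² ‖e‖² + 2 Th v dot e (grad Th)`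
`≥ (3/4) A - 4 B`, `A = ∑ ∫ Th² ‖e‖²`, `B = ∑ ∫ v² ‖grad Th‖²`. By `NH` the left side is at most
`κ (∑ ∫ ‖grad g‖²)^(1/2) ≤ κ (2 A + 8 B)^(1/2) ≤ 2 κ² + A/4 + B`. So `A ≤ 10 B + 4 κ²`.
-/

set_option autoImplicit false

open MeasureTheory Set Pool.Agent.Helper87.LS Pool.Agent.Helper79.G Pool.Agent.Helper72.TF

namespace Pool.Agent.Helper21.H3

variable {H : Type}

/-! ### Lipschitz functions on a bounded set -/

private def Lp (S : Set ℂ) (u : ℂ → ℝ) : Prop := ∃ C : NNReal, LipschitzOnWith C u S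

private lemma Lp.add {S : Set ℂ} {u w : ℂ → ℝ} (hu : Lp S u) (hw : Lp S w) :
    Lp S (fun z => u z + w z) := by
  obtain ⟨C, hC⟩ := hu
  obtain ⟨D, hD⟩ := hw
  exact ⟨C + D, hC.add hD⟩

private lemma Lp.sub {S : Set ℂ} {u w : ℂ → ℝ} (hu : Lp S u) (hw : Lp S w) :
    Lp S (fun z => u z - w z) := by
  obtain ⟨C, hC⟩ := hu
  obtain ⟨D, hD⟩ := hw
  exact ⟨C + D, hC.sub hD⟩

private lemma Lp.const (S : Set ℂ) (a : ℝ) : Lp S (fun _ => a) :=
  ⟨0, (LipschitzWith.const a).lipschitzOnWith⟩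

private lemma Lp.bdd {S : Set ℂ} (hS : Bornology.IsBounded S) {u : ℂ → ℝ} (hu : Lp S u) :
    ∃ M : ℝ, 0 ≤ M ∧ ∀ z ∈ S, |u z| ≤ M := by
  obtain ⟨C, hC⟩ := hu
  rcases S.eq_empty_or_nonempty with h | ⟨z0, hz0⟩
  · exact ⟨0, le_rfl, by simp [h]⟩
  · obtain ⟨R, hR⟩ := hS.subset_closedBall z0
    refine ⟨|u z0| + C * |R|, by positivity, fun z hz => ?_⟩
    have h1 := hC.dist_le_mul z hz z0 hz0
    have h2 : dist z z0 ≤ |R| := (Metric.mem_closedBall.mp (hR hz)).trans (le_abs_self R)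
    have h3 : |u z - u z0| ≤ C * |R| := by
      rw [← Real.dist_eq]
      exact h1.trans (mul_le_mul_of_nonneg_left h2 C.2)
    have h4 : |u z| ≤ |u z - u z0| + |u z0| := by
      have := abs_add_le (u z - u z0) (u z0)
      simpa using this
    linarith

private lemma Lp.mul {S : Set ℂ} (hS : Bornology.IsBounded S) {u w : ℂ → ℝ} (hu : Lp S u)
    (hw : Lp S w) : Lp S (fun z => u z * w z) := by
  obtain ⟨A, hA0, hA⟩ := hu.bdd hS
  obtain ⟨B, hB0, hB⟩ := hw.bdd hS
  obtain ⟨C, hC⟩ := hu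
  obtain ⟨D, hD⟩ := hw
  refine ⟨⟨A, hA0⟩ * D + ⟨B, hB0⟩ * C, LipschitzOnWith.of_dist_le_mul (fun y hy z hz => ?_)⟩
  have h1 := hC.dist_le_mul y hy z hz
  have h2 := hD.dist_le_mul y hy z hz
  rw [Real.dist_eq] at h1 h2 ⊢
  have h3 : u y * w y - u z * w z = u y * (w y - w z) + w z * (u y - u z) := by ring
  rw [h3]
  refine (abs_add_le _ _).trans ?_
  rw [abs_mul, abs_mul]
  push_cast
  calc |u y| * |w y - w z| + |w z| * |u y - u z|
      ≤ A * (D * dist y z) + B * (C * dist y z) :=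
        add_le_add (mul_le_mul (hA y hy) h2 (abs_nonneg _) hA0)
          (mul_le_mul (hB z hz) h1 (abs_nonneg _) hB0)
    _ = (A * D + B * C) * dist y z := by ring

private lemma Lp.re (S : Set ℂ) : Lp S (fun z => z.re) :=
  ⟨1, LipschitzOnWith.of_dist_le_mul (fun y _ z _ => by
    rw [Real.dist_eq, ← Complex.sub_re, dist_eq_norm]
    simpa using Complex.abs_re_le_norm (y - z))⟩

private lemma Lp.im (S : Set ℂ) : Lp S (fun z => z.im) :=
  ⟨1, LipschitzOnWith.of_dist_le_mul (fun y _ z _ => by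
    rw [Real.dist_eq, ← Complex.sub_im, dist_eq_norm]
    simpa using Complex.abs_im_le_norm (y - z))⟩

private lemma exists_common [Finite H] {S : H → Set ℂ} {u : H → ℂ → ℝ}
    (h : ∀ k, Lp (S k) (u k)) : ∃ C : NNReal, ∀ k, LipschitzOnWith C (u k) (S k) := by
  have := Fintype.ofFinite H
  choose C hC using h
  exact ⟨Finset.univ.sup C, fun k => (hC k).weaken (Finset.le_sup (Finset.mem_univ k))⟩

/-! ### The functions -/

private noncomputable def vv (T : Tri H) (x : H → ℝ) (f : H → ℂ → ℝ) (m c : H → ℝ) (h : H)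
    (z : ℂ) : ℝ := pot T x f h z - (m h * z.im + c h)

private noncomputable def gg (T : Tri H) (x : H → ℝ) (f : H → ℂ → ℝ) (m c : H → ℝ) (h : H)
    (z : ℂ) : ℝ := Th T h z * Th T h z * vv T x f m c h z

private lemma lp_vv (T : Tri H) (x : H → ℝ) {f : H → ℂ → ℝ} (hf : Fn T f) (m c : H → ℝ)
    (h : H) : Lp (Cl T h) (vv T x f m c h) := by
  have hS := isBounded_Cl T h
  obtain ⟨C, hC⟩ := hf.lip
  have h1 : Lp (Cl T h) (fun z => (omega T x h).re * z.re + (omega T x h).im * z.im + f h z) :=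
    (((Lp.const _ _).mul hS (Lp.re _)).add ((Lp.const _ _).mul hS (Lp.im _))).add ⟨C, hC h⟩
  have h2 : Lp (Cl T h) (fun z => m h * z.im + c h) :=
    ((Lp.const _ _).mul hS (Lp.im _)).add (Lp.const _ _)
  exact h1.sub h2

private lemma lp_Th (T : Tri H) (h : H) : Lp (Cl T h) (Th T h) := by
  obtain ⟨C, hC⟩ := th_lip T h
  exact ⟨C, hC.lipschitzOnWith⟩

private lemma lp_gg (T : Tri H) (x : H → ℝ) {f : H → ℂ → ℝ} (hf : Fn T f) (m c : H → ℝ)
    (h : H) : Lp (Cl T h) (gg T x f m c h) := by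
  have hS := isBounded_Cl T h
  exact ((lp_Th T h).mul hS (lp_Th T h)).mul hS (lp_vv T x hf m c h)

private lemma vv_edge (T : Tri H) {x : H → ℝ} (hx : x ∈ Coch T) {f : H → ℂ → ℝ} (hf : Fn T f)
    {m c : H → ℝ} (hm : ∀ h, m (sg T h) = m h) (hc : ∀ h, c (sg T h) = c h) (h : H) {t : ℝ}
    (ht : t ∈ Icc (0 : ℝ) 1) :
    vv T x f m c (sg T h) (t * T.vec h) = vv T x f m c h (t * T.vec h) := by
  unfold vv
  rw [pot_sg T hx hf h ht, hm, hc]

private lemma corner_gg [Finite H] (T : Tri H) {x : H → ℝ} (hx : x ∈ Coch T) {f : H → ℂ → ℝ}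
    (hf : Fn T f) {m c : H → ℝ} (hm : ∀ h, m (sg T h) = m h) (hc : ∀ h, c (sg T h) = c h)
    {b : H → ℝ} (hb : ∀ h, b (sg T h) = b h) :
    Corner T (fun h z => b h * gg T x f m c h z) := by
  refine ⟨?_, ?_, ?_⟩
  · exact exists_common (S := Cl T) (u := fun h z => b h * gg T x f m c h z) (fun h =>
      (Lp.const _ _).mul (isBounded_Cl T h) (lp_gg T x hf m c h))
  · intro h z hz h1
    simp only [gg, th_zero T hz h1]
    ring
  · intro h t ht
    simp only [gg]
    rw [th_edge T h ht, vv_edge T hx hf hm hc h ht, hb]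

/-! ### Gradients -/

private lemma grad_of_has {u : ℂ → ℝ} {u' : ℂ →L[ℝ] ℝ} {z : ℂ} (h : HasFDerivAt u u' z) :
    grad u z = ⟨u' 1, u' Complex.I⟩ := by
  unfold grad
  rw [h.fderiv]

private lemma grad_smul (b : ℝ) (u : ℂ → ℝ) (z : ℂ) :
    grad (fun z => b * u z) z = (b : ℂ) * grad u z := by
  have h1 : (fun z => b * u z) = b • u := by ext z; simp
  have h2 : fderiv ℝ (b • u) z = b • fderiv ℝ u z := by
    have := fderiv_const_smul_field (𝕜 := ℝ) (f := u) b
    rw [this]; rfl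
  unfold grad
  rw [h1, h2]
  apply Complex.ext <;> simp

private lemma grad_gg (T : Tri H) (x : H → ℝ) (f : H → ℂ → ℝ) (m c : H → ℝ) (h : H) {z : ℂ}
    (h1 : DifferentiableAt ℝ (f h) z) (h2 : DifferentiableAt ℝ (Th T h) z) :
    (grad (gg T x f m c h) z).re = Th T h z ^ 2 * (et T x f h z - m h * Complex.I).re +
        2 * Th T h z * vv T x f m c h z * (grad (Th T h) z).re ∧
      (grad (gg T x f m c h) z).im = Th T h z ^ 2 * (et T x f h z - m h * Complex.I).im +
        2 * Th T h z * vv T x f m c h z * (grad (Th T h) z).im := by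
  have hv : HasFDerivAt (vv T x f m c h)
      (((omega T x h).re • Complex.reCLM + (omega T x h).im • Complex.imCLM + fderiv ℝ (f h) z)
        - m h • Complex.imCLM) z := by
    have e1 : HasFDerivAt (fun z : ℂ => (omega T x h).re * z.re)
        ((omega T x h).re • Complex.reCLM) z :=
      (Complex.reCLM.hasFDerivAt (x := z)).const_mul _
    have e2 : HasFDerivAt (fun z : ℂ => (omega T x h).im * z.im)
        ((omega T x h).im • Complex.imCLM) z :=
      (Complex.imCLM.hasFDerivAt (x := z)).const_mul _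
    have e3 : HasFDerivAt (fun z : ℂ => m h * z.im + c h) (m h • Complex.imCLM) z :=
      ((Complex.imCLM.hasFDerivAt (x := z)).const_mul _).add_const _
    exact ((e1.add e2).add h1.hasFDerivAt).sub e3
  have hg : HasFDerivAt (gg T x f m c h)
      ((Th T h z * Th T h z) • (((omega T x h).re • Complex.reCLM +
          (omega T x h).im • Complex.imCLM + fderiv ℝ (f h) z) - m h • Complex.imCLM) +
        vv T x f m c h z • (Th T h z • fderiv ℝ (Th T h) z + Th T h z • fderiv ℝ (Th T h) z)) z :=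
    (h2.hasFDerivAt.mul h2.hasFDerivAt).mul hv
  rw [grad_of_has hg]
  constructor
  · simp only [et, grad, add_apply, smul_apply, sub_apply, Complex.reCLM_apply, Complex.imCLM_apply, Complex.one_re,
      Complex.one_im, smul_eq_mul, Complex.sub_re, Complex.add_re, Complex.mul_re,
      Complex.ofReal_re, Complex.ofReal_im, Complex.I_re, Complex.I_im]
    ring
  · simp only [et, grad, add_apply, smul_apply, sub_apply, Complex.reCLM_apply, Complex.imCLM_apply, Complex.I_re,
      Complex.I_im, smul_eq_mul, Complex.sub_im, Complex.add_im, Complex.mul_im,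
      Complex.ofReal_re, Complex.ofReal_im]
    ring

/-! ### Integrability -/

private lemma meas_Op (T : Tri H) (h : H) : MeasurableSet (Op T h) := (isOpen_Op T h).measurableSet

private lemma int_bdd {E : Type*} [NormedAddCommGroup E] (T : Tri H) (h : H) {F : ℂ → E}
    (hF : AEStronglyMeasurable F (volume.restrict (Op T h))) {M : ℝ}
    (hM : ∀ z ∈ Op T h, ‖F z‖ ≤ M) : IntegrableOn F (Op T h) := by
  have hfin : volume (Op T h) < ⊤ :=
    ((isBounded_Cl T h).subset (Op_sub_Cl T h)).measure_lt_top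
  have : IsFiniteMeasure (volume.restrict (Op T h)) :=
    ⟨by rw [Measure.restrict_apply_univ]; exact hfin⟩
  refine Integrable.of_bound hF M ?_
  exact (ae_restrict_mem (meas_Op T h)).mono (fun z hz => hM z hz)

private lemma ae_diff (T : Tri H) (h : H) {u : ℂ → ℝ} (hu : Lp (Cl T h) u) :
    ∀ᵐ z ∂(volume.restrict (Op T h)), DifferentiableAt ℝ u z := by
  obtain ⟨C, hC⟩ := hu
  have h1 := (hC.mono (Op_sub_Cl T h)).ae_differentiableWithinAt (μ := volume) (meas_Op T h)
  filter_upwards [h1, ae_restrict_mem (meas_Op T h)] with z hz hz'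
  exact hz.differentiableAt ((isOpen_Op T h).mem_nhds hz')

private lemma grad_bdd (T : Tri H) (h : H) {u : ℂ → ℝ} (hu : Lp (Cl T h) u) :
    ∃ M : ℝ, 0 ≤ M ∧ ∀ z ∈ Op T h, ‖grad u z‖ ≤ M := by
  obtain ⟨C, hC⟩ := hu
  exact ⟨2 * C, by positivity, fun z hz => grad_bound hC hz⟩

private lemma abs_dot_le (z w : ℂ) : |dot z w| ≤ 2 * (‖z‖ * ‖w‖) := by
  unfold dot
  have h1 := Complex.abs_re_le_norm z
  have h2 := Complex.abs_re_le_norm w
  have h3 := Complex.abs_im_le_norm z
  have h4 := Complex.abs_im_le_norm w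
  calc |z.re * w.re + z.im * w.im| ≤ |z.re| * |w.re| + |z.im| * |w.im| := by
        rw [← abs_mul, ← abs_mul]; exact abs_add_le _ _
    _ ≤ ‖z‖ * ‖w‖ + ‖z‖ * ‖w‖ := add_le_add (mul_le_mul h1 h2 (abs_nonneg _) (norm_nonneg _))
        (mul_le_mul h3 h4 (abs_nonneg _) (norm_nonneg _))
    _ = _ := by ring

theorem cacc [Fintype H] (T : Tri H) {x : H → ℝ} (hx : x ∈ Coch T) {f : H → ℂ → ℝ} (hf : Fn T f)
    (hmean : ∀ F, Fn T F → ∑ h, ∫ z in Op T h, grad (F h) z = 0) {κ : ℝ} (hκ : 0 ≤ κ)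
    (hNH : NH T x f κ) {m c : H → ℝ} (hm : ∀ h, m (sg T h) = m h) (hc : ∀ h, c (sg T h) = c h) :
    ∑ h, ∫ z in Op T h, Th T h z ^ 2 * ‖et T x f h z - m h * Complex.I‖ ^ 2 ≤
      10 * (∑ h, ∫ z in Op T h,
        (pot T x f h z - (m h * z.im + c h)) ^ 2 * ‖grad (Th T h) z‖ ^ 2) + 4 * κ ^ 2 := by
  -- measurability and bounds
  have hthm : ∀ h, Measurable (Th T h) := fun h => by
    obtain ⟨C, hC⟩ := th_lip T h
    exact hC.continuous.measurable
  have hem : ∀ h, Measurable (fun z => et T x f h z - m h * Complex.I) := fun h => by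
    unfold et
    exact ((measurable_grad (f h)).const_add _).sub_const _
  have hetm : ∀ h, Measurable (fun z => et T x f h z) := fun h => by
    unfold et
    exact (measurable_grad (f h)).const_add _
  have hvm : ∀ h, AEStronglyMeasurable (vv T x f m c h) (volume.restrict (Op T h)) := fun h => by
    obtain ⟨C, hC⟩ := lp_vv T x hf m c h
    exact (hC.continuousOn.mono (Op_sub_Cl T h)).aestronglyMeasurable (meas_Op T h)
  have hetb : ∀ h, ∃ M : ℝ, 0 ≤ M ∧ ∀ z ∈ Op T h, ‖et T x f h z‖ ≤ M := fun h => by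
    obtain ⟨C, hC⟩ := hf.lip
    obtain ⟨M, hM0, hM⟩ := grad_bdd T h ⟨C, hC h⟩
    refine ⟨‖omega T x h‖ + M, by positivity, fun z hz => ?_⟩
    exact (norm_add_le _ _).trans (by linarith [hM z hz])
  have heb : ∀ h, ∃ M : ℝ, 0 ≤ M ∧ ∀ z ∈ Op T h, ‖et T x f h z - m h * Complex.I‖ ≤ M :=
    fun h => by
    obtain ⟨M, hM0, hM⟩ := hetb h
    refine ⟨M + |m h|, by positivity, fun z hz => ?_⟩
    refine (norm_sub_le _ _).trans (add_le_add (hM z hz) ?_)
    rw [norm_mul, Complex.norm_I, mul_one, Complex.norm_real, Real.norm_eq_abs]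
  have hvb : ∀ h, ∃ M : ℝ, 0 ≤ M ∧ ∀ z ∈ Op T h, |vv T x f m c h z| ≤ M := fun h => by
    obtain ⟨M, hM0, hM⟩ := (lp_vv T x hf m c h).bdd (isBounded_Cl T h)
    exact ⟨M, hM0, fun z hz => hM z (Op_sub_Cl T h hz)⟩
  -- integrability
  have iA : ∀ h, IntegrableOn
      (fun z => Th T h z ^ 2 * ‖et T x f h z - m h * Complex.I‖ ^ 2) (Op T h) := fun h => by
    obtain ⟨M, hM0, hM⟩ := heb h
    refine int_bdd T h (M := M ^ 2) ?_ (fun z hz => ?_)
    · exact (((hthm h).pow_const 2).mul ((hem h).norm.pow_const 2)).aestronglyMeasurable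
    · have h1 := th_nonneg T h z
      have h2 := th_le_one T h z
      rw [Real.norm_eq_abs, abs_of_nonneg (by positivity)]
      have h3 : Th T h z ^ 2 ≤ 1 := pow_le_one₀ h1 h2
      have h4 : ‖et T x f h z - m h * Complex.I‖ ^ 2 ≤ M ^ 2 :=
        pow_le_pow_left₀ (norm_nonneg _) (hM z hz) 2
      nlinarith [sq_nonneg ‖et T x f h z - m h * Complex.I‖]
  have iB : ∀ h, IntegrableOn
      (fun z => vv T x f m c h z ^ 2 * ‖grad (Th T h) z‖ ^ 2) (Op T h) := fun h => by
    obtain ⟨M, hM0, hM⟩ := hvb h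
    obtain ⟨N, hN0, hN⟩ := grad_bdd T h (lp_Th T h)
    refine int_bdd T h (M := M ^ 2 * N ^ 2) ?_ (fun z hz => ?_)
    · exact ((hvm h).pow 2).mul
        ((measurable_grad (Th T h)).norm.pow_const 2).aestronglyMeasurable
    · rw [Real.norm_eq_abs, abs_of_nonneg (by positivity)]
      have h3 : vv T x f m c h z ^ 2 ≤ M ^ 2 := by
        rw [← sq_abs]
        exact pow_le_pow_left₀ (abs_nonneg _) (hM z hz) 2
      have h4 : ‖grad (Th T h) z‖ ^ 2 ≤ N ^ 2 :=
        pow_le_pow_left₀ (norm_nonneg _) (hN z hz) 2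
      exact mul_le_mul h3 h4 (by positivity) (by positivity)
  have hgb : ∀ h, ∃ M : ℝ, 0 ≤ M ∧ ∀ z ∈ Op T h, ‖grad (gg T x f m c h) z‖ ≤ M :=
    fun h => grad_bdd T h (lp_gg T x hf m c h)
  have hgm : ∀ h, Measurable (grad (gg T x f m c h)) := fun h => measurable_grad _
  have iG : ∀ h, IntegrableOn (fun z => grad (gg T x f m c h) z) (Op T h) := fun h => by
    obtain ⟨M, hM0, hM⟩ := hgb h
    exact int_bdd T h (hgm h).aestronglyMeasurable hM
  have iGim : ∀ h, IntegrableOn (fun z => (grad (gg T x f m c h) z).im) (Op T h) := fun h =>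
    (Complex.imCLM.integrable_comp (iG h))
  have iN : ∀ h, IntegrableOn (fun z => ‖grad (gg T x f m c h) z‖ ^ 2) (Op T h) := fun h => by
    obtain ⟨M, hM0, hM⟩ := hgb h
    refine int_bdd T h (M := M ^ 2) ((hgm h).norm.pow_const 2).aestronglyMeasurable
      (fun z hz => ?_)
    rw [Real.norm_eq_abs, abs_of_nonneg (by positivity)]
    exact pow_le_pow_left₀ (norm_nonneg _) (hM z hz) 2
  have iD : ∀ h, IntegrableOn (fun z => dot (et T x f h z) (grad (gg T x f m c h) z))
      (Op T h) := fun h => by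
    obtain ⟨M, hM0, hM⟩ := hgb h
    obtain ⟨N, hN0, hN⟩ := hetb h
    refine int_bdd T h (M := 2 * (N * M)) ?_ (fun z hz => ?_)
    · have h1 := hetm h
      have h2 := hgm h
      unfold dot
      exact (((Complex.measurable_re.comp h1).mul (Complex.measurable_re.comp h2)).add
        ((Complex.measurable_im.comp h1).mul (Complex.measurable_im.comp h2))).aestronglyMeasurable
    · refine (abs_dot_le _ _).trans ?_
      have := mul_le_mul (hN z hz) (hM z hz) (norm_nonneg _) hN0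
      linarith
  -- the family is a corner family
  have hcg : Corner T (gg T x f m c) := by
    have := corner_gg T hx hf hm hc (b := fun _ => 1) (fun _ => rfl)
    simpa using this
  have hcg2 := corner_gg T hx hf hm hc (b := m) hm
  have hmean2 := meanC T hmean hcg2
  have hM0 : ∑ h, m h * ∫ z in Op T h, (grad (gg T x f m c h) z).im = 0 := by
    have h1 : ∀ h, ∫ z in Op T h, grad (fun z => m h * gg T x f m c h z) z =
        (m h : ℂ) * ∫ z in Op T h, grad (gg T x f m c h) z := fun h => by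
      simp only [grad_smul]
      rw [integral_const_mul]
    have h2 : ∀ h, (∫ z in Op T h, grad (gg T x f m c h) z).im =
        ∫ z in Op T h, (grad (gg T x f m c h) z).im := fun h =>
      (Complex.imCLM.integral_comp_comm (iG h)).symm
    have h3 := congrArg Complex.im hmean2
    simp only [h1] at h3
    rw [Complex.im_sum] at h3
    simp only [Complex.mul_im, Complex.ofReal_re, Complex.ofReal_im, zero_mul, add_zero, h2,
      Complex.zero_im] at h3
    exact h3
  have hnh := hNH _ hcg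
  -- pointwise inequalities
  have hpt : ∀ h, ∀ᵐ z ∂(volume.restrict (Op T h)),
      (grad (gg T x f m c h) z).re = Th T h z ^ 2 * (et T x f h z - m h * Complex.I).re +
        2 * Th T h z * vv T x f m c h z * (grad (Th T h) z).re ∧
      (grad (gg T x f m c h) z).im = Th T h z ^ 2 * (et T x f h z - m h * Complex.I).im +
        2 * Th T h z * vv T x f m c h z * (grad (Th T h) z).im := fun h => by
    obtain ⟨C, hC⟩ := hf.lip
    filter_upwards [ae_diff T h ⟨C, hC h⟩, ae_diff T h (lp_Th T h)] with z h1 h2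
    exact grad_gg T x f m c h h1 h2
  have I1 : ∀ h, 3 / 4 * (∫ z in Op T h, Th T h z ^ 2 * ‖et T x f h z - m h * Complex.I‖ ^ 2) -
      4 * (∫ z in Op T h, vv T x f m c h z ^ 2 * ‖grad (Th T h) z‖ ^ 2) ≤
      (∫ z in Op T h, dot (et T x f h z) (grad (gg T x f m c h) z)) -
        m h * ∫ z in Op T h, (grad (gg T x f m c h) z).im := fun h => by
    rw [← integral_const_mul, ← integral_const_mul, ← integral_const_mul, ← integral_sub
      ((iA h).const_mul _) ((iB h).const_mul _), ← integral_sub (iD h) ((iGim h).const_mul _)]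
    refine integral_mono_ae (((iA h).const_mul _).sub ((iB h).const_mul _))
      ((iD h).sub ((iGim h).const_mul _)) ?_
    filter_upwards [hpt h] with z hz
    obtain ⟨hz1, hz2⟩ := hz
    simp only [dot]
    rw [Complex.sq_norm, Complex.sq_norm, Complex.normSq_apply, Complex.normSq_apply, hz1, hz2]
    have e1 : (et T x f h z - m h * Complex.I).re = (et T x f h z).re := by simp
    have e2 : (et T x f h z - m h * Complex.I).im = (et T x f h z).im - m h := by simp
    rw [e1, e2]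
    set p := (et T x f h z).re
    set q := (et T x f h z).im
    set a := (grad (Th T h) z).re
    set b := (grad (Th T h) z).im
    set t := Th T h z
    set v := vv T x f m c h z
    nlinarith [sq_nonneg (1 / 2 * (t * p) + 2 * (v * a)),
      sq_nonneg (1 / 2 * (t * (q - m h)) + 2 * (v * b))]
  have I2 : ∀ h, (∫ z in Op T h, ‖grad (gg T x f m c h) z‖ ^ 2) ≤
      2 * (∫ z in Op T h, Th T h z ^ 2 * ‖et T x f h z - m h * Complex.I‖ ^ 2) +
      8 * (∫ z in Op T h, vv T x f m c h z ^ 2 * ‖grad (Th T h) z‖ ^ 2) := fun h => by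
    rw [← integral_const_mul, ← integral_const_mul, ← integral_add
      ((iA h).const_mul _) ((iB h).const_mul _)]
    refine integral_mono_ae (iN h) (((iA h).const_mul _).add ((iB h).const_mul _)) ?_
    filter_upwards [hpt h] with z hz
    obtain ⟨hz1, hz2⟩ := hz
    have ht0 := th_nonneg T h z
    have ht1 := th_le_one T h z
    rw [Complex.sq_norm, Complex.sq_norm, Complex.sq_norm, Complex.normSq_apply,
      Complex.normSq_apply, Complex.normSq_apply, hz1, hz2]
    set p := (et T x f h z - m h * Complex.I).re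
    set q := (et T x f h z - m h * Complex.I).im
    set a := (grad (Th T h) z).re
    set b := (grad (Th T h) z).im
    set t := Th T h z
    set v := vv T x f m c h z
    have ht2 : t ^ 2 ≤ 1 := pow_le_one₀ ht0 ht1
    have k1 : (t ^ 2 * p + 2 * t * v * a) * (t ^ 2 * p + 2 * t * v * a) ≤
        t ^ 2 * (2 * (t * p) ^ 2 + 8 * (v * a) ^ 2) := by
      nlinarith [mul_nonneg (sq_nonneg t) (sq_nonneg (t * p - 2 * (v * a)))]
    have k2 : (t ^ 2 * q + 2 * t * v * b) * (t ^ 2 * q + 2 * t * v * b) ≤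
        t ^ 2 * (2 * (t * q) ^ 2 + 8 * (v * b) ^ 2) := by
      nlinarith [mul_nonneg (sq_nonneg t) (sq_nonneg (t * q - 2 * (v * b)))]
    have k3 : t ^ 2 * (2 * (t * p) ^ 2 + 8 * (v * a) ^ 2) ≤ 2 * (t * p) ^ 2 + 8 * (v * a) ^ 2 :=
      mul_le_of_le_one_left (by positivity) ht2
    have k4 : t ^ 2 * (2 * (t * q) ^ 2 + 8 * (v * b) ^ 2) ≤ 2 * (t * q) ^ 2 + 8 * (v * b) ^ 2 :=
      mul_le_of_le_one_left (by positivity) ht2
    calc _ ≤ (2 * (t * p) ^ 2 + 8 * (v * a) ^ 2) + (2 * (t * q) ^ 2 + 8 * (v * b) ^ 2) :=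
          add_le_add (k1.trans k3) (k2.trans k4)
      _ = _ := by ring
  -- conclusion
  have J1 := Finset.sum_le_sum (fun h (_ : h ∈ Finset.univ) => I1 h)
  have J2 := Finset.sum_le_sum (fun h (_ : h ∈ Finset.univ) => I2 h)
  rw [Finset.sum_sub_distrib, Finset.sum_sub_distrib, ← Finset.mul_sum, ← Finset.mul_sum, hM0]
    at J1
  rw [Finset.sum_add_distrib, ← Finset.mul_sum, ← Finset.mul_sum] at J2
  have hBeq : (∑ h, ∫ z in Op T h, (pot T x f h z - (m h * z.im + c h)) ^ 2 *
      ‖grad (Th T h) z‖ ^ 2) =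
      ∑ h, ∫ z in Op T h, vv T x f m c h z ^ 2 * ‖grad (Th T h) z‖ ^ 2 := rfl
  rw [hBeq]
  set A := ∑ h, ∫ z in Op T h, Th T h z ^ 2 * ‖et T x f h z - m h * Complex.I‖ ^ 2
  set B := ∑ h, ∫ z in Op T h, vv T x f m c h z ^ 2 * ‖grad (Th T h) z‖ ^ 2
  set D := ∑ h, ∫ z in Op T h, dot (et T x f h z) (grad (gg T x f m c h) z)
  set N := ∑ h, ∫ z in Op T h, ‖grad (gg T x f m c h) z‖ ^ 2
  have hN0 : 0 ≤ N := Finset.sum_nonneg (fun h _ => integral_nonneg (fun z => by positivity))
  have hD : D ≤ κ * Real.sqrt N := (le_abs_self _).trans hnh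
  have hs : Real.sqrt N ^ 2 = N := Real.sq_sqrt hN0
  nlinarith [sq_nonneg (4 * κ - Real.sqrt N)]

end Pool.Agent.Helper21.H3
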