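import Pool.Agent.Helper21.H3.Defs

/-!
# MP_e98778_an (full), H3, block COMB: combinatorics

BLOCK TF-H3-COMB.

`orbit_avg`: choose a representative of every cycle of `σ` and let `m'` be the value of `m` at the
representative; every element of the cycle is `σ ^ j` of it with `j < card`.
`conn_close`: let `R 0 = {h₀}`, `R (k+1) = R k ∪ next (R k) ∪ opp (R k)`; as long as `R (k+1) ≠ R k` the
cardinality grows, so `R (card)` is closed, so everything (`Conn`), and `|m h - m h₀| ≤ k δ` on `R k`.
-/

set_option autoImplicit false

open MeasureTheory Set Pool.Agent.Helper87.LS Pool.Agent.Helper79.G Pool.Agent.Helper72.TF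

namespace Pool.Agent.Helper21.H3

variable {H : Type}

/-- Growth argument: everything reached from `k` by steps which change `m` by at most `δ` is reached
by at most `card H` steps. -/
theorem reach71 [Fintype H] (step : H → H → Prop) (m : H → ℝ) (δ : ℝ) (hδ : 0 ≤ δ)
    (hm : ∀ a b, step a b → |m b - m a| ≤ δ) (k : H) :
    ∃ R : Finset H, k ∈ R ∧ (∀ a ∈ R, ∀ b, step a b → b ∈ R) ∧
      ∀ h ∈ R, |m h - m k| ≤ Fintype.card H * δ := by
  classical
  let R : ℕ → Finset H := fun n => Nat.rec {k}
    (fun _ A => A ∪ Finset.univ.filter (fun b => ∃ a ∈ A, step a b)) n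
  have hR0 : R 0 = {k} := rfl
  have hR1 : ∀ n, R (n + 1) = R n ∪ Finset.univ.filter (fun b => ∃ a ∈ R n, step a b) :=
    fun n => rfl
  have hk : ∀ n, k ∈ R n := by
    intro n
    induction n with
    | zero => rw [hR0]; simp
    | succ n ih => rw [hR1]; exact Finset.mem_union_left _ ih
  have hclose : ∀ n, ∀ h ∈ R n, |m h - m k| ≤ n * δ := by
    intro n
    induction n with
    | zero =>
      intro h hh
      rw [hR0, Finset.mem_singleton] at hh
      rw [hh]; simp
    | succ n ih =>
      intro h hh
      rw [hR1, Finset.mem_union] at hh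
      rcases hh with hh | hh
      · have := ih h hh
        push_cast
        linarith
      · rw [Finset.mem_filter] at hh
        obtain ⟨-, a, ha, hab⟩ := hh
        have h1 := ih a ha
        have h2 := hm a h hab
        have h3 := abs_add_le (m h - m a) (m a - m k)
        have h4 : m h - m a + (m a - m k) = m h - m k := by ring
        rw [h4] at h3
        push_cast
        linarith
  have hgrow : ∀ n, n + 1 ≤ (R n).card ∨ (∀ a ∈ R n, ∀ b : H, step a b → b ∈ R n) := by
    intro n
    induction n with
    | zero => left; rw [hR0]; simp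
    | succ n ih =>
      rcases Classical.em (∀ a ∈ R n, ∀ b : H, step a b → b ∈ R n) with hc | hc
      · right
        have he : R (n + 1) = R n := by
          rw [hR1]
          apply Finset.union_eq_left.2
          intro b hb
          rw [Finset.mem_filter] at hb
          obtain ⟨-, a, ha, hab⟩ := hb
          exact hc a ha b hab
        rw [he]; exact hc
      · left
        have h1 : n + 1 ≤ (R n).card := by
          rcases ih with h | h
          · exact h
          · exact absurd h hc
        have hc' := hc
        push Not at hc'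
        obtain ⟨a, ha, b, hab, hb⟩ := hc'
        have h2 : R n ⊂ R (n + 1) := by
          rw [Finset.ssubset_iff_of_subset (by rw [hR1]; exact Finset.subset_union_left)]
          refine ⟨b, ?_, hb⟩
          rw [hR1]
          refine Finset.mem_union_right _ ?_
          rw [Finset.mem_filter]
          exact ⟨Finset.mem_univ _, a, ha, hab⟩
        have h3 := Finset.card_lt_card h2
        omega
  refine ⟨R (Fintype.card H), hk _, ?_, fun h hh => by
    have := hclose _ h hh
    exact this⟩
  rcases hgrow (Fintype.card H) with h | h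
  · have := Finset.card_le_univ (R (Fintype.card H))
    omega
  · exact h

theorem orbit_avg [Fintype H] (σ : Equiv.Perm H) : ∃ r : H → H, (∀ h, r (σ h) = r h) ∧
    ∀ (m : H → ℝ) (δ : ℝ), 0 ≤ δ → (∀ h, |m (σ h) - m h| ≤ δ) →
      ∀ h, |m (r h) - m h| ≤ Fintype.card H * δ := by
  classical
  let Q := Quotient (Equiv.Perm.SameCycle.setoid σ)
  refine ⟨fun h => Quotient.out (Quotient.mk (Equiv.Perm.SameCycle.setoid σ) h), ?_, ?_⟩
  · intro h
    have : Quotient.mk (Equiv.Perm.SameCycle.setoid σ) (σ h) =
        Quotient.mk (Equiv.Perm.SameCycle.setoid σ) h := by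
      apply Quotient.sound
      change σ.SameCycle (σ h) h
      exact (Equiv.Perm.sameCycle_apply_left).2 (Equiv.Perm.SameCycle.refl _ _)
    simp only
    rw [this]
  · intro m δ hδ hm h
    simp only
    set r : H := Quotient.out (Quotient.mk (Equiv.Perm.SameCycle.setoid σ) h) with hr
    have h1 : σ.SameCycle r h := by
      have := Quotient.exact (Quotient.out_eq (Quotient.mk (Equiv.Perm.SameCycle.setoid σ) h))
      exact this
    obtain ⟨i, -, hi⟩ := h1.exists_pow_eq'
    obtain ⟨R, hR1, hR2, hR3⟩ := reach71 (fun a b => b = σ a) m δ hδ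
      (fun a b hab => by rw [hab]; exact hm a) r
    have h2 : ∀ j : ℕ, (σ ^ j) r ∈ R := by
      intro j
      induction j with
      | zero => simpa using hR1
      | succ j ih =>
        rw [pow_succ', Equiv.Perm.mul_apply]
        exact hR2 _ ih _ rfl
    have h3 := hR3 _ (h2 i)
    rw [hi] at h3
    rw [abs_sub_comm]
    exact h3

theorem conn_close [Fintype H] (T : Tri H) (hT : T.Conn) (m : H → ℝ) (δ : ℝ) (hδ : 0 ≤ δ)
    (h1 : ∀ h, |m (T.next h) - m h| ≤ δ) (h2 : ∀ h, |m (T.opp h) - m h| ≤ δ) (h k : H) :
    |m h - m k| ≤ 2 * (Fintype.card H * δ) := by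
  obtain ⟨R, hR1, hR2, hR3⟩ := reach71 (fun a b => b = T.next a ∨ b = T.opp a) m δ hδ
    (fun a b hab => by
      rcases hab with rfl | rfl
      · exact h1 a
      · exact h2 a) k
  have h3 : (R : Set H) = Set.univ :=
    hT _ ⟨k, hR1⟩ (fun a ha => ⟨hR2 a ha _ (Or.inl rfl), hR2 a ha _ (Or.inr rfl)⟩)
  have h4 : h ∈ (R : Set H) := by rw [h3]; trivial
  have h5 := hR3 h h4
  have h6 : 0 ≤ Fintype.card H * δ := by positivity
  linarith

end Pool.Agent.Helper21.H3
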