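import Pool.Agent.Helper21.H3.Defs

/-!
# MP_e98778_an (full), H3, block COR: corner families, near minimisers are nearly harmonic

BLOCK TF-H3-COR.

`fn_sumC`: `rot` holds for all `z` (the three summands are permuted, `closed`, `next3`). `edge` for the dart
`h` at `z = t vec h`: the summand of `opp h` at `(t-1) vec h` is the summand of `next h` (field `edge` of
`Corner` for the dart `opp h` with `1 - t`; `sg (opp h) = next h`); the summand of `next (opp h) = sg h` at
`t vec h` is that of `h` (field `edge`); the summands of `next (next h)` and `next (next (opp h))`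
vanish (field `zero`: the opposite edge of the dart `next (next h)` is the edge of `h`).
Lipschitz: translations map `Cl T h` onto `Cl T (next h)`.

`lip_et`: everything is bounded and measurable, so integrable on `Op T h` (`Op T h` is open and
bounded). `et_next`, `pot_next`: algebra (`omega T x (next h) = omega T x h` for cocycles,
`dot (omega T x h) (vec h) = x h`), and on the open triangle `f (next h) (· - vec h) = f h` near `z`.
`sum_next`: translation invariance and the bijection `next`.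

`nh_of_near`: for a corner family `g` let `G = sumC T g`, an `Fn`. For every real `s`:
`hn2 ≤ en T x (f + s G) = en T x f + 2 s P + s² N`, `P = (1/3) ∑ ∫ dot (et) (grad G)`,
`N = (1/3) ∑ ∫ ‖grad G‖²`; so `P² ≤ ε N`. By `sum_next`, `P = ∑ ∫ dot (et h) (grad (g h))` and
`N ≤ 3 ∑ ∫ ‖grad (g h)‖²`.
`meanC`: the same with the constant forms: `0 = ∑ ∫ grad (sumC T g h) = 3 ∑ ∫ grad (g h)`.
-/

set_option autoImplicit false

open MeasureTheory Set Pool.Agent.Helper87.LS Pool.Agent.Helper79.G Pool.Agent.Helper72.TF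

namespace Pool.Agent.Helper21.H3

variable {H : Type}

/-! ### Auxiliary lemmas -/

namespace CF56

theorem vec_nn (T : Tri H) (h : H) :
    T.vec (T.next (T.next h)) = -T.vec h - T.vec (T.next h) := by
  linear_combination T.closed h

theorem a0_next (T : Tri H) (h : H) (z : ℂ) : T.a0 (T.next h) (z - T.vec h) = T.a1 h z := rfl

theorem a1_next (T : Tri H) (h : H) (z : ℂ) : T.a1 (T.next h) (z - T.vec h) = T.a2 h z := by
  simp only [Tri.a1, Tri.a2, Tri.prev, vec_nn T h]
  simp only [cr, Complex.sub_re, Complex.sub_im, Complex.neg_re, Complex.neg_im]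
  ring

theorem a2_next (T : Tri H) (h : H) (z : ℂ) : T.a2 (T.next h) (z - T.vec h) = T.a0 h z := by
  simp only [Tri.a2, Tri.a0, Tri.prev, T.next3 h]
  simp only [cr, Complex.sub_re, Complex.sub_im]
  ring

theorem ar_next (T : Tri H) (h : H) : ar T (T.next h) = ar T h := by
  simp only [ar, vec_nn T h]
  simp only [cr, Complex.sub_re, Complex.sub_im, Complex.neg_re, Complex.neg_im]
  ring

theorem ar_pos (T : Tri H) (h : H) : 0 < ar T h := T.pos h

theorem sum_a (T : Tri H) (h : H) (z : ℂ) : T.a0 h z + T.a1 h z + T.a2 h z = ar T h := by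
  simp only [Tri.a0, Tri.a1, Tri.a2, Tri.prev, ar, vec_nn T h]
  simp only [cr, Complex.sub_re, Complex.sub_im, Complex.neg_re, Complex.neg_im]
  ring

theorem cont_a0 (T : Tri H) (h : H) : Continuous (T.a0 h) := by
  unfold Tri.a0 cr; fun_prop

theorem cont_a1 (T : Tri H) (h : H) : Continuous (T.a1 h) := by
  unfold Tri.a1 cr; fun_prop

theorem cont_a2 (T : Tri H) (h : H) : Continuous (T.a2 h) := by
  unfold Tri.a2 cr; fun_prop

end CF56

open CF56

theorem isOpen_Op (T : Tri H) (h : H) : IsOpen (Op T h) := by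
  have h1 : Op T h = {z | 0 < T.a0 h z} ∩ ({z | 0 < T.a1 h z} ∩ {z | 0 < T.a2 h z}) := rfl
  rw [h1]
  exact (isOpen_lt continuous_const (cont_a0 T h)).inter
    ((isOpen_lt continuous_const (cont_a1 T h)).inter
      (isOpen_lt continuous_const (cont_a2 T h)))

theorem isClosed_Cl (T : Tri H) (h : H) : IsClosed (Cl T h) := by
  have h1 : Cl T h = {z | 0 ≤ T.a0 h z} ∩ ({z | 0 ≤ T.a1 h z} ∩ {z | 0 ≤ T.a2 h z}) := rfl
  rw [h1]
  exact (isClosed_le continuous_const (cont_a0 T h)).inter
    ((isClosed_le continuous_const (cont_a1 T h)).inter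
      (isClosed_le continuous_const (cont_a2 T h)))

theorem Op_sub_Cl (T : Tri H) (h : H) : Op T h ⊆ Cl T h :=
  fun _ hz => ⟨hz.1.le, hz.2.1.le, hz.2.2.le⟩

theorem isBounded_Cl (T : Tri H) (h : H) : Bornology.IsBounded (Cl T h) := by
  refine (Metric.isBounded_closedBall (x := (0 : ℂ))
    (r := ‖T.vec h‖ + ‖T.vec (T.prev h)‖)).subset ?_
  rintro z ⟨h0, h1, h2⟩
  rw [mem_closedBall_zero_iff]
  have hp := ar_pos T h
  have hs := sum_a T h z
  have e1 : (ar T h : ℂ) * z =
      (T.a2 h z : ℂ) * T.vec h - (T.a0 h z : ℂ) * T.vec (T.prev h) := by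
    simp only [Tri.a0, Tri.a2, Tri.prev, ar, vec_nn T h]
    apply Complex.ext
    · simp only [cr, Complex.sub_re, Complex.sub_im, Complex.neg_re, Complex.neg_im,
        Complex.re_ofReal_mul]
      ring
    · simp only [cr, Complex.sub_re, Complex.sub_im, Complex.neg_re, Complex.neg_im,
        Complex.im_ofReal_mul]
      ring
  have e2 : ar T h * ‖z‖ ≤ T.a2 h z * ‖T.vec h‖ + T.a0 h z * ‖T.vec (T.prev h)‖ := by
    have e3 : ‖(ar T h : ℂ) * z‖ = ar T h * ‖z‖ := by
      rw [norm_mul, Complex.norm_real, Real.norm_eq_abs, abs_of_pos hp]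
    have e4 : ‖(T.a2 h z : ℂ) * T.vec h‖ = T.a2 h z * ‖T.vec h‖ := by
      rw [norm_mul, Complex.norm_real, Real.norm_eq_abs, abs_of_nonneg h2]
    have e5 : ‖(T.a0 h z : ℂ) * T.vec (T.prev h)‖ = T.a0 h z * ‖T.vec (T.prev h)‖ := by
      rw [norm_mul, Complex.norm_real, Real.norm_eq_abs, abs_of_nonneg h0]
    rw [← e3, e1, ← e4, ← e5]
    exact norm_sub_le _ _
  have e6 : T.a2 h z * ‖T.vec h‖ ≤ ar T h * ‖T.vec h‖ :=
    mul_le_mul_of_nonneg_right (by linarith) (norm_nonneg _)
  have e7 : T.a0 h z * ‖T.vec (T.prev h)‖ ≤ ar T h * ‖T.vec (T.prev h)‖ :=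
    mul_le_mul_of_nonneg_right (by linarith) (norm_nonneg _)
  have e8 : ar T h * ‖z‖ ≤ ar T h * (‖T.vec h‖ + ‖T.vec (T.prev h)‖) := by
    rw [mul_add]; linarith
  exact le_of_mul_le_mul_left e8 hp

theorem mem_Cl_next (T : Tri H) (h : H) (z : ℂ) :
    z - T.vec h ∈ Cl T (T.next h) ↔ z ∈ Cl T h := by
  change (0 ≤ T.a0 (T.next h) (z - T.vec h) ∧ 0 ≤ T.a1 (T.next h) (z - T.vec h) ∧
    0 ≤ T.a2 (T.next h) (z - T.vec h)) ↔ (0 ≤ T.a0 h z ∧ 0 ≤ T.a1 h z ∧ 0 ≤ T.a2 h z)
  rw [a0_next, a1_next, a2_next]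
  tauto

theorem mem_Op_next (T : Tri H) (h : H) (z : ℂ) :
    z - T.vec h ∈ Op T (T.next h) ↔ z ∈ Op T h := by
  change (0 < T.a0 (T.next h) (z - T.vec h) ∧ 0 < T.a1 (T.next h) (z - T.vec h) ∧
    0 < T.a2 (T.next h) (z - T.vec h)) ↔ (0 < T.a0 h z ∧ 0 < T.a1 h z ∧ 0 < T.a2 h z)
  rw [a0_next, a1_next, a2_next]
  tauto

theorem omega_next (T : Tri H) {x : H → ℝ} (hx : x ∈ Coch T) (h : H) :
    omega T x (T.next h) = omega T x h := by
  have h1 : x (T.next (T.next h)) = -x h - x (T.next h) := by linarith [hx.2 h]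
  unfold omega
  rw [ar_next, h1, vec_nn T h]
  push_cast
  congr 1
  ring

namespace CF56

theorem dot_div (z w : ℂ) (a : ℝ) : dot (z / (a : ℂ)) w = dot z w / a := by
  have h1 : z / (a : ℂ) = ((a⁻¹ : ℝ) : ℂ) * z := by push_cast; rw [div_eq_inv_mul]
  rw [h1]
  simp only [dot, Complex.re_ofReal_mul, Complex.im_ofReal_mul]
  ring

theorem dot_add_right (z w w' : ℂ) : dot z (w + w') = dot z w + dot z w' := by
  simp only [dot, Complex.add_re, Complex.add_im]; ring

theorem dot_sub_right (z w w' : ℂ) : dot z (w - w') = dot z w - dot z w' := by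
  simp only [dot, Complex.sub_re, Complex.sub_im]; ring

theorem dot_neg_right (z w : ℂ) : dot z (-w) = -dot z w := by
  simp only [dot, Complex.neg_re, Complex.neg_im]; ring

theorem dot_mul_right (z w : ℂ) (t : ℝ) : dot z ((t : ℂ) * w) = t * dot z w := by
  simp only [dot, Complex.re_ofReal_mul, Complex.im_ofReal_mul]; ring

end CF56

theorem dot_omega (T : Tri H) (x : H → ℝ) (h : H) : dot (omega T x h) (T.vec h) = x h := by
  have hp := (ar_pos T h).ne'
  unfold omega
  rw [dot_div, div_eq_iff hp]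
  simp only [dot, ar, cr, Complex.sub_re, Complex.sub_im, Complex.re_ofReal_mul,
    Complex.im_ofReal_mul, Complex.I_mul_re, Complex.I_mul_im]
  ring

theorem dot_omega_next (T : Tri H) (x : H → ℝ) (h : H) :
    dot (omega T x h) (T.vec (T.next h)) = x (T.next h) := by
  have hp := (ar_pos T h).ne'
  unfold omega
  rw [dot_div, div_eq_iff hp]
  simp only [dot, ar, cr, Complex.sub_re, Complex.sub_im, Complex.re_ofReal_mul,
    Complex.im_ofReal_mul, Complex.I_mul_re, Complex.I_mul_im]
  ring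

namespace CF56

theorem mem_Cl_edge (T : Tri H) (h : H) {t : ℝ} (ht : t ∈ Icc (0 : ℝ) 1) :
    (t : ℂ) * T.vec h ∈ Cl T h := by
  have hp := ar_pos T h
  have e0 : T.a0 h ((t : ℂ) * T.vec h) = 0 := by
    simp only [Tri.a0, cr, Complex.re_ofReal_mul, Complex.im_ofReal_mul]; ring
  have e2 : T.a2 h ((t : ℂ) * T.vec h) = t * ar T h := by
    simp only [Tri.a2, Tri.prev, ar, vec_nn T h]
    simp only [cr, Complex.sub_re, Complex.sub_im, Complex.neg_re, Complex.neg_im,
      Complex.re_ofReal_mul, Complex.im_ofReal_mul]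
    ring
  have e1 : T.a1 h ((t : ℂ) * T.vec h) = (1 - t) * ar T h := by
    have := sum_a T h ((t : ℂ) * T.vec h)
    rw [e0, e2] at this
    linarith
  refine ⟨e0.ge, ?_, ?_⟩
  · rw [e1]; exact mul_nonneg (by linarith [ht.2]) hp.le
  · rw [e2]; exact mul_nonneg ht.1 hp.le

theorem mem_Cl_opp (T : Tri H) (h : H) {t : ℝ} (ht : t ∈ Icc (0 : ℝ) 1) :
    (t : ℂ) * T.vec h - T.vec h ∈ Cl T (T.opp h) := by
  have h1 : (t : ℂ) * T.vec h - T.vec h = ((1 - t : ℝ) : ℂ) * T.vec (T.opp h) := by
    rw [T.vec_opp]; push_cast; ring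
  rw [h1]
  exact mem_Cl_edge T (T.opp h) ⟨by linarith [ht.2], by linarith [ht.1]⟩

end CF56

/-- The potential along the edge `h`, seen from both sides. -/
theorem pot_sg (T : Tri H) {x : H → ℝ} (hx : x ∈ Coch T) {f : H → ℂ → ℝ} (hf : Fn T f) (h : H)
    {t : ℝ} (ht : t ∈ Icc (0 : ℝ) 1) :
    pot T x f (sg T h) (t * T.vec h) = pot T x f h (t * T.vec h) := by
  have h1 := hf.rot (T.opp h) _ (mem_Cl_opp T h ht)
  rw [hf.edge h t ht, T.vec_opp] at h1
  have h2 : (t : ℂ) * T.vec h - T.vec h - -T.vec h = (t : ℂ) * T.vec h := by ring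
  rw [h2] at h1
  unfold pot sg
  rw [h1, omega_next T hx (T.opp h), dot_mul_right, dot_mul_right, dot_omega T x h]
  have h3 : dot (omega T x (T.opp h)) (T.vec h) = x h := by
    have h4 := dot_omega T x (T.opp h)
    rw [T.vec_opp, dot_neg_right, hx.1 h] at h4
    linarith
  rw [h3]

theorem pot_next (T : Tri H) {x : H → ℝ} (hx : x ∈ Coch T) {f : H → ℂ → ℝ} (hf : Fn T f) (h : H)
    {z : ℂ} (hz : z ∈ Cl T h) :
    pot T x f (T.next h) (z - T.vec h) = pot T x f h z - x h := by
  unfold pot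
  rw [hf.rot h z hz, omega_next T hx h, dot_sub_right, dot_omega T x h]
  ring

theorem et_next (T : Tri H) {x : H → ℝ} (hx : x ∈ Coch T) {f : H → ℂ → ℝ} (hf : Fn T f) (h : H)
    {z : ℂ} (hz : z ∈ Op T h) :
    et T x f (T.next h) (z - T.vec h) = et T x f h z := by
  unfold et
  rw [omega_next T hx h]
  congr 1
  have h1 : (fun w => f (T.next h) (w - T.vec h)) =ᶠ[nhds z] f h := by
    filter_upwards [(isOpen_Op T h).mem_nhds hz] with w hw
    exact hf.rot h w (Op_sub_Cl T h hw)
  have h2 := h1.fderiv_eq (𝕜 := ℝ)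
  rw [fderiv_comp_sub] at h2
  unfold grad
  rw [h2]

/-- Functions which are Lipschitz on the closed triangle have bounded measurable gradient. -/
theorem grad_bound {T : Tri H} {h : H} {u : ℂ → ℝ} {C : NNReal}
    (hu : LipschitzOnWith C u (Cl T h)) {z : ℂ} (hz : z ∈ Op T h) : ‖grad u z‖ ≤ 2 * C := by
  have h1 : Cl T h ∈ nhds z := Filter.mem_of_superset ((isOpen_Op T h).mem_nhds hz) (Op_sub_Cl T h)
  have h2 := norm_fderiv_le_of_lipschitzOn ℝ h1 hu
  have h3 : |(grad u z).re| ≤ C := by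
    have h4 := (fderiv ℝ u z).le_opNorm 1
    rw [norm_one, mul_one] at h4
    exact h4.trans h2
  have h5 : |(grad u z).im| ≤ C := by
    have h4 := (fderiv ℝ u z).le_opNorm Complex.I
    rw [Complex.norm_I, mul_one] at h4
    exact h4.trans h2
  have h6 := Complex.norm_le_abs_re_add_abs_im (grad u z)
  linarith

theorem measurable_grad (u : ℂ → ℝ) : Measurable (grad u) := by
  have h1 : grad u = fun z => ((fderiv ℝ u z 1 : ℝ) : ℂ) + ((fderiv ℝ u z Complex.I : ℝ) : ℂ) *
      Complex.I := by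
    funext z
    apply Complex.ext
    · simp [grad]
    · simp [grad]
  rw [h1]
  exact (Complex.measurable_ofReal.comp (measurable_fderiv_apply_const ℝ u 1)).add
    ((Complex.measurable_ofReal.comp (measurable_fderiv_apply_const ℝ u Complex.I)).mul_const _)

namespace CF56

theorem meas_Op (T : Tri H) (h : H) : MeasurableSet (Op T h) := (isOpen_Op T h).measurableSet

theorem vol_Op (T : Tri H) (h : H) : volume (Op T h) ≠ ⊤ :=
  ((isBounded_Cl T h).subset (Op_sub_Cl T h)).measure_lt_top.ne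

theorem int_bdd {E : Type} [NormedAddCommGroup E] {T : Tri H} {h : H} {F : ℂ → E} {C : ℝ}
    (hm : AEStronglyMeasurable F volume) (hb : ∀ z ∈ Op T h, ‖F z‖ ≤ C) :
    IntegrableOn F (Op T h) := by
  refine Measure.integrableOn_of_bounded (M := C) (vol_Op T h) hm ?_
  filter_upwards [ae_restrict_mem (meas_Op T h)] with z hz
  exact hb z hz

theorem int_add3 {E : Type} [NormedAddCommGroup E] [NormedSpace ℝ E] {μ : Measure ℂ}
    {a b c : ℂ → E} (ha : Integrable a μ) (hb : Integrable b μ) (hc : Integrable c μ) :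
    (∫ z, a z ∂μ) + (∫ z, b z ∂μ) + ∫ z, c z ∂μ = ∫ z, (a z + b z + c z) ∂μ := by
  have h1 : Integrable (fun z => a z + b z) μ := ha.add hb
  rw [← integral_add ha hb, ← integral_add h1 hc]

theorem int_shift {E : Type} [NormedAddCommGroup E] [NormedSpace ℝ E] (T : Tri H) (h : H)
    (F : ℂ → E) :
    ∫ z in Op T h, F (z - T.vec h) = ∫ z in Op T (T.next h), F z := by
  rw [← integral_indicator (meas_Op T h), ← integral_indicator (meas_Op T (T.next h)),
    ← integral_sub_right_eq_self ((Op T (T.next h)).indicator F) (T.vec h)]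
  congr 1
  funext z
  by_cases hz : z ∈ Op T h
  · rw [indicator_of_mem hz, indicator_of_mem ((mem_Op_next T h z).2 hz)]
  · rw [indicator_of_notMem hz, indicator_of_notMem (fun hh => hz ((mem_Op_next T h z).1 hh))]

theorem sum_nextE [Fintype H] {E : Type} [NormedAddCommGroup E] [NormedSpace ℝ E] (T : Tri H)
    (Φ : H → ℂ → E) :
    ∑ h, ∫ z in Op T h, Φ (T.next h) (z - T.vec h) = ∑ h, ∫ z in Op T h, Φ h z := by
  have h1 : ∀ h, ∫ z in Op T h, Φ (T.next h) (z - T.vec h) =
      ∫ z in Op T (T.next h), Φ (T.next h) z := fun h => int_shift T h (Φ (T.next h))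
  simp only [h1]
  exact Equiv.sum_comp T.next (fun h => ∫ z in Op T h, Φ h z)

theorem sum_next2E [Fintype H] {E : Type} [NormedAddCommGroup E] [NormedSpace ℝ E] (T : Tri H)
    (Φ : H → ℂ → E) :
    ∑ h, ∫ z in Op T h, Φ (T.next (T.next h)) (z - T.vec h - T.vec (T.next h)) =
      ∑ h, ∫ z in Op T h, Φ h z := by
  have h1 := sum_nextE T (fun h z => Φ (T.next h) (z - T.vec h))
  rw [h1]
  exact sum_nextE T Φ

end CF56

/-- Summation over the three darts of a triangle. -/
theorem sum_next [Fintype H] (T : Tri H) (Φ : H → ℂ → ℝ) :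
    ∑ h, ∫ z in Op T h, Φ (T.next h) (z - T.vec h) = ∑ h, ∫ z in Op T h, Φ h z :=
  sum_nextE T Φ

theorem sum_next2 [Fintype H] (T : Tri H) (Φ : H → ℂ → ℝ) :
    ∑ h, ∫ z in Op T h, Φ (T.next (T.next h)) (z - T.vec h - T.vec (T.next h)) =
      ∑ h, ∫ z in Op T h, Φ h z :=
  sum_next2E T Φ

namespace CF56

theorem lip_shift {T : Tri H} {h : H} {u : ℂ → ℝ} {C : NNReal}
    (hu : LipschitzOnWith C u (Cl T (T.next h))) :
    LipschitzOnWith C (fun z => u (z - T.vec h)) (Cl T h) := by
  intro z hz w hw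
  have h1 := hu ((mem_Cl_next T h z).2 hz) ((mem_Cl_next T h w).2 hw)
  rwa [edist_sub_right] at h1

theorem mem_Cl_nn (T : Tri H) (h : H) {z : ℂ} (hz : z ∈ Cl T h) :
    z - T.vec h - T.vec (T.next h) ∈ Cl T (T.next (T.next h)) :=
  (mem_Cl_next T (T.next h) _).2 ((mem_Cl_next T h z).2 hz)

theorem mem_Op_nn (T : Tri H) (h : H) {z : ℂ} (hz : z ∈ Op T h) :
    z - T.vec h - T.vec (T.next h) ∈ Op T (T.next (T.next h)) :=
  (mem_Op_next T (T.next h) _).2 ((mem_Op_next T h z).2 hz)

theorem lip_three {T : Tri H} {g : H → ℂ → ℝ} {C : NNReal}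
    (hC : ∀ h, LipschitzOnWith C (g h) (Cl T h)) (h : H) :
    LipschitzOnWith C (g h) (Cl T h) ∧
      LipschitzOnWith C (fun z => g (T.next h) (z - T.vec h)) (Cl T h) ∧
      LipschitzOnWith C (fun z => g (T.next (T.next h)) (z - T.vec h - T.vec (T.next h)))
        (Cl T h) :=
  ⟨hC h, lip_shift (hC (T.next h)),
    lip_shift (u := fun z => g (T.next (T.next h)) (z - T.vec (T.next h)))
      (lip_shift (hC (T.next (T.next h))))⟩

end CF56

theorem fn_sumC (T : Tri H) [Finite H] {g : H → ℂ → ℝ} (hg : Corner T g) : Fn T (sumC T g) := by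
  refine ⟨?_, ?_, ?_⟩
  · obtain ⟨C, hC⟩ := hg.lip
    refine ⟨C + C + C, fun h => ?_⟩
    obtain ⟨h1, h2, h3⟩ := lip_three hC h
    exact (h1.add h2).add h3
  · intro h z _
    unfold sumC
    have h1 : z - T.vec h - T.vec (T.next h) - T.vec (T.next (T.next h)) = z := by
      linear_combination -T.closed h
    rw [T.next3 h, h1]
    ring
  · intro h t ht
    have hz := mem_Cl_edge T h ht
    have hz' := mem_Cl_opp T h ht
    unfold sumC
    -- first summand
    have e1 : g (T.opp h) ((t : ℂ) * T.vec h - T.vec h) =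
        g (T.next h) ((t : ℂ) * T.vec h - T.vec h) := by
      have h1 := hg.edge (T.opp h) (1 - t) ⟨by linarith [ht.2], by linarith [ht.1]⟩
      unfold sg at h1
      rw [T.opp2, T.vec_opp] at h1
      have h2 : ((1 - t : ℝ) : ℂ) * -T.vec h = (t : ℂ) * T.vec h - T.vec h := by
        push_cast; ring
      rw [h2] at h1
      exact h1.symm
    have e2 : g (T.next (T.opp h)) ((t : ℂ) * T.vec h - T.vec h - T.vec (T.opp h)) =
        g h ((t : ℂ) * T.vec h) := by
      have h1 := hg.edge h t ht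
      unfold sg at h1
      have h2 : (t : ℂ) * T.vec h - T.vec h - T.vec (T.opp h) = (t : ℂ) * T.vec h := by
        rw [T.vec_opp]; ring
      rw [h2, h1]
    have key : ∀ (k : H) (w : ℂ), w ∈ Cl T k → T.a0 k w = 0 →
        g (T.next (T.next k)) (w - T.vec k - T.vec (T.next k)) = 0 := by
      intro k w hw h0
      refine hg.zero _ _ (mem_Cl_nn T k hw) ?_
      have h1 := a1_next T (T.next k) (w - T.vec k)
      rw [h1, a2_next T k w, h0]
    have a0z : ∀ (k : H) (s : ℝ), T.a0 k ((s : ℂ) * T.vec k) = 0 := by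
      intro k s
      simp only [Tri.a0, cr, Complex.re_ofReal_mul, Complex.im_ofReal_mul]; ring
    have e3 := key h _ hz (a0z h t)
    have e4 : g (T.next (T.next (T.opp h)))
        ((t : ℂ) * T.vec h - T.vec h - T.vec (T.opp h) - T.vec (T.next (T.opp h))) = 0 := by
      refine key (T.opp h) _ hz' ?_
      have h2 : (t : ℂ) * T.vec h - T.vec h = ((1 - t : ℝ) : ℂ) * T.vec (T.opp h) := by
        rw [T.vec_opp]; push_cast; ring
      rw [h2]
      exact a0z _ _
    rw [e1, e2, e3, e4]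
    ring

namespace CF56

theorem ae_diff {T : Tri H} {h : H} {u : ℂ → ℝ} {C : NNReal}
    (hu : LipschitzOnWith C u (Cl T h)) :
    ∀ᵐ z ∂(volume.restrict (Op T h)), DifferentiableAt ℝ u z := by
  have h1 := (hu.mono (Op_sub_Cl T h)).ae_differentiableWithinAt (μ := volume) (meas_Op T h)
  filter_upwards [h1, ae_restrict_mem (meas_Op T h)] with z hz hz'
  exact hz.differentiableAt ((isOpen_Op T h).mem_nhds hz')

theorem grad_add {u v : ℂ → ℝ} {z : ℂ} (hu : DifferentiableAt ℝ u z)
    (hv : DifferentiableAt ℝ v z) : grad (fun w => u w + v w) z = grad u z + grad v z := by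
  have h1 : fderiv ℝ (fun w => u w + v w) z = fderiv ℝ u z + fderiv ℝ v z :=
    (hu.hasFDerivAt.add hv.hasFDerivAt).fderiv
  unfold grad
  rw [h1]
  apply Complex.ext <;> simp

theorem grad_mul {u : ℂ → ℝ} {z : ℂ} (s : ℝ) (hu : DifferentiableAt ℝ u z) :
    grad (fun w => s * u w) z = (s : ℂ) * grad u z := by
  have h1 : fderiv ℝ (fun w => s * u w) z = s • fderiv ℝ u z :=
    (hu.hasFDerivAt.const_mul s).fderiv
  unfold grad
  rw [h1]
  apply Complex.ext <;> simp

theorem grad_shift (u : ℂ → ℝ) (a z : ℂ) : grad (fun w => u (w - a)) z = grad u (z - a) := by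
  unfold grad
  rw [fderiv_comp_sub]

/-- The gradient of the sum of a corner family. -/
noncomputable def Wg (T : Tri H) (g : H → ℂ → ℝ) (h : H) (z : ℂ) : ℂ :=
  grad (g h) z + grad (g (T.next h)) (z - T.vec h) +
    grad (g (T.next (T.next h))) (z - T.vec h - T.vec (T.next h))

theorem grad_sumC_ae {T : Tri H} {g : H → ℂ → ℝ} (hg : Corner T g) (h : H) :
    ∀ᵐ z ∂(volume.restrict (Op T h)), grad (sumC T g h) z = Wg T g h z := by
  obtain ⟨C, hC⟩ := hg.lip
  obtain ⟨h1, h2, h3⟩ := lip_three hC h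
  filter_upwards [ae_diff h1, ae_diff h2, ae_diff h3] with z d1 d2 d3
  have e1 : sumC T g h = fun w => (g h w + g (T.next h) (w - T.vec h)) +
      g (T.next (T.next h)) (w - T.vec h - T.vec (T.next h)) := rfl
  have d12 : DifferentiableAt ℝ (fun w => g h w + g (T.next h) (w - T.vec h)) z := d1.add d2
  rw [e1, grad_add d12 d3, grad_add d1 d2]
  have e2 := grad_shift (g (T.next h)) (T.vec h) z
  have e3 := grad_shift (fun w => g (T.next (T.next h)) (w - T.vec (T.next h))) (T.vec h) z
  have e4 := grad_shift (g (T.next (T.next h))) (T.vec (T.next h)) (z - T.vec h)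
  rw [e2, e3, e4]
  rfl

theorem meas_Wg (T : Tri H) (g : H → ℂ → ℝ) (h : H) : Measurable (Wg T g h) := by
  unfold Wg
  have m1 := measurable_grad (g h)
  have m2 := (measurable_grad (g (T.next h))).comp (measurable_id.sub_const (T.vec h))
  have m3 := (measurable_grad (g (T.next (T.next h)))).comp
    ((measurable_id.sub_const (T.vec h)).sub_const (T.vec (T.next h)))
  exact (m1.add m2).add m3

theorem meas_et (T : Tri H) (x : H → ℝ) (f : H → ℂ → ℝ) (h : H) : Measurable (et T x f h) := by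
  unfold et
  exact measurable_const.add (measurable_grad (f h))

theorem meas_dot {u v : ℂ → ℂ} (hu : Measurable u) (hv : Measurable v) :
    Measurable fun z => dot (u z) (v z) := by
  unfold dot
  exact ((Complex.measurable_re.comp hu).mul (Complex.measurable_re.comp hv)).add
    ((Complex.measurable_im.comp hu).mul (Complex.measurable_im.comp hv))

theorem abs_dot_le (z w : ℂ) : |dot z w| ≤ ‖z‖ * ‖w‖ := by
  have h1 : dot z w = ((starRingEnd ℂ) z * w).re := by
    simp only [dot, Complex.mul_re, Complex.conj_re, Complex.conj_im]; ring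
  rw [h1]
  calc |((starRingEnd ℂ) z * w).re| ≤ ‖(starRingEnd ℂ) z * w‖ := Complex.abs_re_le_norm _
    _ = ‖z‖ * ‖w‖ := by rw [norm_mul, Complex.norm_conj]

theorem norm_sq_dot (z : ℂ) : ‖z‖ ^ 2 = dot z z := by
  rw [Complex.sq_norm, Complex.normSq_apply]
  rfl

theorem norm_add_mul_sq (a b : ℂ) (s : ℝ) :
    ‖a + (s : ℂ) * b‖ ^ 2 = ‖a‖ ^ 2 + 2 * s * dot a b + s ^ 2 * ‖b‖ ^ 2 := by
  simp only [norm_sq_dot, dot, Complex.add_re, Complex.add_im, Complex.re_ofReal_mul,
    Complex.im_ofReal_mul]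
  ring

theorem norm_three_sq (a b c : ℂ) :
    ‖a + b + c‖ ^ 2 ≤ 3 * (‖a‖ ^ 2 + ‖b‖ ^ 2 + ‖c‖ ^ 2) := by
  simp only [norm_sq_dot, dot, Complex.add_re, Complex.add_im]
  nlinarith [sq_nonneg (a.re - b.re), sq_nonneg (a.re - c.re), sq_nonneg (b.re - c.re),
    sq_nonneg (a.im - b.im), sq_nonneg (a.im - c.im), sq_nonneg (b.im - c.im)]

/-- `Fn` is stable under adding multiples. -/
theorem fn_add_mul {T : Tri H} {f F : H → ℂ → ℝ} (hf : Fn T f) (hF : Fn T F) (s : ℝ) :
    Fn T (fun h z => f h z + s * F h z) := by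
  refine ⟨?_, ?_, ?_⟩
  · obtain ⟨C, hC⟩ := hf.lip
    obtain ⟨D, hD⟩ := hF.lip
    refine ⟨C + ‖s‖₊ * D, fun h => ?_⟩
    refine (hC h).add ?_
    rw [lipschitzOnWith_iff_dist_le_mul]
    intro z hz w hw
    have h1 := (lipschitzOnWith_iff_dist_le_mul.1 (hD h)) z hz w hw
    have h2 : dist (s * F h z) (s * F h w) = |s| * dist (F h z) (F h w) := by
      rw [Real.dist_eq, Real.dist_eq, ← mul_sub, abs_mul]
    rw [h2]
    push_cast
    rw [Real.norm_eq_abs, mul_assoc]
    exact mul_le_mul_of_nonneg_left h1 (abs_nonneg s)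
  · intro h z hz
    simp only [hf.rot h z hz, hF.rot h z hz]
  · intro h t ht
    simp only [hf.edge h t ht, hF.edge h t ht]

theorem en_nonneg [Fintype H] (T : Tri H) (x : H → ℝ) (f : H → ℂ → ℝ) : 0 ≤ en T x f := by
  unfold en
  refine div_nonneg (Finset.sum_nonneg fun h _ => ?_) (by norm_num)
  exact integral_nonneg fun z => by positivity

theorem hn2_le [Fintype H] (T : Tri H) (x : H → ℝ) {f : H → ℂ → ℝ} (hf : Fn T f) :
    hn2 T x ≤ en T x f := by
  unfold hn2
  exact ciInf_le ⟨0, by rintro _ ⟨F, rfl⟩; exact en_nonneg T x F.1⟩ (⟨f, hf⟩ : {f // Fn T f})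

end CF56

theorem nh_of_near [Fintype H] (T : Tri H) {x : H → ℝ} (hx : x ∈ Coch T) {f : H → ℂ → ℝ}
    (hf : Fn T f) {ε : ℝ} (hε : 0 ≤ ε) (h : en T x f ≤ hn2 T x + ε) :
    NH T x f (Real.sqrt (3 * ε)) := by
  intro g hg
  obtain ⟨C, hC⟩ := hg.lip
  obtain ⟨D, hD⟩ := hf.lip
  -- bounds
  have bV : ∀ k, ∀ z ∈ Op T k, ‖grad (g k) z‖ ≤ 2 * C := fun k z hz => grad_bound (hC k) hz
  have bE : ∀ k, ∀ z ∈ Op T k, ‖et T x f k z‖ ≤ ‖omega T x k‖ + 2 * D := by
    intro k z hz
    exact (norm_add_le _ _).trans (by linarith [grad_bound (hD k) hz])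
  have bW : ∀ k, ∀ z ∈ Op T k, ‖Wg T g k z‖ ≤ 6 * C := by
    intro k z hz
    have h1 := bV k z hz
    have h2 := bV _ _ ((mem_Op_next T k z).2 hz)
    have h3 := bV _ _ (mem_Op_nn T k hz)
    have h4 : ‖Wg T g k z‖ ≤ ‖grad (g k) z‖ + ‖grad (g (T.next k)) (z - T.vec k)‖ +
      ‖grad (g (T.next (T.next k))) (z - T.vec k - T.vec (T.next k))‖ := norm_add₃_le
    linarith
  -- the three integrals
  have iE : ∀ k, IntegrableOn (fun z => ‖et T x f k z‖ ^ 2) (Op T k) := by
    intro k
    refine int_bdd (C := (‖omega T x k‖ + 2 * D) ^ 2)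
      ((meas_et T x f k).norm.pow_const 2).aestronglyMeasurable fun z hz => ?_
    rw [Real.norm_eq_abs, abs_of_nonneg (by positivity)]
    exact pow_le_pow_left₀ (norm_nonneg _) (bE k z hz) 2
  have iW : ∀ k, IntegrableOn (fun z => ‖Wg T g k z‖ ^ 2) (Op T k) := by
    intro k
    refine int_bdd (C := (6 * C) ^ 2)
      ((meas_Wg T g k).norm.pow_const 2).aestronglyMeasurable fun z hz => ?_
    rw [Real.norm_eq_abs, abs_of_nonneg (by positivity)]
    exact pow_le_pow_left₀ (norm_nonneg _) (bW k z hz) 2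
  have iD : ∀ k, IntegrableOn (fun z => dot (et T x f k z) (Wg T g k z)) (Op T k) := by
    intro k
    refine int_bdd (C := (‖omega T x k‖ + 2 * D) * (6 * C))
      (meas_dot (meas_et T x f k) (meas_Wg T g k)).aestronglyMeasurable fun z hz => ?_
    rw [Real.norm_eq_abs]
    refine (abs_dot_le _ _).trans ?_
    exact mul_le_mul (bE k z hz) (bW k z hz) (norm_nonneg _)
      (by positivity)
  set P : ℝ := ∑ k, ∫ z in Op T k, dot (et T x f k z) (Wg T g k z) with hP
  set N : ℝ := ∑ k, ∫ z in Op T k, ‖Wg T g k z‖ ^ 2 with hN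
  -- the energy of `f + s G`
  have hen : ∀ s : ℝ, en T x (fun k z => f k z + s * sumC T g k z) =
      en T x f + (2 * s * P + s ^ 2 * N) / 3 := by
    intro s
    unfold en
    rw [← add_div]
    congr 1
    rw [hP, hN, Finset.mul_sum, Finset.mul_sum, ← Finset.sum_add_distrib,
      ← Finset.sum_add_distrib]
    refine Finset.sum_congr rfl fun k _ => ?_
    have h1 : ∫ z in Op T k, ‖omega T x k + grad (fun w => f k w + s * sumC T g k w) z‖ ^ 2 =
        ∫ z in Op T k, (‖et T x f k z‖ ^ 2 + 2 * s * dot (et T x f k z) (Wg T g k z) +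
          s ^ 2 * ‖Wg T g k z‖ ^ 2) := by
      refine integral_congr_ae ?_
      obtain ⟨C', hC'⟩ := (fn_sumC T hg).lip
      filter_upwards [ae_diff (hD k), ae_diff (hC' k), grad_sumC_ae hg k] with z d1 d2 d3
      have d2' : DifferentiableAt ℝ (fun w => s * sumC T g k w) z := d2.const_mul s
      rw [grad_add d1 d2', grad_mul s d2, d3, ← add_assoc]
      exact norm_add_mul_sq (et T x f k z) (Wg T g k z) s
    have h2 : ∫ z in Op T k, (‖et T x f k z‖ ^ 2 + 2 * s * dot (et T x f k z) (Wg T g k z) +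
          s ^ 2 * ‖Wg T g k z‖ ^ 2) = (∫ z in Op T k, ‖et T x f k z‖ ^ 2) +
          2 * s * (∫ z in Op T k, dot (et T x f k z) (Wg T g k z)) +
            s ^ 2 * ∫ z in Op T k, ‖Wg T g k z‖ ^ 2 := by
      rw [← int_add3 (iE k) ((iD k).const_mul (2 * s)) ((iW k).const_mul (s ^ 2)),
        integral_const_mul, integral_const_mul]
    rw [h1, h2, add_assoc]
    rfl
  have hq : ∀ s : ℝ, 0 ≤ N * (s * s) + (2 * P) * s + 3 * ε := by
    intro s
    have h1 := hn2_le T x (fn_add_mul hf (fn_sumC T hg) s)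
    rw [hen s] at h1
    nlinarith
  have hdis := discrim_le_zero hq
  unfold discrim at hdis
  have hPN : P ^ 2 ≤ 3 * ε * N := by nlinarith
  -- `P` is three times the pairing
  set S : ℝ := ∑ k, ∫ z in Op T k, dot (et T x f k z) (grad (g k) z) with hS
  set M : ℝ := ∑ k, ∫ z in Op T k, ‖grad (g k) z‖ ^ 2 with hM
  have mV : ∀ k, Measurable (grad (g k)) := fun k => measurable_grad (g k)
  have hP3 : P = 3 * S := by
    have h1 : ∀ k, ∫ z in Op T k, dot (et T x f k z) (Wg T g k z) =
        (∫ z in Op T k, dot (et T x f k z) (grad (g k) z)) +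
        (∫ z in Op T k, dot (et T x f (T.next k) (z - T.vec k))
          (grad (g (T.next k)) (z - T.vec k))) +
        ∫ z in Op T k, dot (et T x f (T.next (T.next k)) (z - T.vec k - T.vec (T.next k)))
          (grad (g (T.next (T.next k))) (z - T.vec k - T.vec (T.next k))) := by
      intro k
      have sh1 : Measurable fun z : ℂ => z - T.vec k := measurable_id.sub_const _
      have sh2 : Measurable fun z : ℂ => z - T.vec k - T.vec (T.next k) := sh1.sub_const _
      have bd : ∀ j, ∀ z ∈ Op T j, ‖dot (et T x f j z) (grad (g j) z)‖ ≤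
          (‖omega T x j‖ + 2 * D) * (2 * C) := by
        intro j z hz
        rw [Real.norm_eq_abs]
        exact (abs_dot_le _ _).trans (mul_le_mul (bE j z hz) (bV j z hz) (norm_nonneg _)
          (by positivity))
      have i1 : IntegrableOn (fun z => dot (et T x f k z) (grad (g k) z)) (Op T k) :=
        int_bdd (meas_dot (meas_et T x f k) (mV k)).aestronglyMeasurable (bd k)
      have i2 : IntegrableOn (fun z => dot (et T x f (T.next k) (z - T.vec k))
          (grad (g (T.next k)) (z - T.vec k))) (Op T k) :=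
        int_bdd ((meas_dot (meas_et T x f _) (mV _)).comp sh1).aestronglyMeasurable
          (fun z hz => bd _ _ ((mem_Op_next T k z).2 hz))
      have i3 : IntegrableOn (fun z => dot (et T x f (T.next (T.next k))
          (z - T.vec k - T.vec (T.next k)))
          (grad (g (T.next (T.next k))) (z - T.vec k - T.vec (T.next k)))) (Op T k) :=
        int_bdd ((meas_dot (meas_et T x f _) (mV _)).comp sh2).aestronglyMeasurable
          (fun z hz => bd _ _ (mem_Op_nn T k hz))
      rw [int_add3 i1 i2 i3]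
      refine setIntegral_congr_fun (meas_Op T k) fun z hz => ?_
      have e1 := et_next T hx hf k hz
      have e2 := et_next T hx hf (T.next k) ((mem_Op_next T k z).2 hz)
      simp only [e2, e1, Wg, dot_add_right]
    rw [hP, Finset.sum_congr rfl fun k _ => h1 k, Finset.sum_add_distrib,
      Finset.sum_add_distrib, sum_next T (fun k z => dot (et T x f k z) (grad (g k) z)),
      sum_next2 T (fun k z => dot (et T x f k z) (grad (g k) z)), hS]
    ring
  have hN9 : N ≤ 9 * M := by
    have h1 : ∀ k, ∫ z in Op T k, ‖Wg T g k z‖ ^ 2 ≤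
        3 * ((∫ z in Op T k, ‖grad (g k) z‖ ^ 2) +
        (∫ z in Op T k, ‖grad (g (T.next k)) (z - T.vec k)‖ ^ 2) +
        ∫ z in Op T k, ‖grad (g (T.next (T.next k))) (z - T.vec k - T.vec (T.next k))‖ ^ 2) := by
      intro k
      have sh1 : Measurable fun z : ℂ => z - T.vec k := measurable_id.sub_const _
      have sh2 : Measurable fun z : ℂ => z - T.vec k - T.vec (T.next k) := sh1.sub_const _
      have bd : ∀ j, ∀ z ∈ Op T j, ‖‖grad (g j) z‖ ^ 2‖ ≤ (2 * C) ^ 2 := by
        intro j z hz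
        rw [Real.norm_eq_abs, abs_of_nonneg (by positivity)]
        exact pow_le_pow_left₀ (norm_nonneg _) (bV j z hz) 2
      have i1 : IntegrableOn (fun z => ‖grad (g k) z‖ ^ 2) (Op T k) :=
        int_bdd ((mV k).norm.pow_const 2).aestronglyMeasurable (bd k)
      have i2 : IntegrableOn (fun z => ‖grad (g (T.next k)) (z - T.vec k)‖ ^ 2) (Op T k) :=
        int_bdd (((mV _).comp sh1).norm.pow_const 2).aestronglyMeasurable
          (fun z hz => bd _ _ ((mem_Op_next T k z).2 hz))
      have i3 : IntegrableOn (fun z => ‖grad (g (T.next (T.next k)))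
          (z - T.vec k - T.vec (T.next k))‖ ^ 2) (Op T k) :=
        int_bdd (((mV _).comp sh2).norm.pow_const 2).aestronglyMeasurable
          (fun z hz => bd _ _ (mem_Op_nn T k hz))
      rw [int_add3 i1 i2 i3, ← integral_const_mul]
      refine setIntegral_mono_on (iW k) (((i1.add i2).add i3).const_mul 3) (meas_Op T k)
        fun z _ => ?_
      exact norm_three_sq _ _ _
    calc N ≤ ∑ k, 3 * ((∫ z in Op T k, ‖grad (g k) z‖ ^ 2) +
        (∫ z in Op T k, ‖grad (g (T.next k)) (z - T.vec k)‖ ^ 2) +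
        ∫ z in Op T k, ‖grad (g (T.next (T.next k))) (z - T.vec k - T.vec (T.next k))‖ ^ 2) :=
          Finset.sum_le_sum fun k _ => h1 k
      _ = 9 * M := by
          rw [← Finset.mul_sum, Finset.sum_add_distrib, Finset.sum_add_distrib,
            sum_next T (fun k z => ‖grad (g k) z‖ ^ 2),
            sum_next2 T (fun k z => ‖grad (g k) z‖ ^ 2), hM]
          ring
  have hM0 : 0 ≤ M := Finset.sum_nonneg fun k _ => integral_nonneg fun z => by positivity
  have hSM : S ^ 2 ≤ 3 * ε * M := by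
    rw [hP3] at hPN
    nlinarith [mul_le_mul_of_nonneg_left hN9 hε]
  rw [← Real.sqrt_mul (by positivity)]
  exact Real.abs_le_sqrt hSM

theorem meanC [Fintype H] (T : Tri H)
    (hmean : ∀ F, Fn T F → ∑ h, ∫ z in Op T h, grad (F h) z = 0) {g : H → ℂ → ℝ}
    (hg : Corner T g) : ∑ h, ∫ z in Op T h, grad (g h) z = 0 := by
  obtain ⟨C, hC⟩ := hg.lip
  have h0 := hmean _ (fn_sumC T hg)
  have bV : ∀ k, ∀ z ∈ Op T k, ‖grad (g k) z‖ ≤ 2 * C := fun k z hz => grad_bound (hC k) hz
  have mV : ∀ k, Measurable (grad (g k)) := fun k => measurable_grad (g k)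
  have h1 : ∀ k, ∫ z in Op T k, grad (sumC T g k) z =
      (∫ z in Op T k, grad (g k) z) + (∫ z in Op T k, grad (g (T.next k)) (z - T.vec k)) +
        ∫ z in Op T k, grad (g (T.next (T.next k))) (z - T.vec k - T.vec (T.next k)) := by
    intro k
    have sh1 : Measurable fun z : ℂ => z - T.vec k := measurable_id.sub_const _
    have sh2 : Measurable fun z : ℂ => z - T.vec k - T.vec (T.next k) := sh1.sub_const _
    have i1 : IntegrableOn (fun z => grad (g k) z) (Op T k) :=
      int_bdd (mV k).aestronglyMeasurable (bV k)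
    have i2 : IntegrableOn (fun z => grad (g (T.next k)) (z - T.vec k)) (Op T k) :=
      int_bdd ((mV _).comp sh1).aestronglyMeasurable
        (fun z hz => bV _ _ ((mem_Op_next T k z).2 hz))
    have i3 : IntegrableOn (fun z => grad (g (T.next (T.next k)))
        (z - T.vec k - T.vec (T.next k))) (Op T k) :=
      int_bdd ((mV _).comp sh2).aestronglyMeasurable
        (fun z hz => bV _ _ (mem_Op_nn T k hz))
    rw [int_add3 i1 i2 i3]
    refine integral_congr_ae ?_
    filter_upwards [grad_sumC_ae hg k] with z hz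
    rw [hz]
    rfl
  rw [Finset.sum_congr rfl fun k _ => h1 k, Finset.sum_add_distrib,
    Finset.sum_add_distrib, sum_nextE T (fun k z => grad (g k) z),
    sum_next2E T (fun k z => grad (g k) z)] at h0
  have h2 : (3 : ℂ) * ∑ k, ∫ z in Op T k, grad (g k) z = 0 := by
    rw [← h0]; ring
  exact (mul_eq_zero.1 h2).resolve_left (by norm_num)

end Pool.Agent.Helper21.H3
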