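import Pool.Agent.Helper21.H3.Defs
import Pool.Agent.Helper72.TF.BA1

/-!
# MP_e98778_an (full), H3, block GEO: squares inside the kites

BLOCK TF-H3-GEO. `ρ = 1/(32 K²)`; `|cr u w| ≤ ‖u‖ ‖w‖`, points of `Sq p ρ` have distance at most `2ρ`
from `p`, so all barycentric coordinates `a0, a1, a2` change by at most `2 K ρ = 1/(16 K)`; the areas `ar` are
at least `1/K` (and `1 ≤ K`, because `1/K ≤ ar ≤ K²`).

`sq_sub_Rg`: `p ∈ Rg T h`, `z ∈ Sq p ρ`. If `0 ≤ a0 h z`, then `a1 h z, a2 h z ≥ 1/(4K) - 1/(16K) > 0`.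
Otherwise let `q` be the point of the segment `[p, z]` with `a0 h q = 0`; `a1 h q, a2 h q ≥ ar/8`, so
`q = t vec h` with `t ∈ [1/8, 7/8]`, so `a0 (sg h) q = t ar (sg h)`, `a1 (sg h) q = (1 - t) ar (sg h)`
are at least `1/(8K)` and `z` is at distance at most `2ρ` from `q`.
`sq_sub_Rp`: the mirror image (`a2 (sg h) z = - a0 h z`).
`cover`: the affine map `(s, t) ↦ s vec h + t (vec h + vec (next h))` is Lipschitz with constant `4 K`
and maps the compact sets `{s, t : 0 ≤ t, 1/4 ≤ s, s + t ≤ 3/4}` and `{0 ≤ s, 1/4 ≤ t, s + t ≤ 3/4}` onto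
`Rg T h` and `Rp T h` (`s = a2/ar`, `t = a0/ar`, `1 - s - t = a1/ar`). Cover these compact sets of `ℝ × ℝ` by
finitely many balls with centres in them.
-/

set_option autoImplicit false

open MeasureTheory Set Pool.Agent.Helper87.LS Pool.Agent.Helper79.G Pool.Agent.Helper72.TF

namespace Pool.Agent.Helper21.H3

variable {H : Type}

private theorem vec_nn16 (T : Tri H) (h : H) :
    T.vec (T.next (T.next h)) = -(T.vec h + T.vec (T.next h)) := by
  linear_combination T.closed h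

theorem a_sum (T : Tri H) (h : H) (z : ℂ) : T.a0 h z + T.a1 h z + T.a2 h z = ar T h := by
  simp only [Tri.a0, Tri.a1, Tri.a2, Tri.prev, ar, vec_nn16, cr, Complex.neg_re, Complex.neg_im,
    Complex.add_re, Complex.add_im, Complex.sub_re, Complex.sub_im]
  ring

theorem a2_sg (T : Tri H) (h : H) (z : ℂ) : T.a2 (sg T h) z = -T.a0 h z := by
  have h1 : T.prev (sg T h) = T.opp h := T.next3 (T.opp h)
  simp only [Tri.a2, Tri.a0, h1, T.vec_opp, cr, Complex.neg_re, Complex.neg_im]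
  ring

private theorem ar_sg16 (T : Tri H) (h : H) : ar T (sg T h) = cr (T.vec (sg T h)) (T.vec h) := by
  have h1 : ar T (sg T h) = ar T (T.opp h) := ar_next T (T.opp h)
  rw [h1]
  have h2 : ar T (T.opp h) = cr (T.vec (T.opp h)) (T.vec (sg T h)) := rfl
  rw [h2, T.vec_opp]
  simp only [cr, Complex.neg_re, Complex.neg_im]
  ring

theorem sg_ne (T : Tri H) (h : H) : sg T h ≠ h := by
  intro e
  have h1 := ar_sg16 T h
  rw [e, cr_self] at h1
  have := ar_pos T h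
  linarith

theorem one_le_K {T : Tri H} {K : ℝ} (hT : Tame T K) (h : H) : 1 ≤ K := by
  have hK0 : 0 ≤ K := le_trans (norm_nonneg _) (hT.1 h)
  have h1 := hT.2 h
  have h0 := ar_pos T h
  have h2 : ar T h ≤ K * K := by
    calc ar T h ≤ |cr (T.vec h) (T.vec (T.next h))| := le_abs_self _
      _ ≤ ‖T.vec h‖ * ‖T.vec (T.next h)‖ := abs_cr_le _ _
      _ ≤ K * K := mul_le_mul (hT.1 h) (hT.1 _) (norm_nonneg _) hK0
  by_contra hlt
  have hlt' : K < 1 := not_le.mp hlt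
  rcases eq_or_lt_of_le hK0 with hK | hK
  · rw [← hK] at h2
    linarith
  · have h3 : 1 < 1 / K := by
      rw [lt_div_iff₀ hK]; linarith
    nlinarith

private theorem norm_of_Sq16 {p z : ℂ} {r : ℝ} (hz : z ∈ Sq p r) : ‖z - p‖ ≤ 2 * r := by
  have h1 := Complex.norm_le_abs_re_add_abs_im (z - p)
  have h2 : |(z - p).re| ≤ r := by rw [Complex.sub_re]; exact hz.1
  have h3 : |(z - p).im| ≤ r := by rw [Complex.sub_im]; exact hz.2
  linarith

private theorem a0_lip16 {T : Tri H} {K : ℝ} (hT : Tame T K) (h : H) (z w : ℂ) :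
    |T.a0 h z - T.a0 h w| ≤ K * ‖z - w‖ := by
  have h1 : T.a0 h z - T.a0 h w = cr (T.vec h) (z - w) := by
    rw [cr_sub_right]; rfl
  rw [h1]
  exact le_trans (abs_cr_le _ _) (mul_le_mul_of_nonneg_right (hT.1 h) (norm_nonneg _))

private theorem a1_lip16 {T : Tri H} {K : ℝ} (hT : Tame T K) (h : H) (z w : ℂ) :
    |T.a1 h z - T.a1 h w| ≤ K * ‖z - w‖ := by
  have h1 : T.a1 h z - T.a1 h w = cr (T.vec (T.next h)) (z - w) := by
    simp only [Tri.a1, cr, Complex.sub_re, Complex.sub_im]; ring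
  rw [h1]
  exact le_trans (abs_cr_le _ _) (mul_le_mul_of_nonneg_right (hT.1 _) (norm_nonneg _))

private theorem a2_lip16 {T : Tri H} {K : ℝ} (hT : Tame T K) (h : H) (z w : ℂ) :
    |T.a2 h z - T.a2 h w| ≤ K * ‖z - w‖ := by
  have h1 : T.a2 h z - T.a2 h w = cr (T.vec (T.prev h)) (z - w) := by
    rw [cr_sub_right]; rfl
  rw [h1]
  exact le_trans (abs_cr_le _ _) (mul_le_mul_of_nonneg_right (hT.1 _) (norm_nonneg _))

/-- Barycentric coordinates. -/
private theorem bary16 (T : Tri H) (h : H) (z : ℂ) :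
    (ar T h : ℂ) * z =
      (T.a2 h z : ℂ) * T.vec h + (T.a0 h z : ℂ) * (T.vec h + T.vec (T.next h)) := by
  apply Complex.ext
  · simp only [Tri.a0, Tri.a2, Tri.prev, ar, vec_nn16, cr, Complex.neg_re, Complex.neg_im,
      Complex.add_re, Complex.add_im, Complex.mul_re, Complex.ofReal_re, Complex.ofReal_im]
    ring
  · simp only [Tri.a0, Tri.a2, Tri.prev, ar, vec_nn16, cr, Complex.neg_re, Complex.neg_im,
      Complex.add_re, Complex.add_im, Complex.mul_im, Complex.ofReal_re, Complex.ofReal_im]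
    ring

private theorem edge_rel16 (T : Tri H) (h : H) {q : ℂ} (h0 : T.a0 h q = 0) :
    T.a0 (sg T h) q * ar T h = T.a2 h q * ar T (sg T h) := by
  have hb := bary16 T h q
  rw [h0] at hb
  simp only [Complex.ofReal_zero, zero_mul, add_zero] at hb
  have h1 := congrArg (fun w => cr (T.vec (sg T h)) w) hb
  simp only [cr_mul_right] at h1
  rw [← ar_sg16] at h1
  have h2 : T.a0 (sg T h) q = cr (T.vec (sg T h)) q := rfl
  rw [h2]
  linarith

private theorem seg_point16 {T : Tri H} {h : H} {p z : ℂ}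
    (hA : (0 ≤ T.a0 h p ∧ T.a0 h z < 0) ∨ (T.a0 h p ≤ 0 ∧ 0 < T.a0 h z)) :
    ∃ q : ℂ, T.a0 h q = 0 ∧ ‖q - p‖ ≤ ‖z - p‖ ∧ ‖z - q‖ ≤ ‖z - p‖ := by
  have key : ∃ s : ℝ, 0 ≤ s ∧ s ≤ 1 ∧ T.a0 h p + s * (T.a0 h z - T.a0 h p) = 0 := by
    have hne : T.a0 h p - T.a0 h z ≠ 0 := by
      rcases hA with ⟨h1, h2⟩ | ⟨h1, h2⟩
      · have : 0 < T.a0 h p - T.a0 h z := by linarith
        exact ne_of_gt this
      · have : T.a0 h p - T.a0 h z < 0 := by linarith
        exact ne_of_lt this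
    refine ⟨T.a0 h p / (T.a0 h p - T.a0 h z), ?_, ?_, ?_⟩
    · rcases hA with ⟨h1, h2⟩ | ⟨h1, h2⟩
      · exact div_nonneg h1 (by linarith)
      · exact div_nonneg_of_nonpos h1 (by linarith)
    · rcases hA with ⟨h1, h2⟩ | ⟨h1, h2⟩
      · rw [div_le_one (by linarith)]; linarith
      · rw [div_le_one_of_neg (by linarith)]; linarith
    · field_simp
      ring
  obtain ⟨s, hs0, hs1, hs⟩ := key
  refine ⟨p + (s : ℂ) * (z - p), ?_, ?_, ?_⟩
  · have h1 : T.a0 h (p + (s : ℂ) * (z - p)) = T.a0 h p + s * (T.a0 h z - T.a0 h p) := by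
      simp only [Tri.a0, cr, Complex.add_re, Complex.add_im, Complex.re_ofReal_mul,
        Complex.im_ofReal_mul, Complex.sub_re, Complex.sub_im]
      ring
    rw [h1, hs]
  · have h1 : p + (s : ℂ) * (z - p) - p = (s : ℂ) * (z - p) := by ring
    rw [h1, norm_mul, Complex.norm_real, Real.norm_eq_abs, abs_of_nonneg hs0]
    exact mul_le_of_le_one_left (norm_nonneg _) hs1
  · have h1 : z - (p + (s : ℂ) * (z - p)) = ((1 - s : ℝ) : ℂ) * (z - p) := by push_cast; ring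
    rw [h1, norm_mul, Complex.norm_real, Real.norm_eq_abs, abs_of_nonneg (by linarith)]
    exact mul_le_of_le_one_left (norm_nonneg _) (by linarith)

private theorem small16 {T : Tri H} {K : ℝ} (hT : Tame T K) (h : H) {p z : ℂ}
    (hz : z ∈ Sq p (1 / (32 * K ^ 2))) : K * ‖z - p‖ ≤ 1 / (16 * K) := by
  have hK := one_le_K hT h
  have hK0 : 0 < K := by linarith
  have h1 := norm_of_Sq16 hz
  calc K * ‖z - p‖ ≤ K * (2 * (1 / (32 * K ^ 2))) := mul_le_mul_of_nonneg_left h1 hK0.le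
    _ = 1 / (16 * K) := by field_simp; norm_num

private theorem area16 {T : Tri H} {K : ℝ} (hT : Tame T K) (h : H) :
    0 < 1 / (16 * K) ∧ 16 * (1 / (16 * K)) ≤ ar T h := by
  have hK := one_le_K hT h
  have hK0 : 0 < K := by linarith
  refine ⟨by positivity, ?_⟩
  have h1 : 16 * (1 / (16 * K)) = 1 / K := by field_simp
  rw [h1]
  exact hT.2 h

theorem sq_sub_Rg {T : Tri H} {K : ℝ} (hT : Tame T K) {h : H} {p : ℂ} (hp : p ∈ Rg T h) :
    Sq p (1 / (32 * K ^ 2)) ⊆ Kt T h := by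
  intro z hz
  obtain ⟨hp0, hp1, hp2⟩ := hp
  have hs := small16 hT h hz
  obtain ⟨hk, hD⟩ := area16 hT h
  obtain ⟨-, hD'⟩ := area16 hT (sg T h)
  have hK0 : 0 < K := by linarith [one_le_K hT h]
  by_cases h0 : 0 ≤ T.a0 h z
  · left
    have h1 := abs_le.mp (le_trans (a1_lip16 hT h z p) hs)
    have h2 := abs_le.mp (le_trans (a2_lip16 hT h z p) hs)
    exact ⟨h0, by linarith [h1.1], by linarith [h2.1]⟩
  · right
    have h0' : T.a0 h z < 0 := not_le.mp h0
    obtain ⟨q, hq0, hqp, hzq⟩ := seg_point16 (Or.inl ⟨hp0, h0'⟩)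
    have hqp' : K * ‖q - p‖ ≤ 1 / (16 * K) :=
      le_trans (mul_le_mul_of_nonneg_left hqp hK0.le) hs
    have hzq' : K * ‖z - q‖ ≤ 1 / (16 * K) :=
      le_trans (mul_le_mul_of_nonneg_left hzq hK0.le) hs
    have h1 := abs_le.mp (le_trans (a1_lip16 hT h q p) hqp')
    have h2 := abs_le.mp (le_trans (a2_lip16 hT h q p) hqp')
    have hrel := edge_rel16 T h hq0
    have hsum := a_sum T h q
    have hsum' := a_sum T (sg T h) q
    rw [a2_sg, hq0] at hsum'
    have hDpos : 0 < ar T h := ar_pos T h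
    have hDpos' : 0 < ar T (sg T h) := ar_pos T _
    have hu : 3 / 16 * ar T h ≤ T.a2 h q := by linarith [h2.1]
    have hv : 3 / 16 * ar T h ≤ T.a1 h q := by linarith [h1.1]
    have hU : 3 / 16 * ar T (sg T h) ≤ T.a0 (sg T h) q := by
      have h3 : 3 / 16 * ar T (sg T h) * ar T h ≤ T.a0 (sg T h) q * ar T h := by
        rw [hrel]
        nlinarith
      exact le_of_mul_le_mul_right h3 hDpos
    have hV : 3 / 16 * ar T (sg T h) ≤ T.a1 (sg T h) q := by
      have h4 : T.a1 (sg T h) q * ar T h = T.a1 h q * ar T (sg T h) := by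
        have e1 : T.a1 (sg T h) q = ar T (sg T h) - T.a0 (sg T h) q := by linarith
        have e2 : T.a1 h q = ar T h - T.a2 h q := by linarith
        rw [e1, e2]
        linear_combination -hrel
      have h3 : 3 / 16 * ar T (sg T h) * ar T h ≤ T.a1 (sg T h) q * ar T h := by
        rw [h4]
        nlinarith
      exact le_of_mul_le_mul_right h3 hDpos
    have h5 := abs_le.mp (le_trans (a0_lip16 hT (sg T h) z q) hzq')
    have h6 := abs_le.mp (le_trans (a1_lip16 hT (sg T h) z q) hzq')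
    exact ⟨h0'.le, by linarith [h5.1], by linarith [h6.1]⟩

theorem sq_sub_Rp {T : Tri H} {K : ℝ} (hT : Tame T K) {h : H} {p : ℂ} (hp : p ∈ Rp T (sg T h)) :
    Sq p (1 / (32 * K ^ 2)) ⊆ Kt T h := by
  intro z hz
  obtain ⟨hp2, hp0, hp1⟩ := hp
  rw [a2_sg] at hp2
  have hs := small16 hT h hz
  obtain ⟨hk, hD⟩ := area16 hT h
  obtain ⟨-, hD'⟩ := area16 hT (sg T h)
  have hK0 : 0 < K := by linarith [one_le_K hT h]
  by_cases h0 : T.a0 h z ≤ 0
  · right
    have h1 := abs_le.mp (le_trans (a0_lip16 hT (sg T h) z p) hs)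
    have h2 := abs_le.mp (le_trans (a1_lip16 hT (sg T h) z p) hs)
    exact ⟨h0, by linarith [h1.1], by linarith [h2.1]⟩
  · left
    have h0' : 0 < T.a0 h z := not_le.mp h0
    have hp2' : T.a0 h p ≤ 0 := by linarith
    obtain ⟨q, hq0, hqp, hzq⟩ := seg_point16 (Or.inr ⟨hp2', h0'⟩)
    have hqp' : K * ‖q - p‖ ≤ 1 / (16 * K) :=
      le_trans (mul_le_mul_of_nonneg_left hqp hK0.le) hs
    have hzq' : K * ‖z - q‖ ≤ 1 / (16 * K) :=
      le_trans (mul_le_mul_of_nonneg_left hzq hK0.le) hs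
    have h1 := abs_le.mp (le_trans (a0_lip16 hT (sg T h) q p) hqp')
    have h2 := abs_le.mp (le_trans (a1_lip16 hT (sg T h) q p) hqp')
    have hrel := edge_rel16 T h hq0
    have hsum := a_sum T h q
    have hsum' := a_sum T (sg T h) q
    rw [a2_sg, hq0] at hsum'
    have hDpos : 0 < ar T h := ar_pos T h
    have hDpos' : 0 < ar T (sg T h) := ar_pos T _
    have hU : 3 / 16 * ar T (sg T h) ≤ T.a0 (sg T h) q := by linarith [h1.1]
    have hV : 3 / 16 * ar T (sg T h) ≤ T.a1 (sg T h) q := by linarith [h2.1]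
    have hu : 3 / 16 * ar T h ≤ T.a2 h q := by
      have h3 : 3 / 16 * ar T h * ar T (sg T h) ≤ T.a2 h q * ar T (sg T h) := by
        rw [← hrel]
        nlinarith
      exact le_of_mul_le_mul_right h3 hDpos'
    have hv : 3 / 16 * ar T h ≤ T.a1 h q := by
      have h4 : T.a1 (sg T h) q * ar T h = T.a1 h q * ar T (sg T h) := by
        have e1 : T.a1 (sg T h) q = ar T (sg T h) - T.a0 (sg T h) q := by linarith
        have e2 : T.a1 h q = ar T h - T.a2 h q := by linarith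
        rw [e1, e2]
        linear_combination -hrel
      have h3 : 3 / 16 * ar T h * ar T (sg T h) ≤ T.a1 h q * ar T (sg T h) := by
        rw [← h4]
        nlinarith
      exact le_of_mul_le_mul_right h3 hDpos'
    have h5 := abs_le.mp (le_trans (a1_lip16 hT h z q) hzq')
    have h6 := abs_le.mp (le_trans (a2_lip16 hT h z q) hzq')
    exact ⟨h0'.le, by linarith [h5.1], by linarith [h6.1]⟩

private theorem cen_coord16 (T : Tri H) (h : H) :
    T.a0 h (cen T h) = ar T h / 3 ∧ T.a1 h (cen T h) = ar T h / 3 ∧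
      T.a2 h (cen T h) = ar T h / 3 := by
  have hre : (cen T h).re = (2 * (T.vec h).re + (T.vec (T.next h)).re) / 3 := by
    simp [cen]
  have him : (cen T h).im = (2 * (T.vec h).im + (T.vec (T.next h)).im) / 3 := by
    simp [cen]
  refine ⟨?_, ?_, ?_⟩ <;>
  · simp only [Tri.a0, Tri.a1, Tri.a2, Tri.prev, ar, vec_nn16, cr, Complex.neg_re,
      Complex.neg_im, Complex.add_re, Complex.add_im, Complex.sub_re, Complex.sub_im, hre, him]
    ring

theorem sq_sub_cen {T : Tri H} {K : ℝ} (hT : Tame T K) (h : H) :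
    Sq (cen T h) (1 / (32 * K ^ 2)) ⊆ Op T h := by
  intro z hz
  have hs := small16 hT h hz
  obtain ⟨hk, hD⟩ := area16 hT h
  obtain ⟨c0, c1, c2⟩ := cen_coord16 T h
  have h0 := abs_le.mp (le_trans (a0_lip16 hT h z (cen T h)) hs)
  have h1 := abs_le.mp (le_trans (a1_lip16 hT h z (cen T h)) hs)
  have h2 := abs_le.mp (le_trans (a2_lip16 hT h z (cen T h)) hs)
  rw [c0] at h0
  rw [c1] at h1
  rw [c2] at h2
  exact ⟨by linarith [h0.1], by linarith [h1.1], by linarith [h2.1]⟩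

theorem cen_mem_Rg (T : Tri H) (h : H) : cen T h ∈ Rg T h := by
  obtain ⟨c0, c1, c2⟩ := cen_coord16 T h
  have hD := ar_pos T h
  refine ⟨?_, ?_, ?_⟩
  · rw [c0]; linarith
  · rw [c1]; linarith
  · rw [c2]; linarith

theorem cen_mem_Rp (T : Tri H) (h : H) : cen T h ∈ Rp T h := by
  obtain ⟨c0, c1, c2⟩ := cen_coord16 T h
  have hD := ar_pos T h
  refine ⟨?_, ?_, ?_⟩
  · rw [c2]; linarith
  · rw [c0]; linarith
  · rw [c1]; linarith

private theorem mid_coord16 (T : Tri H) (h : H) :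
    T.a0 h (mid T h) = 0 ∧ T.a1 h (mid T h) = ar T h / 2 ∧ T.a2 h (mid T h) = ar T h / 2 := by
  have hre : (mid T h).re = (T.vec h).re / 2 := by simp [mid]
  have him : (mid T h).im = (T.vec h).im / 2 := by simp [mid]
  refine ⟨?_, ?_, ?_⟩ <;>
  · simp only [Tri.a0, Tri.a1, Tri.a2, Tri.prev, ar, vec_nn16, cr, Complex.neg_re,
      Complex.neg_im, Complex.add_re, Complex.add_im, Complex.sub_re, Complex.sub_im, hre, him]
    ring

theorem mid_mem_Rg (T : Tri H) (h : H) : mid T h ∈ Rg T h := by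
  obtain ⟨c0, c1, c2⟩ := mid_coord16 T h
  have hD := ar_pos T h
  refine ⟨?_, ?_, ?_⟩
  · rw [c0]
  · rw [c1]; linarith
  · rw [c2]; linarith

theorem mid_mem_Rp (T : Tri H) (h : H) : mid T h ∈ Rp T (sg T h) := by
  obtain ⟨c0, c1, c2⟩ := mid_coord16 T h
  have hD := ar_pos T h
  have hD' := ar_pos T (sg T h)
  have hrel := edge_rel16 T h c0
  have hsum' := a_sum T (sg T h) (mid T h)
  rw [a2_sg, c0] at hsum'
  rw [c2] at hrel
  have hU : T.a0 (sg T h) (mid T h) = ar T (sg T h) / 2 := by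
    have h3 : T.a0 (sg T h) (mid T h) * ar T h = ar T (sg T h) / 2 * ar T h := by
      rw [hrel]; ring
    exact mul_right_cancel₀ (ne_of_gt hD) h3
  refine ⟨?_, ?_, ?_⟩
  · rw [a2_sg, c0]; norm_num
  · rw [hU]; linarith
  · linarith

theorem cen_next (T : Tri H) (h : H) : cen T (T.next h) = cen T h - T.vec h := by
  unfold cen
  rw [vec_nn16]
  ring

private theorem a_comb16 (T : Tri H) (h : H) (x y : ℂ) (s t : ℝ) (hst : s + t = 1) :
    T.a0 h (s • x + t • y) = s * T.a0 h x + t * T.a0 h y ∧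
      T.a1 h (s • x + t • y) = s * T.a1 h x + t * T.a1 h y ∧
      T.a2 h (s • x + t • y) = s * T.a2 h x + t * T.a2 h y := by
  have ht : t = 1 - s := by linarith
  subst ht
  refine ⟨?_, ?_, ?_⟩ <;>
  · simp only [Tri.a0, Tri.a1, Tri.a2, cr, Complex.add_re, Complex.add_im, Complex.sub_re,
      Complex.sub_im, Complex.real_smul, Complex.re_ofReal_mul, Complex.im_ofReal_mul]
    ring

private theorem comb_le16 {s t c u v : ℝ} (hs : 0 ≤ s) (ht : 0 ≤ t) (hst : s + t = 1)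
    (hu : c ≤ u) (hv : c ≤ v) : c ≤ s * u + t * v := by
  have h1 : s * c ≤ s * u := mul_le_mul_of_nonneg_left hu hs
  have h2 : t * c ≤ t * v := mul_le_mul_of_nonneg_left hv ht
  have h3 : s * c + t * c = c := by rw [← add_mul, hst, one_mul]
  linarith

theorem convex_Rg (T : Tri H) (h : H) : Convex ℝ (Rg T h) := by
  intro x hx y hy s t hs ht hst
  obtain ⟨e0, e1, e2⟩ := a_comb16 T h x y s t hst
  refine ⟨?_, ?_, ?_⟩
  · rw [e0]; exact comb_le16 hs ht hst hx.1 hy.1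
  · rw [e1]; exact comb_le16 hs ht hst hx.2.1 hy.2.1
  · rw [e2]; exact comb_le16 hs ht hst hx.2.2 hy.2.2

theorem convex_Rp (T : Tri H) (h : H) : Convex ℝ (Rp T h) := by
  intro x hx y hy s t hs ht hst
  obtain ⟨e0, e1, e2⟩ := a_comb16 T h x y s t hst
  refine ⟨?_, ?_, ?_⟩
  · rw [e2]; exact comb_le16 hs ht hst hx.1 hy.1
  · rw [e0]; exact comb_le16 hs ht hst hx.2.1 hy.2.1
  · rw [e1]; exact comb_le16 hs ht hst hx.2.2 hy.2.2

private theorem norm_ab16 {T : Tri H} {K : ℝ} (hT : Tame T K) (h : H) :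
    ‖T.vec h + T.vec (T.next h)‖ ≤ K := by
  have h1 := hT.1 (T.next (T.next h))
  rw [vec_nn16, norm_neg] at h1
  exact h1

/-- Points of the closed triangle are bounded. -/
theorem norm_le_of_Cl {T : Tri H} {K : ℝ} (hT : Tame T K) {h : H} {z : ℂ} (hz : z ∈ Cl T h) :
    ‖z‖ ≤ 2 * K := by
  obtain ⟨h0, h1, h2⟩ := hz
  have hD := ar_pos T h
  have hb := bary16 T h z
  have hsum := a_sum T h z
  have hK0 : 0 < K := by linarith [one_le_K hT h]
  have hn := congrArg norm hb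
  rw [norm_mul, Complex.norm_real, Real.norm_eq_abs, abs_of_pos hD] at hn
  have hle : ar T h * ‖z‖ ≤ ar T h * (2 * K) := by
    rw [hn]
    refine le_trans (norm_add_le _ _) ?_
    rw [norm_mul, norm_mul, Complex.norm_real, Complex.norm_real, Real.norm_eq_abs,
      Real.norm_eq_abs, abs_of_nonneg h0, abs_of_nonneg h2]
    have e1 : T.a2 h z * ‖T.vec h‖ ≤ T.a2 h z * K := mul_le_mul_of_nonneg_left (hT.1 h) h2
    have e2 : T.a0 h z * ‖T.vec h + T.vec (T.next h)‖ ≤ T.a0 h z * K :=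
      mul_le_mul_of_nonneg_left (norm_ab16 hT h) h0
    nlinarith
  exact le_of_mul_le_mul_left hle hD

theorem Rg_sub_Cl (T : Tri H) (h : H) : Rg T h ⊆ Cl T h := by
  intro z hz
  have hD := ar_pos T h
  exact ⟨hz.1, by linarith [hz.2.1], by linarith [hz.2.2]⟩

theorem Rp_sub_Cl (T : Tri H) (h : H) : Rp T h ⊆ Cl T h := by
  intro z hz
  have hD := ar_pos T h
  exact ⟨by linarith [hz.2.1], by linarith [hz.2.2], hz.1⟩

/-- The point with barycentric coordinates `x`. -/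
private noncomputable def ph16 (T : Tri H) (h : H) (x : ℝ × ℝ) : ℂ :=
  (x.1 : ℂ) * T.vec h + (x.2 : ℂ) * (T.vec h + T.vec (T.next h))

private theorem ph_coord16 (T : Tri H) (h : H) (x : ℝ × ℝ) :
    T.a0 h (ph16 T h x) = x.2 * ar T h ∧ T.a1 h (ph16 T h x) = (1 - x.1 - x.2) * ar T h ∧
      T.a2 h (ph16 T h x) = x.1 * ar T h := by
  refine ⟨?_, ?_, ?_⟩ <;>
  · simp only [ph16, Tri.a0, Tri.a1, Tri.a2, Tri.prev, ar, vec_nn16, cr, Complex.neg_re,
      Complex.neg_im, Complex.add_re, Complex.add_im, Complex.sub_re, Complex.sub_im,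
      Complex.re_ofReal_mul, Complex.im_ofReal_mul]
    ring

private theorem ph_surj16 (T : Tri H) (h : H) (z : ℂ) :
    ph16 T h (T.a2 h z / ar T h, T.a0 h z / ar T h) = z := by
  have hD : (ar T h : ℂ) ≠ 0 := by exact_mod_cast ne_of_gt (ar_pos T h)
  have hb := bary16 T h z
  simp only [ph16]
  push_cast
  field_simp
  rw [hb]

private theorem ph_dist16 {T : Tri H} {K : ℝ} (hT : Tame T K) (h : H) (x y : ℝ × ℝ) :
    ‖ph16 T h x - ph16 T h y‖ ≤ 2 * K * dist x y := by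
  have hK0 : 0 < K := by linarith [one_le_K hT h]
  have e : ph16 T h x - ph16 T h y =
      ((x.1 - y.1 : ℝ) : ℂ) * T.vec h + ((x.2 - y.2 : ℝ) : ℂ) * (T.vec h + T.vec (T.next h)) := by
    simp only [ph16]; push_cast; ring
  rw [e]
  refine le_trans (norm_add_le _ _) ?_
  rw [norm_mul, norm_mul, Complex.norm_real, Complex.norm_real, Real.norm_eq_abs,
    Real.norm_eq_abs]
  have h1 : |x.1 - y.1| ≤ dist x y := by
    rw [Prod.dist_eq]; exact le_max_left _ _
  have h2 : |x.2 - y.2| ≤ dist x y := by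
    rw [Prod.dist_eq]; exact le_max_right _ _
  have h3 : |x.1 - y.1| * ‖T.vec h‖ ≤ dist x y * K :=
    mul_le_mul h1 (hT.1 h) (norm_nonneg _) dist_nonneg
  have h4 : |x.2 - y.2| * ‖T.vec h + T.vec (T.next h)‖ ≤ dist x y * K :=
    mul_le_mul h2 (norm_ab16 hT h) (norm_nonneg _) dist_nonneg
  linarith

private theorem cover_aux16 (K : ℝ) {ρ : ℝ} (hρ : 0 < ρ) (P : Set (ℝ × ℝ))
    (hP : P ⊆ Icc (0 : ℝ × ℝ) 1) : ∃ M : ℕ, ∀ (H : Type) (T : Tri H), Tame T K → ∀ h : H,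
      ∀ R : Set ℂ, (∀ x ∈ P, ph16 T h x ∈ R) →
        (∀ z ∈ R, (T.a2 h z / ar T h, T.a0 h z / ar T h) ∈ P) →
        ∃ F : Finset ℂ, F.card ≤ M ∧ (∀ p ∈ F, p ∈ R) ∧ R ⊆ ⋃ p ∈ F, Sq p ρ := by
  classical
  have htb : TotallyBounded P := (isCompact_Icc.totallyBounded).subset hP
  set K' : ℝ := max K 1 with hK'
  have hK'0 : 0 < K' := lt_of_lt_of_le one_pos (le_max_right _ _)
  obtain ⟨t, hts, htf, htc⟩ :=
    Metric.finite_approx_of_totallyBounded htb (ρ / (2 * K')) (by positivity)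
  refine ⟨htf.toFinset.card, ?_⟩
  intro H T hT h R hR1 hR2
  refine ⟨htf.toFinset.image (ph16 T h), Finset.card_image_le, ?_, ?_⟩
  · intro p hp
    obtain ⟨x, hx, rfl⟩ := Finset.mem_image.mp hp
    exact hR1 x (hts (htf.mem_toFinset.mp hx))
  · intro z hz
    have hzP := hR2 z hz
    have hz2 := htc hzP
    simp only [mem_iUnion, exists_prop] at hz2
    obtain ⟨y, hy, hzy⟩ := hz2
    simp only [mem_iUnion, exists_prop]
    refine ⟨ph16 T h y, Finset.mem_image.mpr ⟨y, htf.mem_toFinset.mpr hy, rfl⟩, ?_⟩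
    have h1 := ph_dist16 hT h (T.a2 h z / ar T h, T.a0 h z / ar T h) y
    rw [ph_surj16] at h1
    have h2 : dist (T.a2 h z / ar T h, T.a0 h z / ar T h) y < ρ / (2 * K') := hzy
    have h3 : ‖z - ph16 T h y‖ ≤ ρ := by
      have hKK : K ≤ K' := le_max_left _ _
      calc ‖z - ph16 T h y‖ ≤ 2 * K * dist (T.a2 h z / ar T h, T.a0 h z / ar T h) y := h1
        _ ≤ 2 * K' * dist (T.a2 h z / ar T h, T.a0 h z / ar T h) y := by
            exact mul_le_mul_of_nonneg_right (by linarith) dist_nonneg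
        _ ≤ 2 * K' * (ρ / (2 * K')) := mul_le_mul_of_nonneg_left h2.le (by positivity)
        _ = ρ := by field_simp
    refine ⟨?_, ?_⟩
    · rw [← Complex.sub_re]
      exact le_trans (Complex.abs_re_le_norm _) h3
    · rw [← Complex.sub_im]
      exact le_trans (Complex.abs_im_le_norm _) h3

theorem cover (K : ℝ) {ρ : ℝ} (hρ : 0 < ρ) : ∃ M : ℕ, ∀ (H : Type) (T : Tri H), Tame T K →
    ∀ h : H,
      (∃ F : Finset ℂ, F.card ≤ M ∧ (∀ p ∈ F, p ∈ Rg T h) ∧ Rg T h ⊆ ⋃ p ∈ F, Sq p ρ) ∧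
      (∃ F : Finset ℂ, F.card ≤ M ∧ (∀ p ∈ F, p ∈ Rp T h) ∧ Rp T h ⊆ ⋃ p ∈ F, Sq p ρ) := by
  obtain ⟨M1, hM1⟩ := cover_aux16 K hρ {x | 0 ≤ x.2 ∧ 1 / 4 ≤ x.1 ∧ x.1 + x.2 ≤ 3 / 4} (by
    intro x hx
    obtain ⟨h1, h2, h3⟩ := hx
    refine ⟨⟨?_, ?_⟩, ⟨?_, ?_⟩⟩
    · change (0 : ℝ) ≤ x.1
      linarith
    · exact h1
    · change x.1 ≤ (1 : ℝ)
      linarith
    · change x.2 ≤ (1 : ℝ)
      linarith)
  obtain ⟨M2, hM2⟩ := cover_aux16 K hρ {x | 0 ≤ x.1 ∧ 1 / 4 ≤ x.2 ∧ x.1 + x.2 ≤ 3 / 4} (by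
    intro x hx
    obtain ⟨h1, h2, h3⟩ := hx
    refine ⟨⟨?_, ?_⟩, ⟨?_, ?_⟩⟩
    · exact h1
    · change (0 : ℝ) ≤ x.2
      linarith
    · change x.1 ≤ (1 : ℝ)
      linarith
    · change x.2 ≤ (1 : ℝ)
      linarith)
  refine ⟨max M1 M2, ?_⟩
  intro H T hT h
  have hD := ar_pos T h
  have hdiv : ∀ z : ℂ, T.a2 h z / ar T h + T.a0 h z / ar T h = 1 - T.a1 h z / ar T h := by
    intro z
    have hsum := a_sum T h z
    field_simp
    linarith
  constructor
  · obtain ⟨F, h1, h2, h3⟩ := hM1 H T hT h (Rg T h) (by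
      intro x hx
      obtain ⟨x1, x2, x3⟩ := hx
      obtain ⟨c0, c1, c2⟩ := ph_coord16 T h x
      refine ⟨?_, ?_, ?_⟩
      · rw [c0]; positivity
      · rw [c1]; nlinarith
      · rw [c2]; nlinarith) (by
      intro z hz
      obtain ⟨z0, z1, z2⟩ := hz
      have hd := hdiv z
      have e1 : 1 / 4 ≤ T.a1 h z / ar T h := by rw [le_div_iff₀ hD]; linarith
      have e2 : 1 / 4 ≤ T.a2 h z / ar T h := by rw [le_div_iff₀ hD]; linarith
      refine ⟨div_nonneg z0 hD.le, e2, ?_⟩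
      change T.a2 h z / ar T h + T.a0 h z / ar T h ≤ 3 / 4
      linarith)
    exact ⟨F, le_trans h1 (le_max_left _ _), h2, h3⟩
  · obtain ⟨F, h1, h2, h3⟩ := hM2 H T hT h (Rp T h) (by
      intro x hx
      obtain ⟨x1, x2, x3⟩ := hx
      obtain ⟨c0, c1, c2⟩ := ph_coord16 T h x
      refine ⟨?_, ?_, ?_⟩
      · rw [c2]; positivity
      · rw [c0]; nlinarith
      · rw [c1]; nlinarith) (by
      intro z hz
      obtain ⟨z2, z0, z1⟩ := hz
      have hd := hdiv z
      have e1 : 1 / 4 ≤ T.a1 h z / ar T h := by rw [le_div_iff₀ hD]; linarith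
      have e2 : 1 / 4 ≤ T.a0 h z / ar T h := by rw [le_div_iff₀ hD]; linarith
      refine ⟨div_nonneg z2 hD.le, e2, ?_⟩
      change T.a2 h z / ar T h + T.a0 h z / ar T h ≤ 3 / 4
      linarith)
    exact ⟨F, le_trans h1 (le_max_right _ _), h2, h3⟩

end Pool.Agent.Helper21.H3
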