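import Pool.Agent.Helper21.H3.CornerF
import Pool.Agent.Helper21.H3.Geo

/-!
# MP_e98778_an (full), H3, block CUT: the cutoff functions `Th`

BLOCK TF-H3-CUT. Write `αᵢ = aᵢ / ar` (`α0 + α1 + α2 = 1`, all `≥ 0` on `Cl`), `Th = max 0 (min 1 (1 + 20 (α1 - max α0 α2)))`.
`α1` is the barycentric coordinate of the start of `h`, `α2` of the end of `h`, `α0` of the third
vertex.

`th_zero`: `α1 = 0` implies `max α0 α2 ≥ 1/2`.
`th_edge`: at `t vec h`: `α0 = 0, α2 = t, α1 = 1 - t` for `h`; for `sg h`: `α2 = 0, α0 = t, α1 = 1 - t`.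
`th_lip`: `aᵢ` is Lipschitz with constant `K`, `1/ar ≤ K`.
`th_grad`: if `grad (Th T h) z ≠ 0`, then `-1/20 ≤ α1 - max α0 α2 ≤ 0` (otherwise `Th` is constant near
`z`); if `α2 ≥ α0` then `3 α2 ≥ 1`, `α1 ≥ 1/3 - 1/20 ≥ 1/4`, so `z ∈ Rg`; otherwise `z ∈ Rp`.
`th_one`: the largest of `α0, α1, α2` (`α` of `next h` at `z - vec h` is the cyclic shift).
-/

set_option autoImplicit false

open MeasureTheory Set Pool.Agent.Helper87.LS Pool.Agent.Helper79.G Pool.Agent.Helper72.TF

namespace Pool.Agent.Helper21.H3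

variable {H : Type}

private theorem ar_pos (T : Tri H) (h : H) : 0 < ar T h := T.pos h

private theorem sum_vec (T : Tri H) (h : H) :
    T.vec (T.prev h) = -T.vec h - T.vec (T.next h) := by
  have := T.closed h
  rw [← sub_eq_zero]
  rw [← this]
  unfold Tri.prev
  ring

private theorem asum (T : Tri H) (h : H) (z : ℂ) : T.a0 h z + T.a1 h z + T.a2 h z = ar T h := by
  unfold Tri.a0 Tri.a1 Tri.a2 ar
  rw [sum_vec]
  simp only [cr, Complex.sub_re, Complex.sub_im, Complex.neg_re, Complex.neg_im]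
  ring

private theorem a0n (T : Tri H) (h : H) (z : ℂ) : T.a0 (T.next h) (z - T.vec h) = T.a1 h z := rfl

private theorem a1n (T : Tri H) (h : H) (z : ℂ) : T.a1 (T.next h) (z - T.vec h) = T.a2 h z := by
  have h1 := sum_vec T h
  unfold Tri.prev at h1
  unfold Tri.a1 Tri.a2 Tri.prev
  rw [h1]
  simp only [cr, Complex.sub_re, Complex.sub_im, Complex.neg_re, Complex.neg_im]
  ring

private theorem a2n (T : Tri H) (h : H) (z : ℂ) : T.a2 (T.next h) (z - T.vec h) = T.a0 h z := by
  unfold Tri.a2 Tri.a0 Tri.prev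
  rw [T.next3 h]
  simp only [cr, Complex.sub_re, Complex.sub_im]
  ring

private theorem arn (T : Tri H) (h : H) : ar T (T.next h) = ar T h := by
  have h1 := sum_vec T h
  unfold Tri.prev at h1
  unfold ar
  rw [h1]
  simp only [cr, Complex.sub_re, Complex.sub_im, Complex.neg_re, Complex.neg_im]
  ring

private theorem ar_sg (T : Tri H) (h : H) : ar T (sg T h) = ar T (T.opp h) := arn T (T.opp h)

/-- the values of the cutoff function -/
private theorem th_eq_one_of (T : Tri H) (h : H) {z : ℂ} (h0 : T.a0 h z ≤ T.a1 h z)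
    (h2 : T.a2 h z ≤ T.a1 h z) : Th T h z = 1 := by
  have har := ar_pos T h
  have h3 : 0 ≤ (T.a1 h z - max (T.a0 h z) (T.a2 h z)) / ar T h :=
    div_nonneg (sub_nonneg.2 (max_le h0 h2)) har.le
  unfold Th
  rw [min_eq_left (by linarith), max_eq_right zero_le_one]

private theorem th_eq_zero_of (T : Tri H) (h : H) {z : ℂ}
    (h0 : 20 * (T.a1 h z - max (T.a0 h z) (T.a2 h z)) ≤ -ar T h) : Th T h z = 0 := by
  have har := ar_pos T h
  have h3 : 20 * ((T.a1 h z - max (T.a0 h z) (T.a2 h z)) / ar T h) ≤ -1 := by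
    rw [← mul_div_assoc, div_le_iff₀ har]
    linarith
  unfold Th
  rw [max_eq_left]
  exact (min_le_right _ _).trans (by linarith)

private theorem lip_core (T : Tri H) (h : H) {K : ℝ} (hK : 0 < K) (h0 : ‖T.vec h‖ ≤ K)
    (h1 : ‖T.vec (T.next h)‖ ≤ K) (h2 : ‖T.vec (T.prev h)‖ ≤ K) (h3 : 1 / K ≤ ar T h) :
    LipschitzWith (Real.toNNReal (40 * K ^ 2)) (Th T h) := by
  have har := ar_pos T h
  refine LipschitzWith.of_dist_le' fun z w => ?_
  rw [Real.dist_eq, dist_eq_norm]
  have e0 : |T.a0 h z - T.a0 h w| ≤ K * ‖z - w‖ := by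
    have : T.a0 h z - T.a0 h w = cr (T.vec h) (z - w) := by
      unfold Tri.a0; rw [cr_sub_right]
    rw [this]
    exact (abs_cr_le _ _).trans (mul_le_mul_of_nonneg_right h0 (norm_nonneg _))
  have e1 : |T.a1 h z - T.a1 h w| ≤ K * ‖z - w‖ := by
    have : T.a1 h z - T.a1 h w = cr (T.vec (T.next h)) (z - w) := by
      unfold Tri.a1; rw [cr_sub_right, cr_sub_right, cr_sub_right]; ring
    rw [this]
    exact (abs_cr_le _ _).trans (mul_le_mul_of_nonneg_right h1 (norm_nonneg _))
  have e2 : |T.a2 h z - T.a2 h w| ≤ K * ‖z - w‖ := by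
    have : T.a2 h z - T.a2 h w = cr (T.vec (T.prev h)) (z - w) := by
      unfold Tri.a2; rw [cr_sub_right]
    rw [this]
    exact (abs_cr_le _ _).trans (mul_le_mul_of_nonneg_right h2 (norm_nonneg _))
  have e3 : |max (T.a0 h z) (T.a2 h z) - max (T.a0 h w) (T.a2 h w)| ≤ K * ‖z - w‖ :=
    (abs_max_sub_max_le_max _ _ _ _).trans (max_le e0 e2)
  set D : ℂ → ℝ := fun z => T.a1 h z - max (T.a0 h z) (T.a2 h z) with hD
  have e4 : |D z - D w| ≤ 2 * K * ‖z - w‖ := by
    have e5 : D z - D w = (T.a1 h z - T.a1 h w)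
        - (max (T.a0 h z) (T.a2 h z) - max (T.a0 h w) (T.a2 h w)) := by
      simp only [hD]; ring
    rw [e5]
    refine (abs_sub _ _).trans ?_
    linarith
  have e6 : |D z / ar T h - D w / ar T h| ≤ 2 * K ^ 2 * ‖z - w‖ := by
    rw [← sub_div, abs_div, abs_of_pos har, div_le_iff₀ har]
    have h5 : 1 ≤ ar T h * K := by rwa [div_le_iff₀ hK] at h3
    have h6 : 0 ≤ 2 * K * ‖z - w‖ := by positivity
    calc |D z - D w| ≤ 2 * K * ‖z - w‖ := e4
      _ ≤ 2 * K * ‖z - w‖ * (ar T h * K) := le_mul_of_one_le_right h6 h5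
      _ = 2 * K ^ 2 * ‖z - w‖ * ar T h := by ring
  have e7 : |(1 + 20 * (D z / ar T h)) - (1 + 20 * (D w / ar T h))| ≤ 40 * K ^ 2 * ‖z - w‖ := by
    have : (1 + 20 * (D z / ar T h)) - (1 + 20 * (D w / ar T h))
        = 20 * (D z / ar T h - D w / ar T h) := by ring
    rw [this, abs_mul, abs_of_pos (by norm_num : (0 : ℝ) < 20)]
    linarith
  have e8 : 0 ≤ 40 * K ^ 2 * ‖z - w‖ := by positivity
  have e9 : |min 1 (1 + 20 * (D z / ar T h)) - min 1 (1 + 20 * (D w / ar T h))|
      ≤ 40 * K ^ 2 * ‖z - w‖ := by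
    refine (abs_min_sub_min_le_max _ _ _ _).trans (max_le ?_ e7)
    rw [sub_self, abs_zero]; exact e8
  unfold Th
  refine (abs_max_sub_max_le_max _ _ _ _).trans (max_le ?_ e9)
  rw [sub_self, abs_zero]; exact e8

private theorem grad_le_of_lip {u : ℂ → ℝ} {C : NNReal} (hu : LipschitzWith C u) (z : ℂ) :
    ‖grad u z‖ ≤ 2 * C := by
  have h1 : ‖fderiv ℝ u z‖ ≤ C := norm_fderiv_le_of_lipschitz ℝ hu
  have h2 : |fderiv ℝ u z 1| ≤ C := by
    refine ((fderiv ℝ u z).le_opNorm 1).trans ?_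
    rw [norm_one, mul_one]; exact h1
  have h3 : |fderiv ℝ u z Complex.I| ≤ C := by
    refine ((fderiv ℝ u z).le_opNorm Complex.I).trans ?_
    rw [Complex.norm_I, mul_one]; exact h1
  refine (Complex.norm_le_abs_re_add_abs_im _).trans ?_
  unfold grad
  simp only
  linarith

private theorem grad_zero_of {u : ℂ → ℝ} {z : ℂ} {c : ℝ} (h : u =ᶠ[nhds z] fun _ => c) :
    grad u z = 0 := by
  unfold grad
  rw [h.fderiv_eq]
  simp only [fderiv_fun_const, Pi.zero_apply, ContinuousLinearMap.zero_apply]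
  rfl

private theorem cont_D (T : Tri H) (h : H) :
    Continuous fun z => T.a1 h z - max (T.a0 h z) (T.a2 h z) := by
  have hcr : ∀ a : ℂ, Continuous fun z : ℂ => cr a z := by
    intro a
    unfold cr
    exact (continuous_const.mul Complex.continuous_im).sub
      (continuous_const.mul Complex.continuous_re)
  have c0 : Continuous fun z => T.a0 h z := hcr _
  have c2 : Continuous fun z => T.a2 h z := hcr _
  have c1 : Continuous fun z => T.a1 h z :=
    (hcr (T.vec (T.next h))).comp (continuous_id.sub continuous_const)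
  exact c1.sub (c0.max c2)

theorem th_nonneg (T : Tri H) (h : H) (z : ℂ) : 0 ≤ Th T h z := by
  exact le_max_left _ _

theorem th_le_one (T : Tri H) (h : H) (z : ℂ) : Th T h z ≤ 1 := by
  exact max_le zero_le_one (min_le_left _ _)

theorem th_zero (T : Tri H) {h : H} {z : ℂ} (hz : z ∈ Cl T h) (h1 : T.a1 h z = 0) :
    Th T h z = 0 := by
  have hs := asum T h z
  obtain ⟨z0, -, z2⟩ := hz
  have har := ar_pos T h
  refine th_eq_zero_of T h ?_
  have m0 := le_max_left (T.a0 h z) (T.a2 h z)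
  have m2 := le_max_right (T.a0 h z) (T.a2 h z)
  linarith

theorem th_edge (T : Tri H) (h : H) {t : ℝ} (ht : t ∈ Icc (0 : ℝ) 1) :
    Th T (sg T h) (t * T.vec h) = Th T h (t * T.vec h) := by
  obtain ⟨t0, t1⟩ := ht
  have har := ar_pos T h
  have har' := ar_pos T (sg T h)
  have key : ∀ g : H, 0 < ar T g → ∀ z : ℂ, T.a1 g z = (1 - t) * ar T g →
      max (T.a0 g z) (T.a2 g z) = t * ar T g →
      Th T g z = max 0 (min 1 (1 + 20 * (1 - 2 * t))) := by
    intro g hg z h1 h2
    unfold Th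
    rw [h1, h2]
    congr 4
    field_simp
    ring
  have hcl := sum_vec T h
  have a0h : T.a0 h (t * T.vec h) = 0 := by
    unfold Tri.a0
    rw [cr_mul_right, cr_self, mul_zero]
  have a2h : T.a2 h (t * T.vec h) = t * ar T h := by
    unfold Tri.a2 ar
    rw [cr_mul_right, hcl]
    simp only [cr, Complex.sub_re, Complex.sub_im, Complex.neg_re, Complex.neg_im]
    ring
  have a1h : T.a1 h (t * T.vec h) = (1 - t) * ar T h := by
    have := asum T h (t * T.vec h)
    rw [a0h, a2h] at this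
    linarith
  have a2s : T.a2 (sg T h) (t * T.vec h) = 0 := by
    unfold Tri.a2 Tri.prev sg
    rw [T.next3, T.vec_opp, cr_mul_right]
    simp only [cr, Complex.neg_re, Complex.neg_im]
    ring
  have a0s : T.a0 (sg T h) (t * T.vec h) = t * ar T (sg T h) := by
    rw [ar_sg]
    unfold Tri.a0 ar sg
    rw [cr_mul_right, T.vec_opp]
    simp only [cr, Complex.neg_re, Complex.neg_im]
    ring
  have a1s : T.a1 (sg T h) (t * T.vec h) = (1 - t) * ar T (sg T h) := by
    have := asum T (sg T h) (t * T.vec h)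
    rw [a0s, a2s] at this
    linarith
  rw [key _ har' _ a1s ?_, key _ har _ a1h ?_]
  · rw [a0h, a2h, max_eq_right (by positivity)]
  · rw [a0s, a2s, max_eq_left (by positivity)]

theorem th_lip (T : Tri H) (h : H) : ∃ C : NNReal, LipschitzWith C (Th T h) := by
  have har := ar_pos T h
  set K : ℝ := ‖T.vec h‖ + ‖T.vec (T.next h)‖ + ‖T.vec (T.prev h)‖ + 1 / ar T h with hKdef
  have p0 := norm_nonneg (T.vec h)
  have p1 := norm_nonneg (T.vec (T.next h))
  have p2 := norm_nonneg (T.vec (T.prev h))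
  have p3 : 0 < 1 / ar T h := by positivity
  have hK : 0 < K := by linarith
  refine ⟨_, lip_core T h hK (by linarith) (by linarith) (by linarith) ?_⟩
  rw [div_le_iff₀ hK]
  have : 1 / ar T h ≤ K := by linarith
  rw [div_le_iff₀ har] at this
  linarith

theorem th_grad_le {T : Tri H} {K : ℝ} (hT : Tame T K) (h : H) (z : ℂ) :
    ‖grad (Th T h) z‖ ≤ 100 * K ^ 2 := by
  have har := ar_pos T h
  have hK : 0 < K := by
    by_contra hcon
    push Not at hcon
    have h0 : T.vec h = 0 := by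
      have := hT.1 h
      exact norm_le_zero_iff.1 (this.trans hcon)
    have h1 : ar T h = 0 := by
      unfold ar; rw [h0]; simp [cr]
    linarith
  have hL := lip_core T h hK (hT.1 _) (hT.1 _) (hT.1 _) (hT.2 _)
  have h1 := grad_le_of_lip hL z
  rw [Real.coe_toNNReal _ (by positivity)] at h1
  nlinarith [sq_nonneg K]

theorem th_grad (T : Tri H) {h : H} {z : ℂ} (hz : z ∈ Op T h) (h1 : z ∉ Rg T h)
    (h2 : z ∉ Rp T h) : grad (Th T h) z = 0 := by
  have har := ar_pos T h
  obtain ⟨z0, z1, z2⟩ := hz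
  have hs := asum T h z
  have hc := cont_D T h
  rcases lt_or_ge 0 (T.a1 h z - max (T.a0 h z) (T.a2 h z)) with hD | hD
  · refine grad_zero_of (c := 1) ?_
    filter_upwards [hc.continuousAt.eventually (lt_mem_nhds hD)] with w hw
    have m0 := le_max_left (T.a0 h w) (T.a2 h w)
    have m2 := le_max_right (T.a0 h w) (T.a2 h w)
    exact th_eq_one_of T h (by linarith) (by linarith)
  rcases lt_or_ge (20 * (T.a1 h z - max (T.a0 h z) (T.a2 h z))) (-ar T h) with hD2 | hD2
  · refine grad_zero_of (c := 0) ?_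
    filter_upwards [(hc.const_mul 20).continuousAt.eventually (gt_mem_nhds hD2)] with w hw
    exact th_eq_zero_of T h hw.le
  exfalso
  rcases le_total (T.a0 h z) (T.a2 h z) with hle | hle
  · rw [max_eq_right hle] at hD hD2
    exact h1 ⟨le_of_lt z0, by linarith, by linarith⟩
  · rw [max_eq_left hle] at hD hD2
    exact h2 ⟨le_of_lt z2, by linarith, by linarith⟩

theorem th_one (T : Tri H) {h : H} {z : ℂ} (hz : z ∈ Cl T h) :
    Th T h z = 1 ∨ Th T (T.next h) (z - T.vec h) = 1 ∨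
      Th T (T.next (T.next h)) (z - T.vec h - T.vec (T.next h)) = 1 := by
  have e0 := a0n T h z
  have e1 := a1n T h z
  have e2 := a2n T h z
  have f0 := a0n T (T.next h) (z - T.vec h)
  have f1 := a1n T (T.next h) (z - T.vec h)
  have f2 := a2n T (T.next h) (z - T.vec h)
  rw [e1] at f0
  rw [e2] at f1
  rw [e0] at f2
  by_cases h0 : T.a0 h z ≤ T.a1 h z
  · by_cases h2 : T.a2 h z ≤ T.a1 h z
    · exact Or.inl (th_eq_one_of T h h0 h2)
    · push Not at h2
      refine Or.inr (Or.inl (th_eq_one_of T _ ?_ ?_))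
      · rw [e0, e1]; exact h2.le
      · rw [e1, e2]; linarith
  · push Not at h0
    by_cases h2 : T.a2 h z ≤ T.a0 h z
    · refine Or.inr (Or.inr (th_eq_one_of T _ ?_ ?_))
      · rw [f0, f1]; exact h2
      · rw [f1, f2]; exact h0.le
    · push Not at h2
      refine Or.inr (Or.inl (th_eq_one_of T _ ?_ ?_))
      · rw [e0, e1]; linarith
      · rw [e1, e2]; exact h2.le

end Pool.Agent.Helper21.H3
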