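import Pool.Agent.Helper72.TF.Core

/-!
# MP_e98778_an (full), module H3 (the gap lemma): definitions

All positions are relative to the start of the dart `h`. `sg h = next (opp h)` is the next dart
around the starting vertex of `h`; the triangle of `sg h` is the triangle on the other side of the
edge `h`, and it has the same origin. The kite of `h` is the union of both.
-/

set_option autoImplicit false

open MeasureTheory Set Pool.Agent.Helper87.LS Pool.Agent.Helper79.G Pool.Agent.Helper72.TF

namespace Pool.Agent.Helper21.H3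

noncomputable section

variable {H : Type}

/-- The closed square with centre `p` and half side `r`. -/
def Sq (p : ℂ) (r : ℝ) : Set ℂ := {z | |z.re - p.re| ≤ r ∧ |z.im - p.im| ≤ r}

/-- The form `x + df` on the triangle of `h`. -/
def et (T : Tri H) (x : H → ℝ) (f : H → ℂ → ℝ) (h : H) (z : ℂ) : ℂ :=
  omega T x h + grad (f h) z

/-- The potential of the form `x + df` on the triangle of `h`. -/
def pot (T : Tri H) (x : H → ℝ) (f : H → ℂ → ℝ) (h : H) (z : ℂ) : ℝ :=
  dot (omega T x h) z + f h z

/-- The next dart around the starting vertex of `h`. -/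
def sg (T : Tri H) (h : H) : H := T.next (T.opp h)

/-- The potential on the kite of `h`. -/
def mg (T : Tri H) (x : H → ℝ) (f : H → ℂ → ℝ) (h : H) (z : ℂ) : ℝ :=
  if 0 ≤ T.a0 h z then pot T x f h z else pot T x f (sg T h) z

/-- The interior of the kite of `h`. -/
def Kt (T : Tri H) (h : H) : Set ℂ :=
  {z | (0 ≤ T.a0 h z ∧ 0 < T.a1 h z ∧ 0 < T.a2 h z) ∨
    (T.a0 h z ≤ 0 ∧ 0 < T.a0 (sg T h) z ∧ 0 < T.a1 (sg T h) z)}

/-- Families of functions at the corners: `g h` is a function on the triangle of `h`, zero on the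
side opposite to the start of `h`, and continuous around the starting vertex. -/
structure Corner (T : Tri H) (g : H → ℂ → ℝ) : Prop where
  lip : ∃ C : NNReal, ∀ h, LipschitzOnWith C (g h) (Cl T h)
  zero : ∀ h, ∀ z ∈ Cl T h, T.a1 h z = 0 → g h z = 0
  edge : ∀ h, ∀ t ∈ Icc (0 : ℝ) 1, g (sg T h) (t * T.vec h) = g h (t * T.vec h)

/-- The function on the surface which is the sum of a family of corner functions. -/
def sumC (T : Tri H) (g : H → ℂ → ℝ) (h : H) (z : ℂ) : ℝ :=
  g h z + g (T.next h) (z - T.vec h) + g (T.next (T.next h)) (z - T.vec h - T.vec (T.next h))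

/-- The form `x + df` is harmonic up to `κ` (tested with corner families). -/
def NH [Fintype H] (T : Tri H) (x : H → ℝ) (f : H → ℂ → ℝ) (κ : ℝ) : Prop :=
  ∀ g, Corner T g → |∑ h, ∫ z in Op T h, dot (et T x f h z) (grad (g h) z)| ≤
    κ * Real.sqrt (∑ h, ∫ z in Op T h, ‖grad (g h) z‖ ^ 2)

/-- The energy of the horizontal part. -/
def eA [Fintype H] (T : Tri H) (x : H → ℝ) (f : H → ℂ → ℝ) : ℝ :=
  ∑ h, ∫ z in Op T h, (et T x f h z).re ^ 2

/-- The energy of the vertical part. -/
def eB [Fintype H] (T : Tri H) (x : H → ℝ) (f : H → ℂ → ℝ) : ℝ :=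
  ∑ h, ∫ z in Op T h, (et T x f h z).im ^ 2

/-- Bounds for the edges and the areas. -/
def Tame (T : Tri H) (K : ℝ) : Prop := (∀ h, ‖T.vec h‖ ≤ K) ∧ ∀ h, 1 / K ≤ ar T h

/-- The part of the triangle of `h` near the middle of the edge `h`. -/
def Rg (T : Tri H) (h : H) : Set ℂ :=
  {z | 0 ≤ T.a0 h z ∧ ar T h / 4 ≤ T.a1 h z ∧ ar T h / 4 ≤ T.a2 h z}

/-- The part of the triangle of `h` near the middle of the edge `prev h`. -/
def Rp (T : Tri H) (h : H) : Set ℂ :=
  {z | 0 ≤ T.a2 h z ∧ ar T h / 4 ≤ T.a0 h z ∧ ar T h / 4 ≤ T.a1 h z}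

/-- The centre of the triangle. -/
def cen (T : Tri H) (h : H) : ℂ := (2 * T.vec h + T.vec (T.next h)) / 3

/-- The middle of the edge. -/
def mid (T : Tri H) (h : H) : ℂ := T.vec h / 2

/-- The cutoff functions: `1` on the dual cell of the start of `h`, `0` away from it. -/
def Th (T : Tri H) (h : H) (z : ℂ) : ℝ :=
  max 0 (min 1 (1 + 20 * ((T.a1 h z - max (T.a0 h z) (T.a2 h z)) / ar T h)))

end

end Pool.Agent.Helper21.H3
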