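import Pool.Agent.Helper21.H3.Loc
import Pool.Agent.Helper21.H3.Cacc
import Pool.Agent.Helper21.H3.Comb

/-!
# MP_e98778_an (full), H3, block GLUE (helper21): the form is near to a constant vertical form
-/

set_option autoImplicit false

open MeasureTheory Set Pool.Agent.Helper87.LS Pool.Agent.Helper79.G Pool.Agent.Helper72.TF

namespace Pool.Agent.Helper21.H3

variable {H : Type}

theorem recon (T : Tri H) (h : H) (z : ℂ) :
    (ar T h : ℂ) * z = (T.a2 h z : ℂ) * T.vec h + (T.a0 h z : ℂ) * (T.vec h + T.vec (T.next h)) := by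
  have h1 := T.closed h
  have h2 : T.vec (T.next (T.next h)) = -(T.vec h + T.vec (T.next h)) := by linear_combination h1
  simp only [Tri.a2, Tri.a0, ar, cr, Tri.prev, h2]
  apply Complex.ext
  · simp only [Complex.mul_re, Complex.add_re, Complex.ofReal_re, Complex.ofReal_im,
      Complex.neg_re, Complex.neg_im, Complex.add_im]
    ring
  · simp only [Complex.mul_im, Complex.add_re, Complex.ofReal_re, Complex.ofReal_im,
      Complex.neg_re, Complex.neg_im, Complex.add_im]
    ring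

theorem mg_eq (T : Tri H) (x : H → ℝ) (f : H → ℂ → ℝ) (h : H) {z : ℂ} (hz : 0 ≤ T.a0 h z) :
    mg T x f h z = pot T x f h z := by
  unfold mg
  rw [if_pos hz]

theorem mg_eq_sg (T : Tri H) {x : H → ℝ} (hx : x ∈ Coch T) {f : H → ℂ → ℝ} (hf : Fn T f) (h : H)
    {z : ℂ} (hz : z ∈ Cl T (sg T h)) : mg T x f h z = pot T x f (sg T h) z := by
  unfold mg
  split_ifs with h0
  · obtain ⟨z0, z1, z2⟩ := hz
    rw [a2_sg] at z2
    have h3 : T.a0 h z = 0 := le_antisymm (by linarith) h0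
    have h4 := recon T h z
    rw [h3] at h4
    have har : 0 < ar T h := T.pos h
    have har' : (ar T h : ℂ) ≠ 0 := by exact_mod_cast har.ne'
    have h5 : z = ((T.a2 h z / ar T h : ℝ) : ℂ) * T.vec h := by
      push_cast
      field_simp
      rw [mul_comm z]
      rw [h4]; push_cast; ring
    set t := T.a2 h z / ar T h with ht
    have h6 : T.vec (T.prev (sg T h)) = -T.vec h := by
      simp only [Tri.prev, sg]
      rw [T.next3, T.vec_opp]
    have h7 : T.a0 (sg T h) z = t * ar T (sg T h) := by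
      rw [h5]
      have h8 := T.closed (sg T h)
      rw [show T.next (T.next (sg T h)) = T.prev (sg T h) from rfl, h6] at h8
      have h9 : T.vec h = T.vec (sg T h) + T.vec (T.next (sg T h)) := by linear_combination -h8
      simp only [Tri.a0, ar, cr]
      rw [h9]
      simp only [Complex.mul_re, Complex.mul_im, Complex.ofReal_re, Complex.ofReal_im,
        Complex.add_re, Complex.add_im]
      ring
    have h10 : T.a1 (sg T h) z = (1 - t) * ar T (sg T h) := by
      have h11 := a_sum T (sg T h) z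
      rw [a2_sg, h3, h7] at h11
      linarith
    have har2 : 0 < ar T (sg T h) := T.pos _
    have ht0 : 0 ≤ t := by
      rw [h7] at z0
      by_contra hc
      push Not at hc
      have := mul_neg_of_neg_of_pos hc har2
      linarith
    have ht1 : t ≤ 1 := by
      rw [h10] at z1
      by_contra hc
      push Not at hc
      have := mul_neg_of_neg_of_pos (by linarith : 1 - t < 0) har2
      linarith
    rw [h5]
    exact (pot_sg T hx hf h ⟨ht0, ht1⟩).symm
  · rfl

theorem vol_Op {T : Tri H} {K : ℝ} (hT : Tame T K) (h : H) :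
    volume.real (Op T h) ≤ volume.real (Metric.closedBall (0 : ℂ) (2 * K)) := by
  apply measureReal_mono
  · intro z hz
    rw [mem_closedBall_zero_iff]
    exact norm_le_of_Cl hT (Op_sub_Cl T h hz)
  · exact Metric.isBounded_closedBall.measure_lt_top.ne

theorem fin_Op (T : Tri H) (h : H) : volume (Op T h) ≠ ⊤ :=
  ((isBounded_Cl T h).subset (Op_sub_Cl T h)).measure_lt_top.ne

/-- Bounded measurable functions are integrable on the triangles. -/
theorem int_Op (T : Tri H) (h : H) {u : ℂ → ℝ} {B : ℝ}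
    (hm : AEStronglyMeasurable u (volume.restrict (Op T h))) (hB : ∀ z ∈ Op T h, |u z| ≤ B) :
    IntegrableOn u (Op T h) := by
  have : IsFiniteMeasure (volume.restrict (Op T h)) :=
    ⟨by rw [Measure.restrict_apply_univ]; exact (fin_Op T h).lt_top⟩
  refine ⟨hm, HasFiniteIntegral.of_bounded (C := B) ?_⟩
  rw [ae_restrict_iff' (isOpen_Op T h).measurableSet]
  exact Filter.Eventually.of_forall fun z hz => by rw [Real.norm_eq_abs]; exact hB z hz

theorem measurable_et (T : Tri H) (x : H → ℝ) (f : H → ℂ → ℝ) (h : H) :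
    Measurable (et T x f h) := by
  unfold et
  exact measurable_const.add (measurable_grad _)

theorem et_bound (T : Tri H) (x : H → ℝ) {f : H → ℂ → ℝ} (hf : Fn T f) (h : H) :
    ∃ B : ℝ, 0 ≤ B ∧ ∀ z ∈ Op T h, ‖et T x f h z‖ ≤ B := by
  obtain ⟨C, hC⟩ := hf.lip
  refine ⟨‖omega T x h‖ + 2 * C, by positivity, fun z hz => ?_⟩
  unfold et
  exact (norm_add_le _ _).trans (by gcongr; exact grad_bound (hC h) hz)

/-- The weighted square norms are integrable. -/
theorem int_wt (T : Tri H) (x : H → ℝ) {f : H → ℂ → ℝ} (hf : Fn T f) (h : H) {w : ℂ → ℝ} {D : ℝ}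
    (hw : Continuous w) (hD : ∀ z, |w z| ≤ D) (a : ℂ) :
    IntegrableOn (fun z => w z * ‖et T x f h z - a‖ ^ 2) (Op T h) := by
  obtain ⟨B, hB0, hB⟩ := et_bound T x hf h
  have hD0 : 0 ≤ D := (abs_nonneg _).trans (hD 0)
  refine int_Op T h (B := D * (B + ‖a‖) ^ 2) ?_ ?_
  · exact (hw.measurable.mul (((measurable_et T x f h).sub_const a).norm.pow_const 2)).aestronglyMeasurable
  · intro z hz
    rw [abs_mul, abs_of_nonneg (sq_nonneg ‖et T x f h z - a‖)]
    gcongr
    · exact hD z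
    · exact (norm_sub_le _ _).trans (by gcongr; exact hB z hz)

theorem pot_cont (T : Tri H) (x : H → ℝ) {f : H → ℂ → ℝ} (hf : Fn T f) (h : H) :
    ContinuousOn (pot T x f h) (Cl T h) := by
  obtain ⟨C, hC⟩ := hf.lip
  unfold pot
  refine ContinuousOn.add ?_ (hC h).continuousOn
  unfold dot
  exact Continuous.continuousOn (by fun_prop)

theorem isCompact_Cl (T : Tri H) (h : H) : IsCompact (Cl T h) :=
  Metric.isCompact_of_isClosed_isBounded (isClosed_Cl T h) (isBounded_Cl T h)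

/-- Squares of affine corrections of the potential are integrable on the closed triangle. -/
theorem int_pot (T : Tri H) (x : H → ℝ) {f : H → ℂ → ℝ} (hf : Fn T f) (h : H) (m c : ℝ) :
    IntegrableOn (fun z => (pot T x f h z - (m * z.im + c)) ^ 2) (Cl T h) := by
  refine ContinuousOn.integrableOn_compact (isCompact_Cl T h) ?_
  refine ((pot_cont T x hf h).sub ?_).pow 2
  exact Continuous.continuousOn (by fun_prop)

theorem isClosed_Rg (T : Tri H) (h : H) : IsClosed (Rg T h) := by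
  have h0 : Continuous (T.a0 h) := by unfold Tri.a0 cr; fun_prop
  have h1 : Continuous (T.a1 h) := by unfold Tri.a1 cr; fun_prop
  have h2 : Continuous (T.a2 h) := by unfold Tri.a2 cr; fun_prop
  unfold Rg
  exact (isClosed_le continuous_const h0).inter
    ((isClosed_le continuous_const h1).inter (isClosed_le continuous_const h2))

theorem isClosed_Rp (T : Tri H) (h : H) : IsClosed (Rp T h) := by
  have h0 : Continuous (T.a0 h) := by unfold Tri.a0 cr; fun_prop
  have h1 : Continuous (T.a1 h) := by unfold Tri.a1 cr; fun_prop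
  have h2 : Continuous (T.a2 h) := by unfold Tri.a2 cr; fun_prop
  unfold Rp
  exact (isClosed_le continuous_const h2).inter
    ((isClosed_le continuous_const h0).inter (isClosed_le continuous_const h1))

theorem isClosed_Sq (p : ℂ) (r : ℝ) : IsClosed (Sq p r) := by
  have h1 : Continuous fun z : ℂ => |z.re - p.re| := by fun_prop
  have h2 : Continuous fun z : ℂ => |z.im - p.im| := by fun_prop
  unfold Sq
  exact (isClosed_le h1 continuous_const).inter (isClosed_le h2 continuous_const)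

theorem isCompact_Sq (p : ℂ) (r : ℝ) : IsCompact (Sq p r) := by
  refine Metric.isCompact_of_isClosed_isBounded (isClosed_Sq p r) ?_
  refine (Metric.isBounded_closedBall (x := p) (r := 2 * r)).subset ?_
  intro z hz
  rw [mem_closedBall_iff_norm]
  calc ‖z - p‖ ≤ |(z - p).re| + |(z - p).im| := Complex.norm_le_abs_re_add_abs_im _
    _ ≤ r + r := add_le_add (by simpa using hz.1) (by simpa using hz.2)
    _ = 2 * r := by ring

/-- Summing over a finite cover. -/
theorem cover_sum {R : Set ℂ} {F : Finset ℂ} {ρ : ℝ} (hR : MeasurableSet R)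
    (hF : R ⊆ ⋃ p ∈ F, Sq p ρ) {u v : ℂ → ℝ} (hv : ∀ z, 0 ≤ v z) (huv : ∀ z ∈ R, u z ≤ v z)
    (hi : ∀ p ∈ F, IntegrableOn v (Sq p ρ)) {B : ℝ} (hB : ∀ p ∈ F, ∫ z in Sq p ρ, v z ≤ B) :
    ∫ z in R, u z ≤ F.card * B := by
  classical
  have h1 : IntegrableOn v (⋃ p ∈ F, Sq p ρ) := by
    rw [integrableOn_finset_iUnion]
    exact hi
  calc ∫ z in R, u z ≤ ∫ z in R, v z := by
        by_cases hui : IntegrableOn u R
        · exact setIntegral_mono_on hui (h1.mono_set hF) hR huv
        · rw [integral_undef hui]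
          exact integral_nonneg hv
    _ ≤ ∫ z in (⋃ p ∈ F, Sq p ρ), v z :=
        setIntegral_mono_set h1 (Filter.Eventually.of_forall hv) hF.eventuallyLE
    _ ≤ ∑ p ∈ F, ∫ z in Sq p ρ, v z := by
        clear hB hF
        induction F using Finset.induction_on with
        | empty => simp
        | insert a s has ih =>
          rw [Finset.set_biUnion_insert, Finset.sum_insert has]
          have hs : IntegrableOn v (⋃ p ∈ s, Sq p ρ) :=
            h1.mono_set (by rw [Finset.set_biUnion_insert]; exact subset_union_right)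
          have ha : IntegrableOn v (Sq a ρ) := hi a (Finset.mem_insert_self _ _)
          have ih' := ih (fun p hp => hi p (Finset.mem_insert_of_mem hp)) hs
          calc ∫ z in Sq a ρ ∪ ⋃ p ∈ s, Sq p ρ, v z
              ≤ (∫ z in Sq a ρ, v z) + ∫ z in ⋃ p ∈ s, Sq p ρ, v z := by
                rw [← union_sdiff_self, setIntegral_union disjoint_sdiff_right
                  ((s.measurableSet_biUnion fun p _ => (isClosed_Sq p ρ).measurableSet).diff
                    (isClosed_Sq a ρ).measurableSet) ha (hs.mono_set sdiff_subset)]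
                have h9 : ∫ z in (⋃ p ∈ s, Sq p ρ) \ Sq a ρ, v z ≤ ∫ z in ⋃ p ∈ s, Sq p ρ, v z :=
                  setIntegral_mono_set hs (Filter.Eventually.of_forall hv)
                    sdiff_subset.eventuallyLE
                linarith
            _ ≤ _ := by gcongr
    _ ≤ ∑ p ∈ F, B := Finset.sum_le_sum hB
    _ = F.card * B := by rw [Finset.sum_const, nsmul_eq_mul]

theorem mg_cont [Finite H] (T : Tri H) {x : H → ℝ} (hx : x ∈ Coch T) {f : H → ℂ → ℝ}
    (hf : Fn T f) {h : H} {p : ℂ} {ρ : ℝ} (hp : Sq p ρ ⊆ Kt T h) :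
    ContinuousOn (mg T x f h) (Sq p ρ) := by
  obtain ⟨C, hC⟩ := mg_lip T hx hf hp
  exact hC.continuousOn

/-- One of the two parts of the tube. -/
theorem tube_part [Finite H] (T : Tri H) {x : H → ℝ} (hx : x ∈ Coch T) {f : H → ℂ → ℝ}
    (hf : Fn T f) {K ρ CA δ D E : ℝ}
    (hA : ∀ p : ℂ, ‖p‖ ≤ 2 * K → ∀ V : ℂ → ℝ, ContinuousOn V (Sq p ρ) → ∀ δ : ℝ, 0 ≤ δ →
      ∀ m c m' c' : ℝ, (∫ z in Sq p ρ, (V z - (m * z.im + c)) ^ 2) ≤ δ ^ 2 →
        |m - m'| ≤ D * δ → |c - c'| ≤ D * δ →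
        (∫ z in Sq p ρ, (V z - (m' * z.im + c')) ^ 2) ≤ CA * δ ^ 2)
    (hδ : 0 ≤ δ) (hE : E ≤ δ ^ 2) {h k : H} {R : Set ℂ} (hRm : MeasurableSet R) {M : ℕ}
    {F : Finset ℂ} (hFM : F.card ≤ M) (hFR : R ⊆ ⋃ p ∈ F, Sq p ρ)
    (hFK : ∀ p ∈ F, Sq p ρ ⊆ Kt T h) (hFn : ∀ p ∈ F, ‖p‖ ≤ 2 * K)
    (hRe : ∀ z ∈ R, pot T x f k z = mg T x f h z) {m c m' c' : ℝ} (hCA : 0 ≤ CA)
    (hloc : ∀ p ∈ F, (∫ z in Sq p ρ, (mg T x f h z - (m * z.im + c)) ^ 2) ≤ E)
    (hm : |m - m'| ≤ D * δ) (hc : |c - c'| ≤ D * δ) :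
    ∫ z in R, (pot T x f k z - (m' * z.im + c')) ^ 2 ≤ M * (CA * δ ^ 2) := by
  have h1 := cover_sum (u := fun z => (pot T x f k z - (m' * z.im + c')) ^ 2)
    (v := fun z => (mg T x f h z - (m' * z.im + c')) ^ 2) hRm hFR (fun z => sq_nonneg _)
    (fun z hz => by simp only [hRe z hz]; exact le_refl _)
    (fun p hp => ContinuousOn.integrableOn_compact (isCompact_Sq p ρ)
      (((mg_cont T hx hf (hFK p hp)).sub (Continuous.continuousOn (by fun_prop))).pow 2))
    (B := CA * δ ^ 2)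
    (fun p hp => hA p (hFn p hp) _ (mg_cont T hx hf (hFK p hp)) δ hδ m c m' c'
      ((hloc p hp).trans hE) hm hc)
  refine h1.trans ?_
  have h2 : (F.card : ℝ) ≤ M := by exact_mod_cast hFM
  have h3 : 0 ≤ CA * δ ^ 2 := by positivity
  gcongr

theorem sg_surj (T : Tri H) (h : H) : sg T (T.opp (T.next (T.next h))) = h := by
  unfold sg
  rw [T.opp2, T.next3]

/-- The tube part of the Caccioppoli inequality. -/
theorem tube [Finite H] {T : Tri H} {K : ℝ} (hT : Tame T K) {x : H → ℝ} (hx : x ∈ Coch T)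
    {f : H → ℂ → ℝ} (hf : Fn T f) {CA δ D E : ℝ} {M : ℕ}
    (hM : ∀ h : H, (∃ F : Finset ℂ, F.card ≤ M ∧ (∀ p ∈ F, p ∈ Rg T h) ∧
        Rg T h ⊆ ⋃ p ∈ F, Sq p (1 / (32 * K ^ 2))) ∧
      (∃ F : Finset ℂ, F.card ≤ M ∧ (∀ p ∈ F, p ∈ Rp T h) ∧
        Rp T h ⊆ ⋃ p ∈ F, Sq p (1 / (32 * K ^ 2))))
    (hA : ∀ p : ℂ, ‖p‖ ≤ 2 * K → ∀ V : ℂ → ℝ, ContinuousOn V (Sq p (1 / (32 * K ^ 2))) →
      ∀ δ : ℝ, 0 ≤ δ → ∀ m c m' c' : ℝ,
        (∫ z in Sq p (1 / (32 * K ^ 2)), (V z - (m * z.im + c)) ^ 2) ≤ δ ^ 2 →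
        |m - m'| ≤ D * δ → |c - c'| ≤ D * δ →
        (∫ z in Sq p (1 / (32 * K ^ 2)), (V z - (m' * z.im + c')) ^ 2) ≤ CA * δ ^ 2)
    (hCA : 0 ≤ CA) (hδ : 0 ≤ δ) (hE : E ≤ δ ^ 2) {m c m' c' : H → ℝ}
    (h1 : ∀ h, ∀ p ∈ Rg T h, (∫ z in Sq p (1 / (32 * K ^ 2)),
          (mg T x f h z - (m h * z.im + c h)) ^ 2) ≤ E)
    (h2 : ∀ h, ∀ p ∈ Rp T (sg T h), (∫ z in Sq p (1 / (32 * K ^ 2)),
          (mg T x f h z - (m h * z.im + c h)) ^ 2) ≤ E)
    (hm : ∀ h, |m h - m' h| ≤ D * δ) (hc : ∀ h, |c h - c' h| ≤ D * δ)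
    (hm' : ∀ h, m' (sg T h) = m' h) (hc' : ∀ h, c' (sg T h) = c' h) (h : H) :
    ∫ z in Op T h, (pot T x f h z - (m' h * z.im + c' h)) ^ 2 * ‖grad (Th T h) z‖ ^ 2 ≤
      (100 * K ^ 2) ^ 2 * (2 * (M * (CA * δ ^ 2))) := by
  obtain ⟨⟨F, hF1, hF2, hF3⟩, F', hF1', hF2', hF3'⟩ := hM h
  set P : ℂ → ℝ := fun z => (pot T x f h z - (m' h * z.im + c' h)) ^ 2 with hP
  have hP0 : ∀ z, 0 ≤ P z := fun z => sq_nonneg _
  have i1 : ∫ z in Rg T h, P z ≤ M * (CA * δ ^ 2) :=
    tube_part T hx hf hA hδ hE (h := h) (k := h) (isClosed_Rg T h).measurableSet hF1 hF3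
      (fun p hp => sq_sub_Rg hT (hF2 p hp))
      (fun p hp => norm_le_of_Cl hT (Rg_sub_Cl T h (hF2 p hp)))
      (fun z hz => (mg_eq T x f h hz.1).symm) hCA (fun p hp => h1 h p (hF2 p hp)) (hm h) (hc h)
  obtain ⟨k, hk⟩ : ∃ k, sg T k = h := ⟨_, sg_surj T h⟩
  have i2 : ∫ z in Rp T h, P z ≤ M * (CA * δ ^ 2) := by
    have e1 : m' h = m' k := by rw [← hk]; exact hm' k
    have e2 : c' h = c' k := by rw [← hk]; exact hc' k
    simp only [hP]
    rw [e1, e2]
    refine tube_part T hx hf hA hδ hE (h := k) (k := h) (isClosed_Rp T h).measurableSet hF1' hF3'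
      (fun p hp => sq_sub_Rp hT (by rw [hk]; exact hF2' p hp))
      (fun p hp => norm_le_of_Cl hT (Rp_sub_Cl T h (hF2' p hp)))
      (fun z hz => ?_) hCA (fun p hp => h2 k p (by rw [hk]; exact hF2' p hp)) (hm k) (hc k)
    have := mg_eq_sg T hx hf k (z := z) (by rw [hk]; exact Rp_sub_Cl T h hz)
    rw [this, hk]
  have hPi : IntegrableOn P (Cl T h) := int_pot T x hf h _ _
  have hle : ∀ z ∈ Op T h, P z * ‖grad (Th T h) z‖ ^ 2 ≤
      (100 * K ^ 2) ^ 2 * ((Rg T h).indicator P z + (Rp T h).indicator P z) := by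
    intro z hz
    have hg : ‖grad (Th T h) z‖ ^ 2 ≤ (100 * K ^ 2) ^ 2 := by
      gcongr
      exact th_grad_le hT h z
    have n1 : 0 ≤ (Rg T h).indicator P z := indicator_nonneg (fun z _ => hP0 z) z
    have n2 : 0 ≤ (Rp T h).indicator P z := indicator_nonneg (fun z _ => hP0 z) z
    by_cases z1 : z ∈ Rg T h
    · rw [indicator_of_mem z1]
      calc P z * ‖grad (Th T h) z‖ ^ 2 ≤ P z * (100 * K ^ 2) ^ 2 := by
            gcongr
        _ = (100 * K ^ 2) ^ 2 * P z := by ring
        _ ≤ _ := by gcongr; linarith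
    · by_cases z2 : z ∈ Rp T h
      · rw [indicator_of_mem z2]
        calc P z * ‖grad (Th T h) z‖ ^ 2 ≤ P z * (100 * K ^ 2) ^ 2 := by
              gcongr
          _ = (100 * K ^ 2) ^ 2 * P z := by ring
          _ ≤ _ := by gcongr; linarith
      · rw [th_grad T hz z1 z2, norm_zero]
        have : 0 ≤ (100 * K ^ 2) ^ 2 * ((Rg T h).indicator P z + (Rp T h).indicator P z) := by
          positivity
        simpa using this
  have j1 : IntegrableOn ((Rg T h).indicator P) (Op T h) := by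
    rw [IntegrableOn, integrable_indicator_iff (isClosed_Rg T h).measurableSet, IntegrableOn,
      Measure.restrict_restrict (isClosed_Rg T h).measurableSet]
    exact hPi.mono_set (inter_subset_left.trans (Rg_sub_Cl T h))
  have j2 : IntegrableOn ((Rp T h).indicator P) (Op T h) := by
    rw [IntegrableOn, integrable_indicator_iff (isClosed_Rp T h).measurableSet, IntegrableOn,
      Measure.restrict_restrict (isClosed_Rp T h).measurableSet]
    exact hPi.mono_set (inter_subset_left.trans (Rp_sub_Cl T h))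
  have k1 : ∫ z in Op T h, (Rg T h).indicator P z ≤ ∫ z in Rg T h, P z := by
    rw [integral_indicator (isClosed_Rg T h).measurableSet,
      Measure.restrict_restrict (isClosed_Rg T h).measurableSet]
    exact setIntegral_mono_set (hPi.mono_set (Rg_sub_Cl T h)) (Filter.Eventually.of_forall hP0)
      inter_subset_left.eventuallyLE
  have k2 : ∫ z in Op T h, (Rp T h).indicator P z ≤ ∫ z in Rp T h, P z := by
    rw [integral_indicator (isClosed_Rp T h).measurableSet,
      Measure.restrict_restrict (isClosed_Rp T h).measurableSet]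
    exact setIntegral_mono_set (hPi.mono_set (Rp_sub_Cl T h)) (Filter.Eventually.of_forall hP0)
      inter_subset_left.eventuallyLE
  calc ∫ z in Op T h, P z * ‖grad (Th T h) z‖ ^ 2
      ≤ ∫ z in Op T h, (100 * K ^ 2) ^ 2 * ((Rg T h).indicator P z + (Rp T h).indicator P z) := by
        by_cases hi : IntegrableOn (fun z => P z * ‖grad (Th T h) z‖ ^ 2) (Op T h)
        · exact setIntegral_mono_on hi ((j1.add j2).const_mul _) (isOpen_Op T h).measurableSet hle
        · rw [integral_undef hi]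
          exact integral_nonneg fun z => mul_nonneg (by positivity)
            (add_nonneg (indicator_nonneg (fun z _ => hP0 z) z)
              (indicator_nonneg (fun z _ => hP0 z) z))
    _ = (100 * K ^ 2) ^ 2 * ((∫ z in Op T h, (Rg T h).indicator P z) +
          ∫ z in Op T h, (Rp T h).indicator P z) := by
        rw [integral_const_mul, integral_add j1 j2]
    _ ≤ (100 * K ^ 2) ^ 2 * (2 * (M * (CA * δ ^ 2))) := by
        gcongr
        linarith

/-- From the weighted norms to the full norm. -/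
theorem full_le [Fintype H] {T : Tri H} {x : H → ℝ} (hx : x ∈ Coch T) {f : H → ℂ → ℝ}
    (hf : Fn T f) (a : ℂ) :
    ∑ h, ∫ z in Op T h, ‖et T x f h z - a‖ ^ 2 ≤
      3 * ∑ h, ∫ z in Op T h, Th T h z ^ 2 * ‖et T x f h z - a‖ ^ 2 := by
  set Φ : H → ℂ → ℝ := fun h z => Th T h z ^ 2 * ‖et T x f h z - a‖ ^ 2 with hΦ
  have hi : ∀ h, IntegrableOn (Φ h) (Op T h) := fun h => by
    obtain ⟨C, hC⟩ := th_lip T h
    refine int_wt T x hf h (D := 1) (hC.continuous.pow 2) (fun z => ?_) a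
    rw [abs_of_nonneg (sq_nonneg _)]
    exact pow_le_one₀ (th_nonneg T h z) (th_le_one T h z)
  have hi1 : ∀ h, IntegrableOn (fun z => Φ (T.next h) (z - T.vec h)) (Op T h) := fun h => by
    obtain ⟨C, hC⟩ := th_lip T (T.next h)
    have h0 : IntegrableOn (fun z => Th T (T.next h) (z - T.vec h) ^ 2 *
        ‖et T x f h z - a‖ ^ 2) (Op T h) := by
      refine int_wt T x hf h (D := 1) ((hC.continuous.comp (by fun_prop)).pow 2) (fun z => ?_) a
      rw [abs_of_nonneg (sq_nonneg _)]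
      exact pow_le_one₀ (th_nonneg T _ _) (th_le_one T _ _)
    refine h0.congr_fun (fun z hz => ?_) (isOpen_Op T h).measurableSet
    simp only [hΦ]
    rw [et_next T hx hf h hz]
  have hi2 : ∀ h, IntegrableOn
      (fun z => Φ (T.next (T.next h)) (z - T.vec h - T.vec (T.next h))) (Op T h) := fun h => by
    obtain ⟨C, hC⟩ := th_lip T (T.next (T.next h))
    have h0 : IntegrableOn (fun z => Th T (T.next (T.next h)) (z - T.vec h - T.vec (T.next h)) ^ 2 *
        ‖et T x f h z - a‖ ^ 2) (Op T h) := by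
      refine int_wt T x hf h (D := 1) ((hC.continuous.comp (by fun_prop)).pow 2) (fun z => ?_) a
      rw [abs_of_nonneg (sq_nonneg _)]
      exact pow_le_one₀ (th_nonneg T _ _) (th_le_one T _ _)
    refine h0.congr_fun (fun z hz => ?_) (isOpen_Op T h).measurableSet
    simp only [hΦ]
    rw [et_next T hx hf (T.next h) ((mem_Op_next T h z).2 hz), et_next T hx hf h hz]
  have hp : ∀ h, ∀ z ∈ Op T h, ‖et T x f h z - a‖ ^ 2 ≤ Φ h z +
      (Φ (T.next h) (z - T.vec h) +
        Φ (T.next (T.next h)) (z - T.vec h - T.vec (T.next h))) := by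
    intro h z hz
    have e1 := et_next T hx hf h hz
    have e2 := et_next T hx hf (T.next h) ((mem_Op_next T h z).2 hz)
    rw [e1] at e2
    have n1 : 0 ≤ Φ h z := by simp only [hΦ]; positivity
    have n2 : 0 ≤ Φ (T.next h) (z - T.vec h) := by simp only [hΦ]; positivity
    have n3 : 0 ≤ Φ (T.next (T.next h)) (z - T.vec h - T.vec (T.next h)) := by
      simp only [hΦ]; positivity
    rcases th_one T (Op_sub_Cl T h hz) with h1 | h1 | h1
    · have : Φ h z = ‖et T x f h z - a‖ ^ 2 := by simp only [hΦ, h1]; ring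
      linarith
    · have : Φ (T.next h) (z - T.vec h) = ‖et T x f h z - a‖ ^ 2 := by
        simp only [hΦ, h1, e1]; ring
      linarith
    · have : Φ (T.next (T.next h)) (z - T.vec h - T.vec (T.next h)) = ‖et T x f h z - a‖ ^ 2 := by
        simp only [hΦ, h1, e2]; ring
      linarith
  calc ∑ h, ∫ z in Op T h, ‖et T x f h z - a‖ ^ 2
      ≤ ∑ h, ∫ z in Op T h, (Φ h z + (Φ (T.next h) (z - T.vec h) +
          Φ (T.next (T.next h)) (z - T.vec h - T.vec (T.next h)))) := by
        refine Finset.sum_le_sum fun h _ => ?_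
        refine setIntegral_mono_on ?_ ((hi h).add ((hi1 h).add (hi2 h)))
          (isOpen_Op T h).measurableSet (hp h)
        have := int_wt T x hf h (w := fun _ => 1) (D := 1) continuous_const (by simp) a
        simpa using this
    _ = ∑ h, ((∫ z in Op T h, Φ h z) + ((∫ z in Op T h, Φ (T.next h) (z - T.vec h)) +
          ∫ z in Op T h, Φ (T.next (T.next h)) (z - T.vec h - T.vec (T.next h)))) := by
        refine Finset.sum_congr rfl fun h _ => ?_
        have k1 : IntegrableOn (fun z => Φ (T.next h) (z - T.vec h) +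
            Φ (T.next (T.next h)) (z - T.vec h - T.vec (T.next h))) (Op T h) :=
          (hi1 h).add (hi2 h)
        rw [integral_add (hi h) k1, integral_add (hi1 h) (hi2 h)]
    _ = 3 * ∑ h, ∫ z in Op T h, Φ h z := by
        rw [Finset.sum_add_distrib, Finset.sum_add_distrib, sum_next, sum_next2]
        ring

/-- The form is near to a constant vertical form. -/
theorem glue (n : ℕ) (K : ℝ) (hK : 1 ≤ K) : ∃ C : ℝ, 0 ≤ C ∧
    ∀ (H : Type) [Fintype H] (T : Tri H) (x : H → ℝ) (f : H → ℂ → ℝ) (κ : ℝ),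
      Fintype.card H = 3 * n → T.Conn → Tame T K →
      (∀ F, Fn T F → ∑ h, ∫ z in Op T h, grad (F h) z = 0) →
      x ∈ Coch T → Fn T f → 0 ≤ κ → NH T x f κ → ∃ M : ℝ,
        ∑ h, ∫ z in Op T h, ‖et T x f h z - M * Complex.I‖ ^ 2 ≤ C * (eA T x f + κ ^ 2) := by
  obtain ⟨CL, hCL0, hloc⟩ := loc K hK
  have hρ0 : (0 : ℝ) < 1 / (32 * K ^ 2) := by positivity
  obtain ⟨M, hM⟩ := cover K hρ0
  set C3 : ℝ := max CL 1 with hC3
  have hC3a : CL ≤ C3 := le_max_left _ _
  have hC3b : 1 ≤ C3 := le_max_right _ _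
  set D1 : ℝ := (3 * n : ℕ) * CL with hD1
  have hD1' : 0 ≤ D1 := by positivity
  obtain ⟨CA, hCA0, hA⟩ := aff_near (R := 2 * K) hρ0 (by positivity) hD1'
  set V0 : ℝ := volume.real (Metric.closedBall (0 : ℂ) (2 * K)) with hV0
  have hV0' : 0 ≤ V0 := measureReal_nonneg
  set D2 : ℝ := D1 + 2 * ((3 * n : ℕ) * (2 * CL)) with hD2
  have hD2' : 0 ≤ D2 := by positivity
  set CB : ℝ := (100 * K ^ 2) ^ 2 * (2 * (M * (CA * C3))) with hCB
  have hCB' : 0 ≤ CB := by positivity
  refine ⟨3 * (2 * (10 * ((3 * n : ℕ) * CB) + 4) + 2 * ((3 * n : ℕ) * (D2 ^ 2 * V0))),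
    by positivity, ?_⟩
  intro H _ T x f κ hcard hconn hT hmean hx hf hκ hNH
  obtain ⟨m, c, h1, h2, h3, h4, h5⟩ := hloc H T x f κ hT hx hf hκ hNH
  have hE0 : 0 ≤ eA T x f := by
    unfold eA
    exact Finset.sum_nonneg fun h _ => integral_nonneg fun z => sq_nonneg _
  set E : ℝ := eA T x f + κ ^ 2 with hE
  have hE' : 0 ≤ E := by positivity
  set δ0 : ℝ := Real.sqrt E with hδ0
  have hδ0' : 0 ≤ δ0 := Real.sqrt_nonneg _
  have hδ0s : δ0 ^ 2 = E := Real.sq_sqrt hE'
  -- the slopes of the vertices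
  obtain ⟨r, hr, hr2⟩ := orbit_avg (T.opp.trans T.next)
  have hrσ : ∀ h, r (sg T h) = r h := fun h => hr h
  have hm1 : ∀ h, |m (r h) - m h| ≤ D1 * δ0 := fun h => by
    have := hr2 m (CL * δ0) (by positivity) (fun h => h3 h) h
    rw [hcard] at this
    calc _ ≤ _ := this
      _ = D1 * δ0 := by rw [hD1]; ring
  have hc1 : ∀ h, |c (r h) - c h| ≤ D1 * δ0 := fun h => by
    have := hr2 c (CL * δ0) (by positivity) (fun h => h4 h) h
    rw [hcard] at this
    calc _ ≤ _ := this
      _ = D1 * δ0 := by rw [hD1]; ring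
  have hCacc := cacc T hx hf hmean hκ hNH (m := fun h => m (r h)) (c := fun h => c (r h))
    (fun h => by simp only [hrσ h]) (fun h => by simp only [hrσ h])
  -- the tube
  set δ : ℝ := Real.sqrt C3 * δ0 with hδ
  have hδ' : 0 ≤ δ := by positivity
  have hδs : δ ^ 2 = C3 * E := by
    rw [hδ, mul_pow, Real.sq_sqrt (by linarith), hδ0s]
  have hδ0δ : δ0 ≤ δ := by
    rw [hδ]
    have : 1 ≤ Real.sqrt C3 := by
      rw [show (1 : ℝ) = Real.sqrt 1 by simp]
      exact Real.sqrt_le_sqrt hC3b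
    nlinarith
  have hEδ : CL * E ≤ δ ^ 2 := by
    rw [hδs]
    gcongr
  have hB : ∀ h, ∫ z in Op T h, (pot T x f h z - (m (r h) * z.im + c (r h))) ^ 2 *
      ‖grad (Th T h) z‖ ^ 2 ≤ CB * E := by
    intro h
    have := tube hT hx hf (CA := CA) (δ := δ) (D := D1) (E := CL * E) (M := M) (hM H T hT)
      hA hCA0 hδ' hEδ (m := m) (c := c) (m' := fun h => m (r h)) (c' := fun h => c (r h)) h1 h2
      (fun h => by rw [abs_sub_comm]; exact (hm1 h).trans (by gcongr))
      (fun h => by rw [abs_sub_comm]; exact (hc1 h).trans (by gcongr))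
      (fun h => by simp only [hrσ h]) (fun h => by simp only [hrσ h]) h
    refine this.trans (le_of_eq ?_)
    rw [hδs, hCB]
    ring
  have hBs : ∑ h, ∫ z in Op T h, (pot T x f h z - (m (r h) * z.im + c (r h))) ^ 2 *
      ‖grad (Th T h) z‖ ^ 2 ≤ (3 * n : ℕ) * (CB * E) := by
    calc _ ≤ ∑ h : H, CB * E := Finset.sum_le_sum fun h _ => hB h
      _ = (3 * n : ℕ) * (CB * E) := by
        rw [Finset.sum_const, Finset.card_univ, hcard, nsmul_eq_mul]
  rcases isEmpty_or_nonempty H with hemp | ⟨⟨h0⟩⟩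
  · refine ⟨0, ?_⟩
    rw [Finset.univ_eq_empty, Finset.sum_empty]
    positivity
  -- one slope for all
  have ho : ∀ h, |m (T.opp h) - m h| ≤ 2 * CL * δ0 := fun h => by
    have e1 := h3 h
    have e2 := h5 (T.opp h)
    have : m (T.opp h) - m h = (m (sg T h) - m h) - (m (T.next (T.opp h)) - m (T.opp h)) := by
      unfold sg; ring
    rw [this]
    calc _ ≤ |m (sg T h) - m h| + |m (T.next (T.opp h)) - m (T.opp h)| := abs_sub _ _
      _ ≤ CL * δ0 + CL * δ0 := add_le_add e1 e2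
      _ = 2 * CL * δ0 := by ring
  have hmm : ∀ h, |m h - m h0| ≤ 2 * ((3 * n : ℕ) * (2 * CL * δ0)) := fun h => by
    have := conn_close T hconn m (2 * CL * δ0) (by positivity)
      (fun h => (h5 h).trans (by nlinarith [mul_nonneg hCL0 hδ0'])) ho h h0
    rwa [hcard] at this
  have hmd : ∀ h, |m (r h) - m h0| ≤ D2 * δ0 := fun h => by
    calc |m (r h) - m h0| = |(m (r h) - m h) + (m h - m h0)| := by ring_nf
      _ ≤ |m (r h) - m h| + |m h - m h0| := abs_add_le _ _
      _ ≤ D1 * δ0 + 2 * ((3 * n : ℕ) * (2 * CL * δ0)) := add_le_add (hm1 h) (hmm h)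
      _ = D2 * δ0 := by rw [hD2]; ring
  refine ⟨m h0, ?_⟩
  have hth : ∀ (a : ℂ) (h : H), IntegrableOn
      (fun z => Th T h z ^ 2 * ‖et T x f h z - a‖ ^ 2) (Op T h) := fun a h => by
    obtain ⟨C, hC⟩ := th_lip T h
    refine int_wt T x hf h (D := 1) (hC.continuous.pow 2) (fun z => ?_) a
    rw [abs_of_nonneg (sq_nonneg _)]
    exact pow_le_one₀ (th_nonneg T h z) (th_le_one T h z)
  have hone : ∀ h, ∫ z in Op T h, Th T h z ^ 2 * ‖et T x f h z - m h0 * Complex.I‖ ^ 2 ≤
      2 * (∫ z in Op T h, Th T h z ^ 2 * ‖et T x f h z - (m (r h) : ℝ) * Complex.I‖ ^ 2) +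
        2 * (D2 ^ 2 * V0 * E) := by
    intro h
    have hpt : ∀ z, Th T h z ^ 2 * ‖et T x f h z - m h0 * Complex.I‖ ^ 2 ≤
        2 * (Th T h z ^ 2 * ‖et T x f h z - (m (r h) : ℝ) * Complex.I‖ ^ 2) +
          2 * (D2 ^ 2 * E) := by
      intro z
      have e1 : et T x f h z - m h0 * Complex.I =
          (et T x f h z - (m (r h) : ℝ) * Complex.I) + ((m (r h) - m h0 : ℝ) : ℂ) * Complex.I := by
        push_cast; ring
      have e2 : ‖et T x f h z - m h0 * Complex.I‖ ≤
          ‖et T x f h z - (m (r h) : ℝ) * Complex.I‖ + D2 * δ0 := by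
        rw [e1]
        refine (norm_add_le _ _).trans ?_
        rw [norm_mul, Complex.norm_I, mul_one, Complex.norm_real, Real.norm_eq_abs]
        gcongr
        exact hmd h
      have e3 : ‖et T x f h z - m h0 * Complex.I‖ ^ 2 ≤
          2 * ‖et T x f h z - (m (r h) : ℝ) * Complex.I‖ ^ 2 + 2 * (D2 ^ 2 * E) := by
        calc _ ≤ (‖et T x f h z - (m (r h) : ℝ) * Complex.I‖ + D2 * δ0) ^ 2 := by gcongr
          _ ≤ 2 * ‖et T x f h z - (m (r h) : ℝ) * Complex.I‖ ^ 2 + 2 * (D2 * δ0) ^ 2 := by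
            nlinarith [sq_nonneg (‖et T x f h z - (m (r h) : ℝ) * Complex.I‖ - D2 * δ0)]
          _ = _ := by rw [mul_pow, hδ0s]
      have t0 := th_nonneg T h z
      have t1 : Th T h z ^ 2 ≤ 1 := pow_le_one₀ t0 (th_le_one T h z)
      have t2 : 0 ≤ Th T h z ^ 2 := sq_nonneg _
      have t3 : 0 ≤ 2 * (D2 ^ 2 * E) := by positivity
      calc _ ≤ Th T h z ^ 2 * (2 * ‖et T x f h z - (m (r h) : ℝ) * Complex.I‖ ^ 2 +
            2 * (D2 ^ 2 * E)) := by gcongr
        _ = 2 * (Th T h z ^ 2 * ‖et T x f h z - (m (r h) : ℝ) * Complex.I‖ ^ 2) +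
            Th T h z ^ 2 * (2 * (D2 ^ 2 * E)) := by ring
        _ ≤ _ := by nlinarith
    calc _ ≤ ∫ z in Op T h, (2 * (Th T h z ^ 2 * ‖et T x f h z - (m (r h) : ℝ) * Complex.I‖ ^ 2) +
          2 * (D2 ^ 2 * E)) := by
          refine setIntegral_mono_on (hth _ h) ?_ (isOpen_Op T h).measurableSet fun z _ => hpt z
          exact ((hth _ h).const_mul 2).add (integrableOn_const (fin_Op T h))
      _ = 2 * (∫ z in Op T h, Th T h z ^ 2 * ‖et T x f h z - (m (r h) : ℝ) * Complex.I‖ ^ 2) +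
          2 * (D2 ^ 2 * E) * volume.real (Op T h) := by
          rw [integral_add ((hth _ h).const_mul 2) (integrableOn_const (fin_Op T h)),
            integral_const_mul, setIntegral_const, smul_eq_mul, mul_comm (volume.real _)]
      _ ≤ _ := by
          have := vol_Op hT h
          have t3 : 0 ≤ 2 * (D2 ^ 2 * E) := by positivity
          have t4 : 2 * (D2 ^ 2 * E) * volume.real (Op T h) ≤ 2 * (D2 ^ 2 * E) * V0 :=
            mul_le_mul_of_nonneg_left this t3
          linarith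
  have hκE : κ ^ 2 ≤ E := by rw [hE]; linarith
  calc _ ≤ 3 * ∑ h, ∫ z in Op T h, Th T h z ^ 2 * ‖et T x f h z - m h0 * Complex.I‖ ^ 2 :=
        full_le hx hf _
    _ ≤ 3 * ∑ h, (2 * (∫ z in Op T h, Th T h z ^ 2 *
          ‖et T x f h z - (m (r h) : ℝ) * Complex.I‖ ^ 2) + 2 * (D2 ^ 2 * V0 * E)) := by
        gcongr with h
        exact hone h
    _ = 3 * (2 * (∑ h, ∫ z in Op T h, Th T h z ^ 2 *
          ‖et T x f h z - (m (r h) : ℝ) * Complex.I‖ ^ 2) + (3 * n : ℕ) * (2 * (D2 ^ 2 * V0 * E))) := by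
        rw [Finset.sum_add_distrib, ← Finset.mul_sum, Finset.sum_const, Finset.card_univ, hcard,
          nsmul_eq_mul]
    _ ≤ 3 * (2 * (10 * ((3 * n : ℕ) * (CB * E)) + 4 * E) +
          (3 * n : ℕ) * (2 * (D2 ^ 2 * V0 * E))) := by
        have : (∑ h, ∫ z in Op T h, Th T h z ^ 2 *
          ‖et T x f h z - (m (r h) : ℝ) * Complex.I‖ ^ 2) ≤
            10 * ((3 * n : ℕ) * (CB * E)) + 4 * E := by linarith
        gcongr
    _ = _ := by ring

end Pool.Agent.Helper21.H3
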