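import Pool.Agent.Helper21.H3.Defs

/-!
# MP_e98778_an (full), H3, block SQA: the planar lemma

BLOCK TF-H3-SQA. In a square `Q` of half side `ρ`: a Lipschitz function `V` which is weakly harmonic
up to `κ` and has a small horizontal derivative is near to an affine function `m y + c` in `L²(Q)`.

Proof. Translate to `p = 0` (or keep `p`), `x ∈ [p.re - ρ, p.re + ρ]`, `y ∈ [p.im - ρ, p.im + ρ]`.
Put `θ(x) = ρ - |x - p.re|` (so `0 ≤ θ ≤ ρ`, `∫ θ = ρ²`, `|θ'| ≤ 1`) and, with `Vy = (grad V).im`,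
`Φ(y) = ∫ θ(x) Vy(x, y) dx` (bounded measurable), `μ = (2ρ)⁻¹ ∫ Φ`,
`ψ(y) = ∫_{p.im - ρ}^y (Φ - μ)` (Lipschitz, zero at both ends, `ψ' = Φ - μ` almost everywhere:
`LocallyIntegrable.ae_hasDerivAt_integral`). Test function `G(x, y) = θ⁺(x) ψ(y)` (extended by 0, `ψ` extended
by zero outside the interval: Lipschitz). Then `G_x = θ' ψ`, `G_y = θ ψ'` almost everywhere and
`∫ V_y G_y = ∫ Φ (Φ - μ) dy = ∫ (Φ - μ)² =: D²`, so
`D² ≤ |∫ V_x θ' ψ| + κ ‖∇G‖ ≤ a √(2ρ) ‖ψ‖ + κ (√(2ρ) ‖ψ‖ + ρ √(2ρ) ‖ψ'‖) ≤ C (a + κ) D`,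
where `a² = ∫_Q V_x²` and `‖ψ‖ ≤ 2ρ ‖ψ'‖ = 2ρ D` (one dimensional, from `ψ = ∫ ψ'` and
Cauchy-Schwarz). So `D ≤ C (a + κ)` and `|ψ| ≤ C (a + κ)`.
Next `W(y) := ∫ θ(x) V(x, y) dx` satisfies `W(y) - W(p.im - ρ) = ∫ Φ = μ (y - p.im + ρ) + ψ(y)`
(for every `x` the function `V(x, ·)` is Lipschitz, so it is the integral of its derivative, and for
almost every `x` its derivative is `Vy(x, y)` for almost every `y`, by Rademacher and Fubini).
Finally `|V(x, y) - W(y) / ρ²| ≤ ∫ |V_x(x', y)| dx'` for almost every `y` and all `x` (the same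
argument), whose square is at most `2ρ ∫ V_x(x', y)² dx'`. So
`V = μ/ρ² y + const + O(C (a + κ))` in `L²(Q)`.
Tools: `Complex.measurableEquivRealProd`, `Complex.volume_preserving_equiv_real_prod`,
`setIntegral_prod`, `LipschitzWith.ae_differentiableAt`, `AbsolutelyContinuousOnInterval`,
`LipschitzOnWith.absolutelyContinuousOnInterval`, `integral_deriv_eq_sub`.
-/

set_option autoImplicit false

open MeasureTheory Set Pool.Agent.Helper72.TF

namespace Pool.Agent.Helper21.H3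

/-! ### Auxiliary lemmas (helper7) -/

/-- Fundamental theorem for Lipschitz functions. -/
private lemma h7_ftc {f : ℝ → ℝ} {K : NNReal} (hf : LipschitzWith K f) (a b : ℝ) :
    ∫ x in a..b, deriv f x = f b - f a :=
  ((hf.lipschitzOnWith (s := uIcc a b)).absolutelyContinuousOnInterval).integral_deriv_eq_sub

private lemma h7_bi {α : Type*} [MeasurableSpace α] {μ : Measure α} [IsFiniteMeasure μ]
    {f : α → ℝ} (hf : Measurable f) {M : ℝ} (hM : ∀ x, |f x| ≤ M) : Integrable f μ :=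
  Integrable.of_bound hf.aestronglyMeasurable M (ae_of_all _ fun x => by
    rw [Real.norm_eq_abs]; exact hM x)

private lemma h7_fubini (p : ℂ) (ρ : ℝ) {F : ℂ → ℝ} (hF : IntegrableOn F (Sq p ρ)) :
    (∫ z in Sq p ρ, F z) = ∫ y in Icc (p.im - ρ) (p.im + ρ),
      ∫ x in Icc (p.re - ρ) (p.re + ρ), F ⟨x, y⟩ := by
  have hm := Complex.volume_preserving_equiv_real_prod.symm
  have he : MeasurableEmbedding Complex.measurableEquivRealProd.symm :=
    Complex.measurableEquivRealProd.symm.measurableEmbedding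
  have hset : Complex.measurableEquivRealProd.symm ⁻¹' (Sq p ρ) =
      Icc (p.re - ρ) (p.re + ρ) ×ˢ Icc (p.im - ρ) (p.im + ρ) := by
    ext q
    simp only [Sq, mem_preimage, Complex.measurableEquivRealProd_symm_apply, mem_ofPred_eq,
      mem_prod, mem_Icc, abs_le]
    constructor
    · rintro ⟨⟨h1, h2⟩, h3, h4⟩
      exact ⟨⟨by linarith, by linarith⟩, by linarith, by linarith⟩
    · rintro ⟨⟨h1, h2⟩, h3, h4⟩
      exact ⟨⟨by linarith, by linarith⟩, by linarith, by linarith⟩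
  have h1 := hm.setIntegral_preimage_emb he F (Sq p ρ)
  rw [hset] at h1
  rw [← h1]
  have h2 : IntegrableOn (F ∘ Complex.measurableEquivRealProd.symm)
      (Icc (p.re - ρ) (p.re + ρ) ×ˢ Icc (p.im - ρ) (p.im + ρ)) := by
    rw [← hset]
    exact (hm.integrableOn_comp_preimage he).mpr hF
  have h3 : (volume : Measure (ℝ × ℝ)) = (volume : Measure ℝ).prod volume := rfl
  rw [h3, ← Measure.prod_restrict]
  rw [IntegrableOn, h3, ← Measure.prod_restrict] at h2
  exact integral_prod_symm _ h2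

private lemma h7_lipy {V : ℂ → ℝ} {L : NNReal} (hV : LipschitzWith L V) (x : ℝ) :
    LipschitzWith L (fun y : ℝ => V ⟨x, y⟩) := by
  apply LipschitzWith.of_dist_le_mul
  intro y y'
  refine (hV.dist_le_mul _ _).trans (mul_le_mul_of_nonneg_left ?_ L.coe_nonneg)
  rw [Complex.dist_mk, Real.dist_eq]
  simp [Real.sqrt_sq_eq_abs]

private lemma h7_lipx {V : ℂ → ℝ} {L : NNReal} (hV : LipschitzWith L V) (y : ℝ) :
    LipschitzWith L (fun x : ℝ => V ⟨x, y⟩) := by
  apply LipschitzWith.of_dist_le_mul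
  intro x x'
  refine (hV.dist_le_mul _ _).trans (mul_le_mul_of_nonneg_left ?_ L.coe_nonneg)
  rw [Complex.dist_mk, Real.dist_eq]
  simp [Real.sqrt_sq_eq_abs]

private lemma h7_dy {V : ℂ → ℝ} {x y : ℝ} (h : DifferentiableAt ℝ V ⟨x, y⟩) :
    HasDerivAt (fun y : ℝ => V ⟨x, y⟩) (fderiv ℝ V ⟨x, y⟩ Complex.I) y := by
  have h1 : HasDerivAt (fun y : ℝ => (⟨x, y⟩ : ℂ)) Complex.I y := by
    have h2 : (fun y : ℝ => (⟨x, y⟩ : ℂ)) = fun y : ℝ => (x : ℂ) + (y : ℂ) * Complex.I := by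
      funext y
      apply Complex.ext <;> simp
    rw [h2]
    have h3 := ((hasDerivAt_id y).ofReal_comp.mul_const Complex.I).const_add (x : ℂ)
    simpa using h3
  exact h.hasFDerivAt.comp_hasDerivAt y h1

private lemma h7_dx {V : ℂ → ℝ} {x y : ℝ} (h : DifferentiableAt ℝ V ⟨x, y⟩) :
    HasDerivAt (fun x : ℝ => V ⟨x, y⟩) (fderiv ℝ V ⟨x, y⟩ 1) x := by
  have h1 : HasDerivAt (fun x : ℝ => (⟨x, y⟩ : ℂ)) 1 x := by
    have h2 : (fun x : ℝ => (⟨x, y⟩ : ℂ)) = fun x : ℝ => (x : ℂ) + (y : ℂ) * Complex.I := by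
      funext x
      apply Complex.ext <;> simp
    rw [h2]
    have h3 := ((hasDerivAt_id x).ofReal_comp).add_const ((y : ℂ) * Complex.I)
    simpa using h3
  exact h.hasFDerivAt.comp_hasDerivAt x h1

/-- Almost every horizontal line meets the non-differentiability set in a null set. -/
private lemma h7_ae {V : ℂ → ℝ} {L : NNReal} (hV : LipschitzWith L V) :
    ∀ᵐ y : ℝ, ∀ᵐ x : ℝ, DifferentiableAt ℝ V ⟨x, y⟩ := by
  have h1 : ∀ᵐ z : ℂ, DifferentiableAt ℝ V z := hV.ae_differentiableAt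
  have hm := Complex.volume_preserving_equiv_real_prod.symm
  have h2 : ∀ᵐ q : ℝ × ℝ, DifferentiableAt ℝ V (Complex.measurableEquivRealProd.symm q) :=
    hm.quasiMeasurePreserving.ae h1
  have h3 : ∀ᵐ q ∂((volume : Measure ℝ).prod (volume : Measure ℝ)),
      DifferentiableAt ℝ V (Complex.measurableEquivRealProd.symm q) := h2
  have h4 : ∀ᵐ q ∂((volume : Measure ℝ).prod (volume : Measure ℝ)),
      DifferentiableAt ℝ V (Complex.measurableEquivRealProd.symm q.swap) := by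
    have := (Measure.measurePreserving_swap (μ := (volume : Measure ℝ))
      (ν := (volume : Measure ℝ))).quasiMeasurePreserving.ae h3
    exact this
  exact Measure.ae_ae_of_ae_prod h4

/-- Cauchy-Schwarz on an interval. -/
private lemma h7_cs {a b : ℝ} (hab : a ≤ b) {f : ℝ → ℝ} (hf : Measurable f) {M : ℝ}
    (hM : ∀ x, |f x| ≤ M) : (∫ x in a..b, f x) ^ 2 ≤ (b - a) * ∫ x in a..b, f x ^ 2 := by
  have hM0 : 0 ≤ M := (abs_nonneg _).trans (hM 0)
  have hi : ∀ (a b : ℝ), IntervalIntegrable f volume a b := fun a b =>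
    ⟨h7_bi hf hM, h7_bi hf hM⟩
  have hf2 : ∀ x, |f x ^ 2| ≤ M ^ 2 := fun x => by
    rw [abs_pow]
    exact pow_le_pow_left₀ (abs_nonneg _) (hM x) 2
  have hi2 : IntervalIntegrable (fun x => f x ^ 2) volume a b :=
    ⟨h7_bi (hf.pow_const 2) hf2, h7_bi (hf.pow_const 2) hf2⟩
  set I := ∫ x in a..b, f x with hI
  rcases hab.eq_or_lt with h | h
  · have : I = 0 := by rw [hI, h]; exact intervalIntegral.integral_same
    rw [this, h]; simp
  · have h0 : 0 ≤ ∫ x in a..b, ((b - a) * f x - I) ^ 2 :=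
      intervalIntegral.integral_nonneg hab fun x _ => sq_nonneg _
    have h1 : ∫ x in a..b, ((b - a) * f x - I) ^ 2 =
        (b - a) ^ 2 * (∫ x in a..b, f x ^ 2) - 2 * (b - a) * I * I + I ^ 2 * (b - a) := by
      have h2 : ∀ x, ((b - a) * f x - I) ^ 2 =
          (b - a) ^ 2 * f x ^ 2 - 2 * (b - a) * I * f x + I ^ 2 := fun x => by ring
      simp_rw [h2]
      rw [intervalIntegral.integral_add, intervalIntegral.integral_sub,
        intervalIntegral.integral_const_mul, intervalIntegral.integral_const_mul,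
        intervalIntegral.integral_const, smul_eq_mul]
      · ring
      · exact hi2.const_mul _
      · exact (hi a b).const_mul _
      · exact (hi2.const_mul _).sub ((hi a b).const_mul _)
      · exact intervalIntegrable_const
    rw [h1] at h0
    have h3 : 0 ≤ (b - a) * ((b - a) * (∫ x in a..b, f x ^ 2) - I ^ 2) := by
      have : (b - a) * ((b - a) * (∫ x in a..b, f x ^ 2) - I ^ 2) =
        (b - a) ^ 2 * (∫ x in a..b, f x ^ 2) - 2 * (b - a) * I * I + I ^ 2 * (b - a) := by ring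
      rw [this]; exact h0
    have h4 := nonneg_of_mul_nonneg_right h3 (by linarith)
    linarith


private lemma h7_mk : Measurable (fun q : ℝ × ℝ => (⟨q.1, q.2⟩ : ℂ)) :=
  Complex.measurableEquivRealProd.symm.measurable

private lemma h7_meas {H : ℂ → ℝ} (hH : Measurable H) (a b : ℝ) :
    Measurable (fun y : ℝ => ∫ x in Icc a b, H ⟨x, y⟩) := by
  have h1 : StronglyMeasurable (fun q : ℝ × ℝ => H ⟨q.1, q.2⟩) :=
    (hH.comp h7_mk).stronglyMeasurable
  exact (StronglyMeasurable.integral_prod_left' (μ := volume.restrict (Icc a b)) h1).measurable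

private lemma h7_msq (p : ℂ) (ρ : ℝ) : MeasurableSet (Sq p ρ) := by
  have h1 : Measurable (fun z : ℂ => |z.re - p.re|) := by fun_prop
  have h2 : Measurable (fun z : ℂ => |z.im - p.im|) := by fun_prop
  exact (measurableSet_le h1 measurable_const).inter (measurableSet_le h2 measurable_const)

private lemma h7_fin (p : ℂ) (ρ : ℝ) : IsFiniteMeasure (volume.restrict (Sq p ρ)) := by
  refine ⟨?_⟩
  rw [Measure.restrict_apply_univ]
  refine lt_of_le_of_lt (measure_mono ?_) (measure_closedBall_lt_top (x := p) (r := 2 * ρ))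
  rintro z ⟨h1, h2⟩
  rw [Metric.mem_closedBall, Complex.dist_eq]
  refine (Complex.norm_le_abs_re_add_abs_im _).trans ?_
  simp only [Complex.sub_re, Complex.sub_im]
  linarith

/-- bounded measurable functions are integrable on the square -/
private lemma h7_bis (p : ℂ) (ρ : ℝ) {F : ℂ → ℝ} (hF : Measurable F) {M : ℝ}
    (hM : ∀ z, |F z| ≤ M) : IntegrableOn F (Sq p ρ) := by
  have := h7_fin p ρ
  exact h7_bi hF hM

private lemma h7_bisb (p : ℂ) (ρ : ℝ) {F : ℂ → ℝ} (hF : Measurable F) {M : ℝ}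
    (hM : ∀ z ∈ Sq p ρ, |F z| ≤ M) : IntegrableOn F (Sq p ρ) := by
  have := h7_fin p ρ
  refine Integrable.of_bound hF.aestronglyMeasurable M ?_
  rw [ae_restrict_iff' (h7_msq p ρ)]
  exact ae_of_all _ fun z hz => by rw [Real.norm_eq_abs]; exact hM z hz

private lemma h7_fdb {V : ℂ → ℝ} {L : NNReal} (hV : LipschitzWith L V) (z v : ℂ)
    (hv : ‖v‖ ≤ 1) : |fderiv ℝ V z v| ≤ L := by
  have h1 : ‖fderiv ℝ V z‖ ≤ L := norm_fderiv_le_of_lipschitz ℝ hV
  have h2 := (fderiv ℝ V z).le_opNorm v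
  rw [Real.norm_eq_abs] at h2
  refine h2.trans ?_
  calc ‖fderiv ℝ V z‖ * ‖v‖ ≤ L * 1 := mul_le_mul h1 hv (norm_nonneg _) L.coe_nonneg
    _ = L := mul_one _

private lemma h7_area (p : ℂ) {ρ : ℝ} (hρ : 0 ≤ ρ) (k : ℝ) :
    ∫ _z in Sq p ρ, k = 4 * ρ ^ 2 * k := by
  rw [h7_fubini p ρ (F := fun _ => k) (h7_bis p ρ measurable_const (M := |k|) fun _ => le_rfl)]
  have h1 : ∀ u : ℝ, (volume.restrict (Icc (u - ρ) (u + ρ))).real univ = 2 * ρ := by
    intro u
    rw [measureReal_restrict_apply_univ, Real.volume_real_Icc_of_le (by linarith)]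
    ring
  rw [integral_const, integral_const, h1, h1, smul_eq_mul, smul_eq_mul]
  ring

/-- the weight -/
private noncomputable def qq (a b x : ℝ) : ℝ := (x - a) * (b - x)

private noncomputable def WW (V : ℂ → ℝ) (a b y : ℝ) : ℝ := ∫ x in Icc a b, qq a b x * V ⟨x, y⟩

private lemma qq_cont (a b : ℝ) : Continuous (qq a b) := by
  unfold qq; fun_prop

private lemma qq_nn {a b x : ℝ} (hx : x ∈ Icc a b) : 0 ≤ qq a b x :=
  mul_nonneg (by linarith [hx.1]) (by linarith [hx.2])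

private lemma qq_int {u ρ : ℝ} (hρ : 0 ≤ ρ) :
    ∫ x in Icc (u - ρ) (u + ρ), qq (u - ρ) (u + ρ) x = 4 / 3 * ρ ^ 3 := by
  rw [integral_Icc_eq_integral_Ioc, ← intervalIntegral.integral_of_le (by linarith)]
  have h1 : ∀ x ∈ uIcc (u - ρ) (u + ρ), HasDerivAt
      (fun x => ρ ^ 2 * (x - u) - (x - u) ^ 3 / 3) (qq (u - ρ) (u + ρ) x) x := by
    intro x _
    have h2 : HasDerivAt (fun x : ℝ => x - u) 1 x := (hasDerivAt_id x).sub_const u
    have h3 := (h2.const_mul (ρ ^ 2)).sub ((h2.pow 3).div_const 3)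
    refine h3.congr_deriv ?_
    unfold qq
    norm_num
    ring
  rw [intervalIntegral.integral_eq_sub_of_hasDerivAt h1
    ((qq_cont _ _).intervalIntegrable _ _)]
  ring


private lemma h7_qim : Measure.QuasiMeasurePreserving Complex.im volume volume :=
  Measure.quasiMeasurePreserving_snd.comp
    Complex.volume_preserving_equiv_real_prod.quasiMeasurePreserving

/-- horizontal Poincare inequality -/
private lemma h7_poin {V : ℂ → ℝ} {L : NNReal} (hV : LipschitzWith L V) (p : ℂ) {ρ : ℝ}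
    (hρ : 0 < ρ) :
    ∫ z in Sq p ρ, (4 / 3 * ρ ^ 3 * V z - WW V (p.re - ρ) (p.re + ρ) z.im) ^ 2 ≤
      (4 / 3 * ρ ^ 3) ^ 2 * (4 * ρ ^ 2) * ∫ z in Sq p ρ, (fderiv ℝ V z 1) ^ 2 := by
  set a := p.re - ρ with ha
  set b := p.re + ρ with hb
  have hab : a ≤ b := by rw [ha, hb]; linarith
  have hba : b - a = 2 * ρ := by rw [ha, hb]; ring
  set T := 4 / 3 * ρ ^ 3 with hT
  have hT0 : 0 ≤ T := by rw [hT]; positivity
  have hTq : ∫ x in Icc a b, qq a b x = T := qq_int hρ.le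
  have hVc : Continuous V := hV.continuous
  have hmx : Measurable (fun z => fderiv ℝ V z 1) := measurable_fderiv_apply_const ℝ V 1
  have hbx : ∀ z, |fderiv ℝ V z 1| ≤ L := fun z => h7_fdb hV z 1 (by simp)
  have hsl : ∀ y : ℝ, Continuous (fun x : ℝ => V ⟨x, y⟩) := fun y => (h7_lipx hV y).continuous
  have hmsl : ∀ y : ℝ, Measurable (fun x : ℝ => fderiv ℝ V ⟨x, y⟩ 1) := fun y =>
    hmx.comp (h7_mk.comp (measurable_id.prodMk measurable_const))
  have key : ∀ᵐ y : ℝ, ∀ x ∈ Icc a b, (T * V ⟨x, y⟩ - WW V a b y) ^ 2 ≤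
      T ^ 2 * ((b - a) * ∫ s in Icc a b, (fderiv ℝ V ⟨s, y⟩ 1) ^ 2) := by
    filter_upwards [h7_ae hV] with y hy x hx
    have hMi : ∀ u v : ℝ, IntervalIntegrable (fun s => fderiv ℝ V ⟨s, y⟩ 1) volume u v := fun u v =>
      ⟨h7_bi (hmsl y) fun s => hbx _, h7_bi (hmsl y) fun s => hbx _⟩
    have hM : ∀ x' ∈ Icc a b, |V ⟨x, y⟩ - V ⟨x', y⟩| ≤ ∫ s in a..b, |fderiv ℝ V ⟨s, y⟩ 1| := by
      intro x' hx'
      have h1 : V ⟨x, y⟩ - V ⟨x', y⟩ = ∫ s in x'..x, fderiv ℝ V ⟨s, y⟩ 1 := by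
        rw [← h7_ftc (h7_lipx hV y) x' x]
        apply intervalIntegral.integral_congr_ae
        filter_upwards [hy] with s hs _
        exact (h7_dx hs).deriv
      rw [h1]
      have hn := intervalIntegral.norm_integral_le_abs_integral_norm (a := x') (b := x)
        (f := fun s => fderiv ℝ V ⟨s, y⟩ 1) (μ := volume)
      simp only [Real.norm_eq_abs] at hn
      refine hn.trans ?_
      have h0 : 0 ≤ ∫ s in a..b, |fderiv ℝ V ⟨s, y⟩ 1| :=
        intervalIntegral.integral_nonneg hab fun _ _ => abs_nonneg _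
      rw [← abs_of_nonneg h0]
      apply intervalIntegral.abs_integral_mono_interval
      · apply uIoc_subset_uIoc_of_uIcc_subset_uIcc
        apply uIcc_subset_uIcc
        · rw [uIcc_of_le hab]; exact hx'
        · rw [uIcc_of_le hab]; exact hx
      · exact ae_of_all _ fun _ => abs_nonneg _
      · exact (hMi a b).abs
    set My := ∫ s in a..b, |fderiv ℝ V ⟨s, y⟩ 1| with hMy
    have h2 : T * V ⟨x, y⟩ - WW V a b y =
        ∫ x' in Icc a b, qq a b x' * (V ⟨x, y⟩ - V ⟨x', y⟩) := by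
      have h3 : ∀ x', qq a b x' * (V ⟨x, y⟩ - V ⟨x', y⟩) =
          qq a b x' * V ⟨x, y⟩ - qq a b x' * V ⟨x', y⟩ := fun x' => by ring
      simp_rw [h3]
      rw [integral_sub, integral_mul_const, hTq, WW]
      · exact ((qq_cont a b).mul continuous_const).integrableOn_Icc
      · exact ((qq_cont a b).mul (hsl y)).integrableOn_Icc
    have h4 : |T * V ⟨x, y⟩ - WW V a b y| ≤ T * My := by
      rw [h2]
      refine (abs_integral_le_integral_abs).trans ?_
      have h5 : T * My = ∫ x' in Icc a b, qq a b x' * My := by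
        rw [integral_mul_const, hTq]
      rw [h5]
      apply setIntegral_mono_on
      · exact (((qq_cont a b).mul (continuous_const.sub (hsl y))).abs).integrableOn_Icc
      · exact ((qq_cont a b).mul continuous_const).integrableOn_Icc
      · exact measurableSet_Icc
      · intro x' hx'
        rw [abs_mul, abs_of_nonneg (qq_nn hx')]
        exact mul_le_mul_of_nonneg_left (hM x' hx') (qq_nn hx')
    have h6 : My ^ 2 ≤ (b - a) * ∫ s in Icc a b, (fderiv ℝ V ⟨s, y⟩ 1) ^ 2 := by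
      have h7 := h7_cs hab (f := fun s => |fderiv ℝ V ⟨s, y⟩ 1|) (hmsl y).abs
        (M := L) (fun s => by rw [abs_abs]; exact hbx _)
      rw [← hMy] at h7
      refine h7.trans (le_of_eq ?_)
      rw [intervalIntegral.integral_of_le hab, integral_Icc_eq_integral_Ioc]
      simp_rw [sq_abs]
    calc (T * V ⟨x, y⟩ - WW V a b y) ^ 2 = |T * V ⟨x, y⟩ - WW V a b y| ^ 2 := (sq_abs _).symm
      _ ≤ (T * My) ^ 2 := pow_le_pow_left₀ (abs_nonneg _) h4 2
      _ = T ^ 2 * My ^ 2 := by ring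
      _ ≤ _ := mul_le_mul_of_nonneg_left h6 (by positivity)
  -- integrate
  set A : ℝ → ℝ := fun y => ∫ s in Icc a b, (fderiv ℝ V ⟨s, y⟩ 1) ^ 2 with hA
  have hAm : Measurable A := h7_meas (hmx.pow_const 2) a b
  have hb2 : ∀ z, |(fderiv ℝ V z 1) ^ 2| ≤ (L : ℝ) ^ 2 := fun z => by
    rw [abs_pow]
    exact pow_le_pow_left₀ (abs_nonneg _) (hbx z) 2
  have hvol : (volume.restrict (Icc a b)).real univ = 2 * ρ := by
    rw [measureReal_restrict_apply_univ, Real.volume_real_Icc_of_le hab, hba]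
  have hAb : ∀ y, |A y| ≤ (L : ℝ) ^ 2 * (2 * ρ) := by
    intro y
    have h1 := norm_integral_le_of_norm_le_const (μ := volume.restrict (Icc a b))
      (f := fun s => (fderiv ℝ V ⟨s, y⟩ 1) ^ 2) (C := (L : ℝ) ^ 2)
      (ae_of_all _ fun s => by rw [Real.norm_eq_abs]; exact hb2 _)
    rw [hvol] at h1
    rwa [Real.norm_eq_abs] at h1
  have hWc : Measurable (WW V a b) := by
    have : Measurable (fun z : ℂ => qq a b z.re * V z) :=
      ((qq_cont a b).measurable.comp Complex.measurable_re).mul hVc.measurable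
    exact h7_meas this a b
  have hi1 : IntegrableOn (fun z : ℂ => A z.im) (Sq p ρ) :=
    h7_bis p ρ (hAm.comp Complex.measurable_im) fun z => hAb z.im
  have hae : ∀ᵐ z : ℂ, z ∈ Sq p ρ →
      (T * V z - WW V a b z.im) ^ 2 ≤ T ^ 2 * ((b - a) * A z.im) := by
    filter_upwards [h7_qim.ae key] with z hz hzs
    have h1 := hz z.re ?_
    · exact h1
    · rw [ha, hb]
      have h2 := abs_le.mp hzs.1
      exact ⟨by linarith [h2.1], by linarith [h2.2]⟩
  have hi2 : IntegrableOn (fun z : ℂ => T ^ 2 * ((b - a) * A z.im)) (Sq p ρ) :=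
    (hi1.const_mul (b - a)).const_mul (T ^ 2)
  have hmF : Measurable (fun z : ℂ => (T * V z - WW V a b z.im) ^ 2) :=
    ((hVc.measurable.const_mul T).sub (hWc.comp Complex.measurable_im)).pow_const 2
  have hi3 : IntegrableOn (fun z : ℂ => (T * V z - WW V a b z.im) ^ 2) (Sq p ρ) := by
    refine Integrable.mono' hi2 hmF.aestronglyMeasurable ?_
    rw [ae_restrict_iff' (h7_msq p ρ)]
    filter_upwards [hae] with z hz hzs
    rw [Real.norm_eq_abs, abs_of_nonneg (sq_nonneg _)]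
    exact hz hzs
  have h1 : ∫ z in Sq p ρ, (T * V z - WW V a b z.im) ^ 2 ≤
      ∫ z in Sq p ρ, T ^ 2 * ((b - a) * A z.im) :=
    setIntegral_mono_on_ae hi3 hi2 (h7_msq p ρ) hae
  have h2 : ∫ z in Sq p ρ, A z.im = 2 * ρ * ∫ y in Icc (p.im - ρ) (p.im + ρ), A y := by
    rw [h7_fubini p ρ hi1, ← integral_const_mul]
    apply integral_congr_ae
    refine ae_of_all _ fun y => ?_
    show ∫ _x in Icc (p.re - ρ) (p.re + ρ), A y = 2 * ρ * A y
    rw [integral_const, smul_eq_mul, ← ha, ← hb, hvol]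
  have h3 : ∫ z in Sq p ρ, (fderiv ℝ V z 1) ^ 2 = ∫ y in Icc (p.im - ρ) (p.im + ρ), A y :=
    h7_fubini p ρ (h7_bis p ρ (hmx.pow_const 2) hb2)
  refine h1.trans (le_of_eq ?_)
  rw [integral_const_mul, integral_const_mul, h2, h3, hba]
  ring


/-- the clamp -/
private noncomputable def cl (a b x : ℝ) : ℝ := max a (min b x)

private lemma cl_mem {a b : ℝ} (hab : a ≤ b) (x : ℝ) : cl a b x ∈ Icc a b :=
  ⟨le_max_left _ _, max_le hab (min_le_left _ _)⟩

private lemma cl_eq {a b x : ℝ} (hx : x ∈ Icc a b) : cl a b x = x := by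
  unfold cl
  rw [min_eq_right hx.2, max_eq_right hx.1]

private lemma cl_lip (a b x y : ℝ) : |cl a b x - cl a b y| ≤ |x - y| := by
  have h1 : LipschitzWith 1 (fun x : ℝ => max a (min b x)) :=
    (LipschitzWith.id.const_min b).const_max a
  have h2 := h1.dist_le_mul x y
  simpa [Real.dist_eq, cl] using h2

private lemma cl_out {a b x : ℝ} (hab : a ≤ b) (hx : x ∉ Icc a b) :
    cl a b x = a ∨ cl a b x = b := by
  unfold cl
  by_cases h : x < a
  · left
    rw [min_eq_right (by linarith), max_eq_left h.le]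
  · right
    have h1 : b < x := by
      by_contra h2
      exact hx ⟨by linarith, by linarith⟩
    rw [min_eq_left h1.le, max_eq_right hab]

private lemma qq_lip {a b x y : ℝ} (hx : x ∈ Icc a b) (hy : y ∈ Icc a b) :
    |qq a b x - qq a b y| ≤ (b - a) * |x - y| := by
  have h1 : qq a b x - qq a b y = (a + b - x - y) * (x - y) := by unfold qq; ring
  rw [h1, abs_mul]
  apply mul_le_mul_of_nonneg_right _ (abs_nonneg _)
  rw [abs_le]
  constructor <;> linarith [hx.1, hx.2, hy.1, hy.2]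

private lemma qq_le {u ρ x : ℝ} : qq (u - ρ) (u + ρ) x ≤ ρ ^ 2 := by
  unfold qq
  nlinarith [sq_nonneg (x - u)]

/-- the weighted average is Lipschitz -/
private lemma WW_lip {V : ℂ → ℝ} {L : NNReal} (hV : LipschitzWith L V) (u : ℝ) {ρ : ℝ}
    (hρ : 0 ≤ ρ) (y y' : ℝ) :
    |WW V (u - ρ) (u + ρ) y - WW V (u - ρ) (u + ρ) y'| ≤ 2 * ρ ^ 3 * L * |y - y'| := by
  set a := u - ρ with ha
  set b := u + ρ with hb
  have hab : a ≤ b := by rw [ha, hb]; linarith
  have hsl : ∀ y : ℝ, Continuous (fun x : ℝ => V ⟨x, y⟩) := fun y => (h7_lipx hV y).continuous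
  have h1 : WW V a b y - WW V a b y' =
      ∫ x in Icc a b, qq a b x * (V ⟨x, y⟩ - V ⟨x, y'⟩) := by
    have h3 : ∀ x, qq a b x * (V ⟨x, y⟩ - V ⟨x, y'⟩) =
        qq a b x * V ⟨x, y⟩ - qq a b x * V ⟨x, y'⟩ := fun x => by ring
    simp_rw [h3]
    rw [integral_sub]
    · rfl
    · exact ((qq_cont a b).mul (hsl y)).integrableOn_Icc
    · exact ((qq_cont a b).mul (hsl y')).integrableOn_Icc
  have h2 := norm_setIntegral_le_of_norm_le_const (μ := volume) (s := Icc a b)
    (f := fun x => qq a b x * (V ⟨x, y⟩ - V ⟨x, y'⟩)) (C := ρ ^ 2 * (L * |y - y'|))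
    (by rw [Real.volume_Icc]; exact ENNReal.ofReal_lt_top) (fun x hx => ?_)
  · rw [← h1, Real.norm_eq_abs, Real.volume_real_Icc_of_le hab] at h2
    refine h2.trans (le_of_eq ?_)
    rw [ha, hb]; ring
  · rw [Real.norm_eq_abs, abs_mul, abs_of_nonneg (qq_nn hx)]
    have h4 := (h7_lipy hV x).dist_le_mul y y'
    rw [Real.dist_eq, Real.dist_eq] at h4
    exact mul_le_mul qq_le h4 (abs_nonneg _) (by positivity)

/-- derivative of the weighted average -/
private lemma WW_deriv {V : ℂ → ℝ} {L : NNReal} (hV : LipschitzWith L V) (a b : ℝ) :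
    ∀ᵐ y : ℝ, HasDerivAt (WW V a b)
      (∫ x in Icc a b, qq a b x * fderiv ℝ V ⟨x, y⟩ Complex.I) y := by
  have hsl : ∀ y : ℝ, Continuous (fun x : ℝ => V ⟨x, y⟩) := fun y => (h7_lipx hV y).continuous
  have hmy : Measurable (fun z => fderiv ℝ V z Complex.I) :=
    measurable_fderiv_apply_const ℝ V Complex.I
  filter_upwards [h7_ae hV] with y hy
  have hm : Measurable (fun x : ℝ => fderiv ℝ V ⟨x, y⟩ Complex.I) :=
    hmy.comp (h7_mk.comp (measurable_id.prodMk measurable_const))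
  refine (hasDerivAt_integral_of_dominated_loc_of_lip (μ := volume.restrict (Icc a b))
    (F := fun y x => qq a b x * V ⟨x, y⟩) (s := univ) (bound := fun x => |qq a b x| * L)
    Filter.univ_mem ?_ ?_ ?_ ?_ ?_ ?_).2
  · exact Filter.Eventually.of_forall fun y' =>
      ((qq_cont a b).mul (hsl y')).aestronglyMeasurable
  · exact ((qq_cont a b).mul (hsl y)).integrableOn_Icc
  · exact ((qq_cont a b).measurable.mul hm).aestronglyMeasurable
  · refine ae_of_all _ fun x => ?_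
    apply LipschitzWith.lipschitzOnWith
    apply LipschitzWith.of_dist_le_mul
    intro y1 y2
    rw [Real.dist_eq, ← mul_sub, abs_mul, Real.coe_nnabs, abs_mul, abs_abs,
      abs_of_nonneg L.coe_nonneg, mul_assoc]
    apply mul_le_mul_of_nonneg_left _ (abs_nonneg _)
    exact (h7_lipy hV x).dist_le_mul y1 y2
  · exact (((qq_cont a b).abs).mul continuous_const).integrableOn_Icc
  · apply ae_restrict_of_ae
    filter_upwards [hy] with x hx
    exact (h7_dy hx).const_mul _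


private lemma h7_test {V : ℂ → ℝ} {L : NNReal} (hV : LipschitzWith L V) (p : ℂ) {ρ : ℝ}
    (hρ : 0 < ρ) {κ : ℝ}
    (hH : ∀ (G : ℂ → ℝ) (M : NNReal), LipschitzWith M G → (∀ z, z ∉ Sq p ρ → G z = 0) →
        |∫ z in Sq p ρ, dot (grad V z) (grad G z)| ≤
          κ * Real.sqrt (∫ z in Sq p ρ, ‖grad G z‖ ^ 2)) :
    ∃ s c : ℝ, (∫ z in Sq p ρ, (WW V (p.re - ρ) (p.re + ρ) z.im - (s * z.im + c)) ^ 2) ≤
        544 * ρ ^ 8 * ((∫ z in Sq p ρ, (fderiv ℝ V z 1) ^ 2) + κ ^ 2) := by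
  set a := p.re - ρ with ha
  set b := p.re + ρ with hb
  have hab : a ≤ b := by rw [ha, hb]; linarith
  have hba : b - a = 2 * ρ := by rw [ha, hb]; ring
  set c := p.im - ρ with hc
  set d := p.im + ρ with hd
  have hcd : c ≤ d := by rw [hc, hd]; linarith
  have hdc : d - c = 2 * ρ := by rw [hc, hd]; ring
  set W := WW V a b with hW
  set s := (W d - W c) / (d - c) with hs
  have hs' : s * (d - c) = W d - W c := by
    rw [hs]; apply div_mul_cancel₀; rw [hdc]; positivity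
  -- the defect
  set ψ : ℝ → ℝ := fun y => W y - (W c + s * (y - c)) with hψ
  have hψc : ψ c = 0 := by simp [hψ]
  have hψd : ψ d = 0 := by
    simp only [hψ]
    rw [hs']; ring
  set K : ℝ := 2 * ρ ^ 3 * L + |s| with hK
  have hK0 : 0 ≤ K := by positivity
  have hψl : ∀ y y', |ψ y - ψ y'| ≤ K * |y - y'| := by
    intro y y'
    have h1 : ψ y - ψ y' = (W y - W y') - s * (y - y') := by simp only [hψ]; ring
    rw [h1]
    refine (abs_sub _ _).trans ?_
    rw [abs_mul, hK, add_mul]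
    exact add_le_add (WW_lip hV p.re hρ.le y y') le_rfl
  set ps : ℝ → ℝ := fun y => ψ (cl c d y) with hps
  have hpsl : ∀ y y', |ps y - ps y'| ≤ K * |y - y'| := fun y y' =>
    (hψl _ _).trans (mul_le_mul_of_nonneg_left (cl_lip _ _ _ _) hK0)
  have hpsL : LipschitzWith K.toNNReal ps := LipschitzWith.of_dist_le' fun y y' => by
    rw [Real.dist_eq, Real.dist_eq]; exact hpsl y y'
  have hpsb : ∀ y, |ps y| ≤ K * (2 * ρ) := by
    intro y
    have h1 := hψl (cl c d y) c
    rw [hψc, sub_zero] at h1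
    refine h1.trans (mul_le_mul_of_nonneg_left ?_ hK0)
    have h2 := cl_mem hcd y
    rw [abs_of_nonneg (by linarith [h2.1])]
    linarith [h2.2]
  have hpsout : ∀ y, y ∉ Icc c d → ps y = 0 := by
    intro y hy
    rcases cl_out hcd hy with h | h
    · simp only [hps, h, hψc]
    · simp only [hps, h, hψd]
  have hpsc : ps c = 0 := by
    simp only [hps]; rw [cl_eq ⟨le_rfl, hcd⟩, hψc]
  have hpsd : ps d = 0 := by
    simp only [hps]; rw [cl_eq ⟨hcd, le_rfl⟩, hψd]
  set dp : ℝ → ℝ := deriv ps with hdp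
  have hdpm : Measurable dp := measurable_deriv ps
  have hdpb : ∀ y, |dp y| ≤ K := by
    intro y
    have h1 := norm_deriv_le_of_lipschitz (x₀ := y) hpsL
    rw [Real.norm_eq_abs, Real.coe_toNNReal _ hK0] at h1
    exact h1
  have hdp2b : ∀ y, |dp y ^ 2| ≤ K ^ 2 := fun y => by
    rw [abs_pow]
    exact pow_le_pow_left₀ (abs_nonneg _) (hdpb y) 2
  set D : ℝ := ∫ y in c..d, dp y ^ 2 with hD
  have hD0 : 0 ≤ D := intervalIntegral.integral_nonneg hcd fun _ _ => sq_nonneg _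
  have hDI : D = ∫ y in Icc c d, dp y ^ 2 := by
    rw [hD, intervalIntegral.integral_of_le hcd, integral_Icc_eq_integral_Ioc]
  have hpsD : ∀ y ∈ Icc c d, ps y ^ 2 ≤ 2 * ρ * D := by
    intro y hy
    have h1 : ps y = ∫ t in c..y, dp t := by
      rw [hdp, h7_ftc hpsL c y, hpsc, sub_zero]
    rw [h1]
    refine (h7_cs hy.1 hdpm hdpb).trans ?_
    apply mul_le_mul
    · linarith [hy.2]
    · rw [hD]
      apply intervalIntegral.integral_mono_interval le_rfl hy.1 hy.2
      · exact ae_of_all _ fun _ => sq_nonneg _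
      · exact ⟨h7_bi (hdpm.pow_const 2) hdp2b, h7_bi (hdpm.pow_const 2) hdp2b⟩
    · exact intervalIntegral.integral_nonneg hy.1 fun _ _ => sq_nonneg _
    · linarith
  -- the horizontal factor
  set Q : ℝ → ℝ := fun x => qq a b (cl a b x) with hQ
  have hQl : ∀ x x', |Q x - Q x'| ≤ 2 * ρ * |x - x'| := by
    intro x x'
    refine (qq_lip (cl_mem hab x) (cl_mem hab x')).trans ?_
    rw [hba]
    exact mul_le_mul_of_nonneg_left (cl_lip _ _ _ _) (by positivity)
  have hQL : LipschitzWith (2 * ρ).toNNReal Q := LipschitzWith.of_dist_le' fun x x' => by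
    rw [Real.dist_eq, Real.dist_eq]; exact hQl x x'
  have hQ0 : ∀ x, 0 ≤ Q x := fun x => qq_nn (cl_mem hab x)
  have hQ1 : ∀ x, Q x ≤ ρ ^ 2 := fun x => qq_le
  have hQout : ∀ x, x ∉ Icc a b → Q x = 0 := by
    intro x hx
    rcases cl_out hab hx with h | h
    · simp only [hQ, h, qq]; ring
    · simp only [hQ, h, qq]; ring
  have hdQ : ∀ x, |deriv Q x| ≤ 2 * ρ := by
    intro x
    have h1 := norm_deriv_le_of_lipschitz (x₀ := x) hQL
    rw [Real.norm_eq_abs, Real.coe_toNNReal _ (by positivity)] at h1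
    exact h1
  -- the test function
  set G : ℂ → ℝ := fun z => Q z.re * ps z.im with hG
  have hGL : LipschitzWith (5 * ρ ^ 2 * K).toNNReal G := by
    apply LipschitzWith.of_dist_le'
    intro z w
    rw [Real.dist_eq]
    have h1 : G z - G w = (Q z.re - Q w.re) * ps z.im + Q w.re * (ps z.im - ps w.im) := by
      simp only [hG]; ring
    have hre : |z.re - w.re| ≤ dist z w := by
      rw [Complex.dist_eq, ← Complex.sub_re]; exact Complex.abs_re_le_norm _
    have him : |z.im - w.im| ≤ dist z w := by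
      rw [Complex.dist_eq, ← Complex.sub_im]; exact Complex.abs_im_le_norm _
    rw [h1]
    refine (abs_add_le _ _).trans ?_
    rw [abs_mul, abs_mul]
    have h2 : |Q z.re - Q w.re| * |ps z.im| ≤ (2 * ρ * dist z w) * (K * (2 * ρ)) := by
      apply mul_le_mul _ (hpsb _) (abs_nonneg _) (by positivity)
      exact (hQl _ _).trans (mul_le_mul_of_nonneg_left hre (by positivity))
    have h3 : |Q w.re| * |ps z.im - ps w.im| ≤ ρ ^ 2 * (K * dist z w) := by
      rw [abs_of_nonneg (hQ0 _)]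
      apply mul_le_mul (hQ1 _) _ (abs_nonneg _) (by positivity)
      exact (hpsl _ _).trans (mul_le_mul_of_nonneg_left him hK0)
    linarith
  have hGout : ∀ z, z ∉ Sq p ρ → G z = 0 := by
    intro z hz
    by_cases h1 : z.re ∈ Icc a b
    · have h2 : z.im ∉ Icc c d := by
        intro h2
        apply hz
        refine ⟨abs_le.mpr ?_, abs_le.mpr ?_⟩
        · rw [ha, hb] at h1
          exact ⟨by linarith [h1.1], by linarith [h1.2]⟩
        · rw [hc, hd] at h2
          exact ⟨by linarith [h2.1], by linarith [h2.2]⟩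
      simp only [hG, hpsout _ h2, mul_zero]
    · simp only [hG, hQout _ h1, zero_mul]
  have hmain := hH G _ hGL hGout
  -- gradients
  have hgae : ∀ᵐ z : ℂ, fderiv ℝ G z Complex.I = Q z.re * dp z.im ∧
      |fderiv ℝ G z 1| ≤ 2 * ρ * |ps z.im| := by
    filter_upwards [hGL.ae_differentiableAt] with z hz
    have hz' : DifferentiableAt ℝ G ⟨z.re, z.im⟩ := hz
    constructor
    · have h1 := (h7_dy hz').deriv
      have h2 : (fun y : ℝ => G ⟨z.re, y⟩) = fun y => Q z.re * ps y := rfl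
      rw [h2, deriv_const_mul_field] at h1
      exact h1.symm
    · have h1 := (h7_dx hz').deriv
      have h2 : (fun x : ℝ => G ⟨x, z.im⟩) = fun x => Q x * ps z.im := rfl
      rw [h2, deriv_mul_const_field] at h1
      have h3 : fderiv ℝ G z 1 = deriv Q z.re * ps z.im := h1.symm
      rw [h3, abs_mul]
      exact mul_le_mul_of_nonneg_right (hdQ _) (abs_nonneg _)
  set vx : ℂ → ℝ := fun z => fderiv ℝ V z 1 with hvx
  set vy : ℂ → ℝ := fun z => fderiv ℝ V z Complex.I with hvy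
  set gx : ℂ → ℝ := fun z => fderiv ℝ G z 1 with hgx
  set gy : ℂ → ℝ := fun z => fderiv ℝ G z Complex.I with hgy
  have mvx : Measurable vx := measurable_fderiv_apply_const ℝ V 1
  have mvy : Measurable vy := measurable_fderiv_apply_const ℝ V Complex.I
  have mgx : Measurable gx := measurable_fderiv_apply_const ℝ G 1
  have mgy : Measurable gy := measurable_fderiv_apply_const ℝ G Complex.I
  set M : ℝ := ((5 * ρ ^ 2 * K).toNNReal : ℝ) with hM
  have bvx : ∀ z, |vx z| ≤ L := fun z => h7_fdb hV z 1 (by simp)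
  have bvy : ∀ z, |vy z| ≤ L := fun z => h7_fdb hV z Complex.I (by simp)
  have bgx : ∀ z, |gx z| ≤ M := fun z => h7_fdb hGL z 1 (by simp)
  have bgy : ∀ z, |gy z| ≤ M := fun z => h7_fdb hGL z Complex.I (by simp)
  have hM0 : 0 ≤ M := NNReal.coe_nonneg _
  have hprod : ∀ {f g : ℂ → ℝ} {B B' : ℝ}, 0 ≤ B → (∀ z, |f z| ≤ B) → (∀ z, |g z| ≤ B') →
      ∀ z, |f z * g z| ≤ B * B' := by
    intro f g B B' hB h1 h2 z
    rw [abs_mul]
    exact mul_le_mul (h1 z) (h2 z) (abs_nonneg _) hB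
  have hsq : ∀ {f : ℂ → ℝ} {B : ℝ}, (∀ z, |f z| ≤ B) → ∀ z, |f z ^ 2| ≤ B ^ 2 := by
    intro f B h1 z
    rw [abs_pow]
    exact pow_le_pow_left₀ (abs_nonneg _) (h1 z) 2
  have ixx : IntegrableOn (fun z => vx z * gx z) (Sq p ρ) :=
    h7_bis p ρ (mvx.mul mgx) (hprod L.coe_nonneg bvx bgx)
  have iyy : IntegrableOn (fun z => vy z * gy z) (Sq p ρ) :=
    h7_bis p ρ (mvy.mul mgy) (hprod L.coe_nonneg bvy bgy)
  have ivx2 : IntegrableOn (fun z => vx z ^ 2) (Sq p ρ) := h7_bis p ρ (mvx.pow_const 2) (hsq bvx)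
  have igx2 : IntegrableOn (fun z => gx z ^ 2) (Sq p ρ) := h7_bis p ρ (mgx.pow_const 2) (hsq bgx)
  have igy2 : IntegrableOn (fun z => gy z ^ 2) (Sq p ρ) := h7_bis p ρ (mgy.pow_const 2) (hsq bgy)
  have mdpz : Measurable (fun z : ℂ => dp z.im) := hdpm.comp Complex.measurable_im
  have idp2 : IntegrableOn (fun z : ℂ => dp z.im ^ 2) (Sq p ρ) :=
    h7_bis p ρ (mdpz.pow_const 2) (hsq (f := fun z : ℂ => dp z.im) fun z => hdpb z.im)
  have hvol : (volume.restrict (Icc a b)).real univ = 2 * ρ := by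
    rw [measureReal_restrict_apply_univ, Real.volume_real_Icc_of_le hab, hba]
  -- (6)
  have h6 : ∫ z in Sq p ρ, vy z * gy z = D := by
    have h6a : ∫ z in Sq p ρ, vy z * gy z = ∫ z in Sq p ρ, vy z * (Q z.re * dp z.im) := by
      apply integral_congr_ae
      apply ae_restrict_of_ae
      filter_upwards [hgae] with z hz
      show vy z * gy z = _
      rw [← hz.1]
    have mQ : Measurable (fun z : ℂ => Q z.re * dp z.im) :=
      (hQL.continuous.measurable.comp Complex.measurable_re).mul mdpz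
    have bQ : ∀ z : ℂ, |Q z.re * dp z.im| ≤ ρ ^ 2 * K :=
      hprod (f := fun z : ℂ => Q z.re) (g := fun z : ℂ => dp z.im) (by positivity)
        (fun z => by rw [abs_of_nonneg (hQ0 _)]; exact hQ1 _) (fun z => hdpb z.im)
    have hii : IntegrableOn (fun z : ℂ => vy z * (Q z.re * dp z.im)) (Sq p ρ) :=
      h7_bis p ρ (mvy.mul mQ) (hprod L.coe_nonneg bvy bQ)
    rw [h6a, h7_fubini p ρ hii]
    have h6b : ∀ᵐ y : ℝ, y ∈ Icc c d →
        ∫ x in Icc a b, vy ⟨x, y⟩ * (Q x * dp y) = dp y ^ 2 + s * dp y := by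
      have hne : ∀ᵐ y : ℝ, y ≠ c ∧ y ≠ d := by
        have h1 : ∀ u : ℝ, ∀ᵐ y : ℝ, y ≠ u := fun u => by
          rw [ae_iff]; simp
        filter_upwards [h1 c, h1 d] with y h2 h3 using ⟨h2, h3⟩
      filter_upwards [WW_deriv hV a b, hne] with y hy hn hycd
      have hyo : y ∈ Ioo c d :=
        ⟨lt_of_le_of_ne hycd.1 (Ne.symm hn.1), lt_of_le_of_ne hycd.2 hn.2⟩
      set Φ := ∫ x in Icc a b, qq a b x * fderiv ℝ V ⟨x, y⟩ Complex.I with hΦ
      have hd1 : HasDerivAt ψ (Φ - s) y := by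
        have h2 : HasDerivAt (fun y : ℝ => W c + s * (y - c)) s y := by
          have := (((hasDerivAt_id y).sub_const c).const_mul s).const_add (W c)
          simpa using this
        exact hy.sub h2
      have hd2 : ps =ᶠ[nhds y] ψ := by
        filter_upwards [Ioo_mem_nhds hyo.1 hyo.2] with t ht
        simp only [hps]
        rw [cl_eq ⟨ht.1.le, ht.2.le⟩]
      have hd3 : dp y = Φ - s := by
        rw [hdp, hd2.deriv_eq, hd1.deriv]
      have h3 : ∫ x in Icc a b, vy ⟨x, y⟩ * (Q x * dp y) = dp y * Φ := by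
        rw [hΦ, ← integral_const_mul]
        apply setIntegral_congr_fun measurableSet_Icc
        intro x hx
        simp only [hQ, hvy]
        rw [cl_eq hx]
        ring
      rw [h3]
      have h4 : Φ = dp y + s := by rw [hd3]; ring
      rw [h4]; ring
    have h6c : ∫ y in Icc c d, ∫ x in Icc a b, vy ⟨x, y⟩ * (Q x * dp y) =
        ∫ y in Icc c d, (dp y ^ 2 + s * dp y) := setIntegral_congr_ae measurableSet_Icc h6b
    refine h6c.trans ?_
    rw [integral_add (h7_bi (hdpm.pow_const 2) hdp2b) ((h7_bi hdpm hdpb).const_mul s),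
      integral_const_mul, ← hDI]
    have h5 : ∫ y in Icc c d, dp y = 0 := by
      rw [integral_Icc_eq_integral_Ioc, ← intervalIntegral.integral_of_le hcd, hdp,
        h7_ftc hpsL c d, hpsc, hpsd, sub_zero]
    rw [h5]; ring
  -- (7)
  have hps2 : ∀ z ∈ Sq p ρ, ps z.im ^ 2 ≤ 2 * ρ * D := by
    intro z hz
    apply hpsD
    rw [hc, hd]
    have h2 := abs_le.mp hz.2
    exact ⟨by linarith [h2.1], by linarith [h2.2]⟩
  have h7 : ∫ z in Sq p ρ, gx z ^ 2 ≤ 32 * ρ ^ 5 * D := by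
    have h1 : ∫ z in Sq p ρ, gx z ^ 2 ≤ ∫ _z in Sq p ρ, 8 * ρ ^ 3 * D := by
      apply setIntegral_mono_on_ae igx2 (h7_bis p ρ measurable_const (M := |8 * ρ ^ 3 * D|)
        fun _ => le_rfl) (h7_msq p ρ)
      filter_upwards [hgae] with z hz hzs
      have h2 : gx z ^ 2 ≤ (2 * ρ * |ps z.im|) ^ 2 := by
        rw [← sq_abs (gx z)]
        exact pow_le_pow_left₀ (abs_nonneg _) hz.2 2
      have h3 := hps2 z hzs
      have h4 : (2 * ρ * |ps z.im|) ^ 2 = 4 * ρ ^ 2 * ps z.im ^ 2 := by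
        rw [mul_pow, sq_abs]; ring
      rw [h4] at h2
      have h5 : 4 * ρ ^ 2 * ps z.im ^ 2 ≤ 4 * ρ ^ 2 * (2 * ρ * D) :=
        mul_le_mul_of_nonneg_left h3 (by positivity)
      refine h2.trans (h5.trans (le_of_eq ?_))
      ring
    refine h1.trans (le_of_eq ?_)
    rw [h7_area p hρ.le]
    ring
  -- (8)
  have h8 : ∫ z in Sq p ρ, gy z ^ 2 ≤ 2 * ρ ^ 5 * D := by
    have h1 : ∫ z in Sq p ρ, gy z ^ 2 ≤ ∫ z in Sq p ρ, ρ ^ 4 * dp z.im ^ 2 := by
      apply setIntegral_mono_on_ae igy2 (idp2.const_mul _) (h7_msq p ρ)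
      filter_upwards [hgae] with z hz _
      have h2 : gy z = Q z.re * dp z.im := hz.1
      rw [h2, mul_pow]
      apply mul_le_mul_of_nonneg_right _ (sq_nonneg _)
      have h3 := pow_le_pow_left₀ (hQ0 z.re) (hQ1 z.re) 2
      refine h3.trans (le_of_eq ?_)
      ring
    refine h1.trans (le_of_eq ?_)
    rw [integral_const_mul, h7_fubini p ρ idp2]
    have h2 : ∫ y in Icc c d, ∫ _x in Icc a b, dp y ^ 2 = 2 * ρ * D := by
      rw [hDI, ← integral_const_mul]
      apply integral_congr_ae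
      refine ae_of_all _ fun y => ?_
      beta_reduce
      rw [integral_const, smul_eq_mul, hvol]
    have h3 : ∫ y in Icc c d, ∫ x in Icc a b, dp (⟨x, y⟩ : ℂ).im ^ 2 = 2 * ρ * D := h2
    rw [h3]; ring
  -- (9)
  set A := ∫ z in Sq p ρ, vx z ^ 2 with hA
  have hA0 : 0 ≤ A := integral_nonneg fun _ => sq_nonneg _
  set E := ∫ z in Sq p ρ, ‖grad G z‖ ^ 2 with hE
  have hE1 : E = (∫ z in Sq p ρ, gx z ^ 2) + ∫ z in Sq p ρ, gy z ^ 2 := by
    rw [hE, ← integral_add igx2 igy2]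
    apply integral_congr_ae
    refine ae_of_all _ fun z => ?_
    show ‖grad G z‖ ^ 2 = gx z ^ 2 + gy z ^ 2
    rw [Complex.sq_norm, Complex.normSq_apply]
    simp only [grad, hgx, hgy]
    ring
  have hE2 : E ≤ 34 * ρ ^ 5 * D := by rw [hE1]; linarith
  have hE0 : 0 ≤ E := integral_nonneg fun _ => sq_nonneg _
  have hdot : ∫ z in Sq p ρ, dot (grad V z) (grad G z) =
      (∫ z in Sq p ρ, vx z * gx z) + ∫ z in Sq p ρ, vy z * gy z := by
    rw [← integral_add ixx iyy]
    rfl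
  have hρ5 : 0 < ρ ^ 5 := by positivity
  have h9 : -(∫ z in Sq p ρ, vx z * gx z) ≤ 32 * ρ ^ 5 * A + D / 4 := by
    have h1 : -(∫ z in Sq p ρ, vx z * gx z) ≤
        ∫ z in Sq p ρ, (32 * ρ ^ 5 * vx z ^ 2 + 1 / (128 * ρ ^ 5) * gx z ^ 2) := by
      rw [← integral_neg]
      apply integral_mono ixx.neg ((ivx2.const_mul _).add (igx2.const_mul _))
      intro z
      have h2 : 0 ≤ 32 * ρ ^ 5 * (vx z + 1 / (64 * ρ ^ 5) * gx z) ^ 2 := by positivity
      have h3 : 32 * ρ ^ 5 * (vx z + 1 / (64 * ρ ^ 5) * gx z) ^ 2 =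
          32 * ρ ^ 5 * vx z ^ 2 + 1 / (128 * ρ ^ 5) * gx z ^ 2 + vx z * gx z := by
        field_simp
        ring
      rw [h3] at h2
      show -(vx z * gx z) ≤ 32 * ρ ^ 5 * vx z ^ 2 + 1 / (128 * ρ ^ 5) * gx z ^ 2
      linarith
    rw [integral_add (ivx2.const_mul _) (igx2.const_mul _), integral_const_mul,
      integral_const_mul] at h1
    have h4 : 1 / (128 * ρ ^ 5) * (∫ z in Sq p ρ, gx z ^ 2) ≤
        1 / (128 * ρ ^ 5) * (32 * ρ ^ 5 * D) :=
      mul_le_mul_of_nonneg_left h7 (by positivity)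
    have h5 : 1 / (128 * ρ ^ 5) * (32 * ρ ^ 5 * D) = D / 4 := by
      field_simp
      ring
    linarith
  have h10 : κ * Real.sqrt E ≤ 34 * ρ ^ 5 * κ ^ 2 + D / 4 := by
    have hs2 : Real.sqrt E ^ 2 = E := Real.sq_sqrt hE0
    have h2 : 0 ≤ 34 * ρ ^ 5 * (κ - 1 / (68 * ρ ^ 5) * Real.sqrt E) ^ 2 := by positivity
    have h3 : 34 * ρ ^ 5 * (κ - 1 / (68 * ρ ^ 5) * Real.sqrt E) ^ 2 =
        34 * ρ ^ 5 * κ ^ 2 - κ * Real.sqrt E + 1 / (136 * ρ ^ 5) * Real.sqrt E ^ 2 := by
      field_simp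
      ring
    rw [h3, hs2] at h2
    have h4 : 1 / (136 * ρ ^ 5) * E ≤ 1 / (136 * ρ ^ 5) * (34 * ρ ^ 5 * D) :=
      mul_le_mul_of_nonneg_left hE2 (by positivity)
    have h5 : 1 / (136 * ρ ^ 5) * (34 * ρ ^ 5 * D) = D / 4 := by
      field_simp
      ring
    linarith
  have h11 : D ≤ 68 * ρ ^ 5 * (A + κ ^ 2) := by
    have h1 := le_of_abs_le hmain
    rw [hdot, h6] at h1
    have h2 : 0 ≤ ρ ^ 5 * A := by positivity
    nlinarith
  -- (12)
  refine ⟨s, W c - s * c, ?_⟩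
  have hWm : Measurable W := by
    have h1 : LipschitzWith (2 * ρ ^ 3 * L).toNNReal W := LipschitzWith.of_dist_le' fun y y' => by
      rw [Real.dist_eq, Real.dist_eq]; exact WW_lip hV p.re hρ.le y y'
    exact h1.continuous.measurable
  have hon : ∀ z ∈ Sq p ρ, (W z.im - (s * z.im + (W c - s * c))) ^ 2 ≤ 2 * ρ * D := by
    intro z hz
    have h1 : W z.im - (s * z.im + (W c - s * c)) = ps z.im := by
      have h2 : z.im ∈ Icc c d := by
        rw [hc, hd]
        have h2 := abs_le.mp hz.2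
        exact ⟨by linarith [h2.1], by linarith [h2.2]⟩
      simp only [hps, hψ]
      rw [cl_eq h2]
      ring
    rw [h1]
    exact hps2 z hz
  have hmf : Measurable (fun z : ℂ => (W z.im - (s * z.im + (W c - s * c))) ^ 2) :=
    ((hWm.comp Complex.measurable_im).sub
      ((Complex.measurable_im.const_mul s).add_const _)).pow_const 2
  have hint := h7_bisb p ρ hmf (M := 2 * ρ * D) fun z hz => by
    rw [abs_of_nonneg (sq_nonneg _)]; exact hon z hz
  have h12 : ∫ z in Sq p ρ, (W z.im - (s * z.im + (W c - s * c))) ^ 2 ≤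
      ∫ _z in Sq p ρ, 2 * ρ * D :=
    setIntegral_mono_on hint (h7_bis p ρ measurable_const (M := |2 * ρ * D|) fun _ => le_rfl)
      (h7_msq p ρ) hon
  rw [h7_area p hρ.le] at h12
  refine h12.trans ?_
  calc 4 * ρ ^ 2 * (2 * ρ * D) = 8 * ρ ^ 3 * D := by ring
    _ ≤ 8 * ρ ^ 3 * (68 * ρ ^ 5 * (A + κ ^ 2)) := mul_le_mul_of_nonneg_left h11 (by positivity)
    _ = 544 * ρ ^ 8 * (A + κ ^ 2) := by ring

private lemma h7_ci (p : ℂ) (ρ : ℝ) {F : ℂ → ℝ} (hF : Continuous F) :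
    IntegrableOn F (Sq p ρ) := by
  apply (hF.continuousOn.integrableOn_compact (isCompact_closedBall p (2 * ρ))).mono_set
  rintro z ⟨h1, h2⟩
  rw [Metric.mem_closedBall, Complex.dist_eq]
  refine (Complex.norm_le_abs_re_add_abs_im _).trans ?_
  simp only [Complex.sub_re, Complex.sub_im]
  linarith

theorem sq_lemma {ρ : ℝ} (hρ : 0 < ρ) : ∃ C : ℝ, 0 ≤ C ∧
    ∀ (p : ℂ) (V : ℂ → ℝ) (L : NNReal), LipschitzWith L V → ∀ κ : ℝ, 0 ≤ κ →
      (∀ (G : ℂ → ℝ) (M : NNReal), LipschitzWith M G → (∀ z, z ∉ Sq p ρ → G z = 0) →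
        |∫ z in Sq p ρ, dot (grad V z) (grad G z)| ≤
          κ * Real.sqrt (∫ z in Sq p ρ, ‖grad G z‖ ^ 2)) →
      ∃ m c : ℝ, (∫ z in Sq p ρ, (V z - (m * z.im + c)) ^ 2) ≤
        C * ((∫ z in Sq p ρ, (grad V z).re ^ 2) + κ ^ 2) := by
  refine ⟨620 * ρ ^ 2, by positivity, fun p V L hV κ _ hH => ?_⟩
  obtain ⟨s, c, hsc⟩ := h7_test hV p hρ hH
  have hpo := h7_poin hV p hρ
  set W := WW V (p.re - ρ) (p.re + ρ) with hW
  set T := 4 / 3 * ρ ^ 3 with hT
  have hT0 : 0 < T := by rw [hT]; positivity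
  have hWc : Continuous W := by
    have h1 : LipschitzWith (2 * ρ ^ 3 * L).toNNReal W := LipschitzWith.of_dist_le' fun y y' => by
      rw [Real.dist_eq, Real.dist_eq]; exact WW_lip hV p.re hρ.le y y'
    exact h1.continuous
  have hVc := hV.continuous
  set A := ∫ z in Sq p ρ, (fderiv ℝ V z 1) ^ 2 with hA
  have hA0 : 0 ≤ A := integral_nonneg fun _ => sq_nonneg _
  have hA' : ∫ z in Sq p ρ, (grad V z).re ^ 2 = A := rfl
  rw [hA']
  refine ⟨s / T, c / T, ?_⟩
  have hWi : Continuous (fun z : ℂ => W z.im) := hWc.comp Complex.continuous_im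
  have i1 : IntegrableOn (fun z : ℂ => (T * V z - W z.im) ^ 2) (Sq p ρ) :=
    h7_ci p ρ (((continuous_const.mul hVc).sub hWi).pow 2)
  have i2 : IntegrableOn (fun z : ℂ => (W z.im - (s * z.im + c)) ^ 2) (Sq p ρ) :=
    h7_ci p ρ ((hWi.sub ((continuous_const.mul Complex.continuous_im).add continuous_const)).pow 2)
  have i3 : IntegrableOn (fun z : ℂ => (V z - (s / T * z.im + c / T)) ^ 2) (Sq p ρ) :=
    h7_ci p ρ ((hVc.sub ((continuous_const.mul Complex.continuous_im).add continuous_const)).pow 2)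
  have h1 : ∫ z in Sq p ρ, (V z - (s / T * z.im + c / T)) ^ 2 ≤
      ∫ z in Sq p ρ, (2 / T ^ 2 * (T * V z - W z.im) ^ 2 +
        2 / T ^ 2 * (W z.im - (s * z.im + c)) ^ 2) := by
    apply integral_mono i3 ((i1.const_mul _).add (i2.const_mul _))
    intro z
    show (V z - (s / T * z.im + c / T)) ^ 2 ≤ 2 / T ^ 2 * (T * V z - W z.im) ^ 2 +
        2 / T ^ 2 * (W z.im - (s * z.im + c)) ^ 2
    have h2 : V z - (s / T * z.im + c / T) =
        1 / T * ((T * V z - W z.im) + (W z.im - (s * z.im + c))) := by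
      field_simp
      ring
    rw [h2, mul_pow]
    set u := T * V z - W z.im
    set v := W z.im - (s * z.im + c)
    have h3 : (u + v) ^ 2 ≤ 2 * u ^ 2 + 2 * v ^ 2 := by nlinarith [sq_nonneg (u - v)]
    calc (1 / T) ^ 2 * (u + v) ^ 2 ≤ (1 / T) ^ 2 * (2 * u ^ 2 + 2 * v ^ 2) :=
          mul_le_mul_of_nonneg_left h3 (by positivity)
      _ = 2 / T ^ 2 * u ^ 2 + 2 / T ^ 2 * v ^ 2 := by
          field_simp
  rw [integral_add (i1.const_mul _) (i2.const_mul _), integral_const_mul, integral_const_mul] at h1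
  refine h1.trans ?_
  have h4 : 2 / T ^ 2 * ∫ z in Sq p ρ, (T * V z - W z.im) ^ 2 ≤ 8 * ρ ^ 2 * A := by
    calc 2 / T ^ 2 * ∫ z in Sq p ρ, (T * V z - W z.im) ^ 2
        ≤ 2 / T ^ 2 * (T ^ 2 * (4 * ρ ^ 2) * A) := mul_le_mul_of_nonneg_left hpo (by positivity)
      _ = 8 * ρ ^ 2 * A := by
          field_simp
          ring
  have h5 : 2 / T ^ 2 * ∫ z in Sq p ρ, (W z.im - (s * z.im + c)) ^ 2 ≤
      612 * ρ ^ 2 * (A + κ ^ 2) := by
    calc 2 / T ^ 2 * ∫ z in Sq p ρ, (W z.im - (s * z.im + c)) ^ 2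
        ≤ 2 / T ^ 2 * (544 * ρ ^ 8 * (A + κ ^ 2)) :=
          mul_le_mul_of_nonneg_left hsc (by positivity)
      _ = 612 * ρ ^ 2 * (A + κ ^ 2) := by
          rw [hT]
          field_simp
          ring
  have h6 : 0 ≤ ρ ^ 2 * κ ^ 2 := by positivity
  nlinarith

end Pool.Agent.Helper21.H3
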