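import Pool.Agent.Helper21.H3.CornerF
import Pool.Agent.Helper21.H3.Geo
import Pool.Agent.Helper21.H3.SqA
import Pool.Agent.Helper87.LS.Plane

/-!
# MP_e98778_an (full), H3, block KITE: the planar lemma on the squares inside the kites

BLOCK TF-H3-KITE.

`kite_corner`: a Lipschitz function vanishing outside the open kite `Kt T h` gives a corner family.
The points of the outer edges (`a1 h z = 0` or `a2 h z = 0` in `Cl T h`; `a0 = 0` or `a1 = 0` in
`Cl T (sg T h)`) are not in `Kt T h`. Field `edge` for the dart `k`: if `k = h`, both sides are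
`G (t vec h)`; if `k ≠ h` and `k` or `sg k` is one of `h, sg h`, the point `t vec k` is on an outer edge.
`mg_lip`: on a square (convex!) inside `Kt T h` the function `mg` is Lipschitz: both potentials are, and they
agree on the edge (`pot_sg`).
`sq_kite`: let `V` be a Lipschitz extension of `mg` from `Q = Sq p ρ` (`LipschitzOnWith.extend_real`). For
almost every `z ∈ Q`: `z` is in the interior of `Q` and in `Op T h` or in `Op T (sg T h)` (the edge and
the boundary of `Q` are null sets), and then `grad V z = et T x f h z`, resp. `et T x f (sg T h) z`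
(if `f h` is differentiable at `z`, almost every `z`). If `G` is Lipschitz and zero outside `Q`, then
`grad G = 0` almost everywhere outside `Q`, and
`∫_Q dot (grad V) (grad G) = ∑ k, ∫ z in Op T k, dot (et k) (grad (g k))` for the family of `kite_corner`, similarly
for `∫ ‖grad G‖²`. So `NH` gives the hypothesis of `sq_lemma`; and `∫_Q (grad V).re² ≤ eA`.
-/

set_option autoImplicit false

open MeasureTheory Set Pool.Agent.Helper87.LS Pool.Agent.Helper79.G Pool.Agent.Helper72.TF

namespace Pool.Agent.Helper21.H3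

variable {H : Type}

private theorem cr_solve53 {u v w : ℂ} (h : cr u v ≠ 0) (h1 : cr u w = 0) (h2 : cr v w = 0) :
    w = 0 := by
  unfold cr at h h1 h2
  have e1 : w.re * (u.re * v.im - u.im * v.re) = 0 := by linear_combination v.re * h1 - u.re * h2
  have e2 : w.im * (u.re * v.im - u.im * v.re) = 0 := by linear_combination v.im * h1 - u.im * h2
  rcases mul_eq_zero.mp e1 with h3 | h3
  · rcases mul_eq_zero.mp e2 with h4 | h4
    · exact Complex.ext h3 h4
    · exact absurd h4 h
  · exact absurd h3 h

private theorem vec_sg53 (T : Tri H) (h : H) :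
    T.vec (T.next (sg T h)) = T.vec h - T.vec (sg T h) := by
  have := T.closed (T.opp h)
  rw [T.vec_opp] at this
  unfold sg
  linear_combination this

private theorem pos_sg53 (T : Tri H) (h : H) : 0 < cr (T.vec (sg T h)) (T.vec h) := by
  have := T.pos (sg T h)
  rw [vec_sg53] at this
  unfold cr at this ⊢
  simp only [Complex.sub_re, Complex.sub_im] at this
  linarith

private theorem vec_ne53 (T : Tri H) (h : H) : T.vec h ≠ 0 := by
  intro h0
  have := T.pos h
  rw [h0] at this
  simp [cr] at this

private theorem vec_prev53 (T : Tri H) (h : H) :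
    T.vec (T.prev h) = -T.vec h - T.vec (T.next h) := by
  have := T.closed h
  unfold Tri.prev
  linear_combination this

private theorem a1_mul53 (T : Tri H) (h : H) (s : ℝ) :
    T.a1 h (s * T.vec h) = (1 - s) * cr (T.vec h) (T.vec (T.next h)) := by
  unfold Tri.a1 cr
  simp only [Complex.sub_re, Complex.sub_im, Complex.re_ofReal_mul, Complex.im_ofReal_mul]
  ring

private theorem a2_mul53 (T : Tri H) (h : H) (s : ℝ) :
    T.a2 h (s * T.vec h) = s * cr (T.vec h) (T.vec (T.next h)) := by
  unfold Tri.a2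
  rw [vec_prev53]
  unfold cr
  simp only [Complex.sub_re, Complex.sub_im, Complex.neg_re, Complex.neg_im,
    Complex.re_ofReal_mul, Complex.im_ofReal_mul]
  ring

private theorem a0_mul53 (T : Tri H) (h : H) (s : ℝ) : T.a0 h (s * T.vec h) = 0 := by
  unfold Tri.a0 cr
  simp only [Complex.re_ofReal_mul, Complex.im_ofReal_mul]
  ring

private theorem a0sg_mul53 (T : Tri H) (h : H) (s : ℝ) :
    T.a0 (sg T h) (s * T.vec h) = s * cr (T.vec (sg T h)) (T.vec h) := by
  unfold Tri.a0 cr
  simp only [Complex.re_ofReal_mul, Complex.im_ofReal_mul]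
  ring

private theorem a1sg_mul53 (T : Tri H) (h : H) (s : ℝ) :
    T.a1 (sg T h) (s * T.vec h) = (1 - s) * cr (T.vec (sg T h)) (T.vec h) := by
  unfold Tri.a1
  rw [vec_sg53]
  unfold cr
  simp only [Complex.sub_re, Complex.sub_im, Complex.re_ofReal_mul, Complex.im_ofReal_mul]
  ring

/-- points of the line of the edge -/
private theorem line53 (T : Tri H) (h : H) {z : ℂ} (hz : T.a0 h z = 0) :
    ∃ s : ℝ, z = s * T.vec h := by
  have hp := pos_sg53 T h
  refine ⟨cr (T.vec (sg T h)) z / cr (T.vec (sg T h)) (T.vec h), ?_⟩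
  have h1 : cr (T.vec (sg T h)) (z - (cr (T.vec (sg T h)) z / cr (T.vec (sg T h)) (T.vec h) : ℝ) * T.vec h) = 0 := by
    rw [cr_sub_right, cr_mul_right, div_mul_cancel₀ _ hp.ne', sub_self]
  have h2 : cr (T.vec h) (z - (cr (T.vec (sg T h)) z / cr (T.vec (sg T h)) (T.vec h) : ℝ) * T.vec h) = 0 := by
    rw [cr_sub_right, cr_mul_right, cr_self, mul_zero, sub_zero]
    exact hz
  have := cr_solve53 hp.ne' h1 h2
  exact sub_eq_zero.mp this

/-- points of the edge in the kite -/
private theorem Kt_edge53 (T : Tri H) (h : H) {z : ℂ} (hz : z ∈ Kt T h) (h0 : T.a0 h z = 0) :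
    ∃ s : ℝ, 0 < s ∧ s < 1 ∧ z = s * T.vec h := by
  obtain ⟨s, rfl⟩ := line53 T h h0
  have hp := pos_sg53 T h
  have hp2 := T.pos h
  refine ⟨s, ?_, ?_, rfl⟩
  · rcases hz with h1 | h1
    · have := h1.2.2
      rw [a2_mul53] at this
      exact (pos_iff_pos_of_mul_pos this).mpr hp2
    · have := h1.2.1
      rw [a0sg_mul53] at this
      exact (pos_iff_pos_of_mul_pos this).mpr hp
  · rcases hz with h1 | h1
    · have := h1.2.1
      rw [a1_mul53] at this
      have := (pos_iff_pos_of_mul_pos this).mpr hp2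
      linarith
    · have := h1.2.2
      rw [a1sg_mul53] at this
      have := (pos_iff_pos_of_mul_pos this).mpr hp
      linarith

private theorem Kt_pos53 (T : Tri H) (h : H) {z : ℂ} (hz : z ∈ Kt T h) (h0 : 0 < T.a0 h z) :
    z ∈ Op T h := by
  rcases hz with h1 | h1
  · exact ⟨h0, h1.2.1, h1.2.2⟩
  · exact absurd h1.1 (not_le.mpr h0)

private theorem Kt_neg53 (T : Tri H) (h : H) {z : ℂ} (hz : z ∈ Kt T h) (h0 : T.a0 h z < 0) :
    z ∈ Op T (sg T h) := by
  rcases hz with h1 | h1
  · exact absurd h1.1 (not_le.mpr h0)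
  · refine ⟨h1.2.1, h1.2.2, ?_⟩
    rw [a2_sg]; linarith

private theorem Op_pos53 (T : Tri H) (h : H) {z : ℂ} (hz : z ∈ Op T (sg T h)) : T.a0 h z < 0 := by
  have := hz.2.2
  rw [a2_sg] at this
  linarith

private theorem sg_inj53 (T : Tri H) {k h : H} (hk : sg T k = sg T h) : k = h := by
  unfold sg at hk
  exact T.opp.injective (T.next.injective hk)

open Classical in
theorem kite_corner (T : Tri H) (h : H) {G : ℂ → ℝ} {M : NNReal} (hG : LipschitzWith M G)
    (h0 : ∀ z, z ∉ Kt T h → G z = 0) :
    Corner T (fun k z => if k = h ∨ k = sg T h then G z else 0) := by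
  -- `G` vanishes on the lines of the outer edges
  have hp := pos_sg53 T h
  have hp2 := T.pos h
  refine ⟨⟨M, fun k => ?_⟩, fun k z hz h1 => ?_, fun k t ht => ?_⟩
  · by_cases hk : k = h ∨ k = sg T h
    · simp only [if_pos hk]; exact hG.lipschitzOnWith
    · simp only [if_neg hk]; exact (LipschitzWith.const' (0 : ℝ)).lipschitzOnWith
  · by_cases hk : k = h ∨ k = sg T h
    · simp only [if_pos hk]
      apply h0
      intro hKt
      rcases hk with hk | hk
      · subst hk
        rcases hKt with h2 | h2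
        · linarith [h2.2.1]
        · have h3 : T.a0 k z = 0 := le_antisymm h2.1 hz.1
          obtain ⟨s, hs0, hs1, rfl⟩ := Kt_edge53 T k (Or.inr h2) h3
          rw [a1_mul53] at h1
          rcases mul_eq_zero.mp h1 with h4 | h4
          · linarith
          · linarith
      · subst hk
        have h3 : T.a0 h z ≤ 0 := by
          have := hz.2.2
          rw [a2_sg] at this
          linarith
        rcases hKt with h2 | h2
        · have h4 : T.a0 h z = 0 := le_antisymm h3 h2.1
          obtain ⟨s, hs0, hs1, rfl⟩ := Kt_edge53 T h (Or.inl h2) h4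
          rw [a1sg_mul53] at h1
          rcases mul_eq_zero.mp h1 with h4 | h4
          · linarith
          · linarith
        · linarith [h2.2.2]
    · simp only [if_neg hk]
  · by_cases hkh : k = h
    · subst hkh
      simp only [or_true, true_or, if_true]
    · have hA : (if k = h ∨ k = sg T h then G (t * T.vec k) else 0) = 0 := by
        by_cases hk : k = sg T h
        · rw [if_pos (Or.inr hk)]
          subst hk
          apply h0
          rintro (h2 | h2)
          · have h3 : T.a0 h (t * T.vec (sg T h)) = -(t * cr (T.vec (sg T h)) (T.vec h)) := by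
              unfold Tri.a0 cr
              simp only [Complex.re_ofReal_mul, Complex.im_ofReal_mul]
              ring
            have h4 := h2.1
            rw [h3] at h4
            have ht0 : t = 0 := by
              have h5 : t * cr (T.vec (sg T h)) (T.vec h) ≤ 0 := by linarith
              have h6 := mul_nonneg ht.1 hp.le
              rcases mul_eq_zero.mp (le_antisymm h5 h6) with h7 | h7
              · exact h7
              · linarith
            have h5 := h2.2.2
            rw [ht0] at h5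
            simp [Tri.a2, cr] at h5
          · have h3 := h2.2.1
            rw [a0_mul53] at h3
            exact lt_irrefl _ h3
        · rw [if_neg (by tauto)]
      have hB : (if sg T k = h ∨ sg T k = sg T h then G (t * T.vec k) else 0) = 0 := by
        by_cases hk : sg T k = h
        · rw [if_pos (Or.inl hk)]
          have hv : T.vec k = T.vec h + T.vec (T.next h) := by
            have h3 : T.vec (T.prev h) = -T.vec k := by
              have h4 : T.opp k = T.prev h := by
                apply T.next.injective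
                unfold Tri.prev
                rw [T.next3]
                exact hk
              rw [← h4, T.vec_opp]
            rw [vec_prev53] at h3
            linear_combination h3
          apply h0
          rintro (h2 | h2)
          · have h3 := h2.2.2
            unfold Tri.a2 at h3
            rw [vec_prev53, hv] at h3
            unfold cr at h3
            simp only [Complex.sub_re, Complex.sub_im, Complex.neg_re, Complex.neg_im,
              Complex.add_re, Complex.add_im, Complex.re_ofReal_mul, Complex.im_ofReal_mul] at h3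
            ring_nf at h3
            exact lt_irrefl _ h3
          · have h3 : T.a0 h (t * T.vec k) = t * cr (T.vec h) (T.vec (T.next h)) := by
              rw [hv]
              unfold Tri.a0 cr
              simp only [Complex.add_re, Complex.add_im, Complex.re_ofReal_mul, Complex.im_ofReal_mul]
              ring
            have h4 := h2.1
            rw [h3] at h4
            have ht0 : t = 0 := by
              have h6 := mul_nonneg ht.1 hp2.le
              rcases mul_eq_zero.mp (le_antisymm h4 h6) with h7 | h7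
              · exact h7
              · linarith
            have h5 := h2.2.1
            rw [ht0] at h5
            simp [Tri.a0, cr] at h5
        · rw [if_neg]
          rintro (h2 | h2)
          · exact hk h2
          · exact hkh (sg_inj53 T h2)
      simp only [hA, hB]


private theorem convex_Sq53 (p : ℂ) (r : ℝ) : Convex ℝ (Sq p r) := by
  intro x hx y hy a b ha hb hab
  obtain ⟨h1, h2⟩ := hx
  obtain ⟨h3, h4⟩ := hy
  have e1 : (a • x + b • y).re - p.re = a * (x.re - p.re) + b * (y.re - p.re) := by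
    simp only [Complex.add_re, Complex.real_smul, Complex.re_ofReal_mul]
    linear_combination (p.re) * hab
  have e2 : (a • x + b • y).im - p.im = a * (x.im - p.im) + b * (y.im - p.im) := by
    simp only [Complex.add_im, Complex.real_smul, Complex.im_ofReal_mul]
    linear_combination (p.im) * hab
  rw [abs_le] at h1 h2 h3 h4
  constructor
  · rw [e1, abs_le]
    constructor <;> nlinarith [h1.1, h1.2, h3.1, h3.2]
  · rw [e2, abs_le]
    constructor <;> nlinarith [h2.1, h2.2, h4.1, h4.2]

private theorem isClosed_Sq53 (p : ℂ) (r : ℝ) : IsClosed (Sq p r) := by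
  have h1 : Continuous fun z : ℂ => |z.re - p.re| := by fun_prop
  have h2 : Continuous fun z : ℂ => |z.im - p.im| := by fun_prop
  exact (isClosed_le h1 continuous_const).inter (isClosed_le h2 continuous_const)

private theorem isBounded_Sq53 (p : ℂ) (r : ℝ) : Bornology.IsBounded (Sq p r) := by
  refine (Metric.isBounded_closedBall (x := p) (r := 2 * r)).subset fun z hz => ?_
  rw [Metric.mem_closedBall, dist_eq_norm]
  have h := Complex.norm_le_abs_re_add_abs_im (z - p)
  rw [Complex.sub_re, Complex.sub_im] at h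
  linarith [hz.1, hz.2]

private theorem cont_a0_53 (T : Tri H) (h : H) : Continuous (T.a0 h) := by
  unfold Tri.a0 cr; fun_prop

/-- sides of the kite -/
private theorem mem_Cl53 (T : Tri H) (h : H) {z : ℂ} (hz : z ∈ Kt T h) (h0 : 0 ≤ T.a0 h z) :
    z ∈ Cl T h := by
  rcases h0.lt_or_eq with h1 | h1
  · exact Op_sub_Cl T h (Kt_pos53 T h hz h1)
  · obtain ⟨s, hs0, hs1, rfl⟩ := Kt_edge53 T h hz h1.symm
    have hp2 := T.pos h
    refine ⟨h0, ?_, ?_⟩
    · rw [a1_mul53]; exact mul_nonneg (by linarith) hp2.le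
    · rw [a2_mul53]; exact mul_nonneg (by linarith) hp2.le

private theorem mem_Clsg53 (T : Tri H) (h : H) {z : ℂ} (hz : z ∈ Kt T h) (h0 : T.a0 h z ≤ 0) :
    z ∈ Cl T (sg T h) := by
  rcases h0.lt_or_eq with h1 | h1
  · exact Op_sub_Cl T _ (Kt_neg53 T h hz h1)
  · obtain ⟨s, hs0, hs1, rfl⟩ := Kt_edge53 T h hz h1
    have hp := pos_sg53 T h
    refine ⟨?_, ?_, ?_⟩
    · rw [a0sg_mul53]; exact mul_nonneg (by linarith) hp.le
    · rw [a1sg_mul53]; exact mul_nonneg (by linarith) hp.le
    · rw [a2_sg, a0_mul53]; simp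

private theorem pot_lip53 (T : Tri H) (x : H → ℝ) {f : H → ℂ → ℝ} {C : NNReal} {h : H}
    (hf : LipschitzOnWith C (f h) (Cl T h)) :
    ∃ C' : NNReal, LipschitzOnWith C' (pot T x f h) (Cl T h) := by
  have h1 : LipschitzWith ⟨|(omega T x h).re| + |(omega T x h).im|, by positivity⟩
      (fun z => dot (omega T x h) z) := by
    refine LipschitzWith.of_dist_le_mul fun z z' => ?_
    rw [Real.dist_eq, dist_eq_norm]
    have e : dot (omega T x h) z - dot (omega T x h) z' =
        (omega T x h).re * (z - z').re + (omega T x h).im * (z - z').im := by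
      unfold dot; rw [Complex.sub_re, Complex.sub_im]; ring
    rw [e]
    change _ ≤ (|(omega T x h).re| + |(omega T x h).im|) * ‖z - z'‖
    refine (abs_add_le _ _).trans ?_
    rw [abs_mul, abs_mul, add_mul]
    exact add_le_add (mul_le_mul_of_nonneg_left (Complex.abs_re_le_norm _) (abs_nonneg _))
      (mul_le_mul_of_nonneg_left (Complex.abs_im_le_norm _) (abs_nonneg _))
  exact ⟨_, h1.lipschitzOnWith.add hf⟩

theorem mg_lip [Finite H] (T : Tri H) {x : H → ℝ} (hx : x ∈ Coch T) {f : H → ℂ → ℝ} (hf : Fn T f)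
    {h : H} {p : ℂ} {ρ : ℝ} (hp : Sq p ρ ⊆ Kt T h) :
    ∃ C : NNReal, LipschitzOnWith C (mg T x f h) (Sq p ρ) := by
  obtain ⟨C, hC⟩ := hf.lip
  obtain ⟨C1, h1⟩ := pot_lip53 T x (hC h)
  obtain ⟨C2, h2⟩ := pot_lip53 T x (hC (sg T h))
  refine ⟨max C1 C2, LipschitzOnWith.of_dist_le_mul ?_⟩
  have hmix : ∀ z ∈ Sq p ρ, ∀ z' ∈ Sq p ρ, 0 ≤ T.a0 h z → T.a0 h z' < 0 →
      dist (mg T x f h z) (mg T x f h z') ≤ (max C1 C2 : NNReal) * dist z z' := by
    intro z hz z' hz' hz0 hz0'
    -- the point of the segment on the edge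
    have hcont : ContinuousOn (fun t : ℝ => T.a0 h (AffineMap.lineMap z z' t)) (Icc 0 1) := by
      refine ((cont_a0_53 T h).comp ?_).continuousOn
      exact AffineMap.lineMap_continuous
    have hivt := intermediate_value_Icc' (zero_le_one (α := ℝ)) hcont
    simp only [AffineMap.lineMap_apply_zero, AffineMap.lineMap_apply_one] at hivt
    obtain ⟨t, ht, hq0⟩ := hivt ⟨hz0'.le, hz0⟩
    simp only at hq0
    set q := AffineMap.lineMap z z' t with hq
    have hqS : q ∈ Sq p ρ := by
      apply (convex_Sq53 p ρ).segment_subset hz hz'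
      rw [segment_eq_image_lineMap]
      exact ⟨t, ht, rfl⟩
    obtain ⟨s, hs0, hs1, hqs⟩ := Kt_edge53 T h (hp hqS) hq0
    have hpot : pot T x f (sg T h) q = pot T x f h q := by
      rw [hqs]
      exact pot_sg T hx hf h ⟨hs0.le, hs1.le⟩
    have e1 : mg T x f h z = pot T x f h z := if_pos hz0
    have e2 : mg T x f h z' = pot T x f (sg T h) z' := if_neg (not_le.mpr hz0')
    rw [e1, e2]
    have d1 := h1.dist_le_mul z (mem_Cl53 T h (hp hz) hz0) q (mem_Cl53 T h (hp hqS) hq0.ge)
    have d2 := h2.dist_le_mul q (mem_Clsg53 T h (hp hqS) hq0.le) z' (mem_Clsg53 T h (hp hz') hz0'.le)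
    have hdist : dist z q + dist q z' = dist z z' := by
      rw [hq, dist_left_lineMap, dist_lineMap_right, Real.norm_eq_abs, Real.norm_eq_abs,
        abs_of_nonneg ht.1, abs_of_nonneg (by linarith [ht.2])]
      ring
    have m1 : (C1 : ℝ) ≤ (max C1 C2 : NNReal) := by exact_mod_cast le_max_left C1 C2
    have m2 : (C2 : ℝ) ≤ (max C1 C2 : NNReal) := by exact_mod_cast le_max_right C1 C2
    calc dist (pot T x f h z) (pot T x f (sg T h) z')
        ≤ dist (pot T x f h z) (pot T x f h q) + dist (pot T x f h q) (pot T x f (sg T h) z') :=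
          dist_triangle _ _ _
      _ ≤ C1 * dist z q + C2 * dist q z' := by
          rw [← hpot] at d1 ⊢
          exact add_le_add d1 d2
      _ ≤ (max C1 C2 : NNReal) * dist z q + (max C1 C2 : NNReal) * dist q z' :=
          add_le_add (mul_le_mul_of_nonneg_right m1 dist_nonneg)
            (mul_le_mul_of_nonneg_right m2 dist_nonneg)
      _ = (max C1 C2 : NNReal) * dist z z' := by rw [← mul_add, hdist]
  intro z hz z' hz'
  by_cases a : 0 ≤ T.a0 h z
  · by_cases b : 0 ≤ T.a0 h z'
    · have e1 : mg T x f h z = pot T x f h z := if_pos a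
      have e2 : mg T x f h z' = pot T x f h z' := if_pos b
      rw [e1, e2]
      refine (h1.dist_le_mul z (mem_Cl53 T h (hp hz) a) z' (mem_Cl53 T h (hp hz') b)).trans ?_
      exact mul_le_mul_of_nonneg_right (by exact_mod_cast le_max_left C1 C2) dist_nonneg
    · exact hmix z hz z' hz' a (not_le.mp b)
  · by_cases b : 0 ≤ T.a0 h z'
    · rw [dist_comm, dist_comm z]
      exact hmix z' hz' z hz b (not_le.mp a)
    · have e1 : mg T x f h z = pot T x f (sg T h) z := if_neg a
      have e2 : mg T x f h z' = pot T x f (sg T h) z' := if_neg b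
      rw [e1, e2]
      refine (h2.dist_le_mul z (mem_Clsg53 T h (hp hz) (not_le.mp a).le) z'
        (mem_Clsg53 T h (hp hz') (not_le.mp b).le)).trans ?_
      exact mul_le_mul_of_nonneg_right (by exact_mod_cast le_max_right C1 C2) dist_nonneg


private theorem grad_lip53 {V : ℂ → ℝ} {L : NNReal} (hV : LipschitzWith L V) (z : ℂ) :
    ‖grad V z‖ ≤ 2 * L := by
  have h1 := norm_fderiv_le_of_lipschitz ℝ hV (x₀ := z)
  have h2 : |fderiv ℝ V z 1| ≤ L := by
    have := (fderiv ℝ V z).le_opNorm 1
    rw [norm_one, mul_one, Real.norm_eq_abs] at this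
    exact this.trans h1
  have h3 : |fderiv ℝ V z Complex.I| ≤ L := by
    have := (fderiv ℝ V z).le_opNorm Complex.I
    rw [Complex.norm_I, mul_one, Real.norm_eq_abs] at this
    exact this.trans h1
  have := Complex.norm_le_abs_re_add_abs_im (grad V z)
  change _ ≤ |fderiv ℝ V z 1| + |fderiv ℝ V z Complex.I| at this
  linarith

private theorem dot_le53 (a b : ℂ) : |dot a b| ≤ 2 * (‖a‖ * ‖b‖) := by
  unfold dot
  refine (abs_add_le _ _).trans ?_
  rw [abs_mul, abs_mul]
  have h1 := Complex.abs_re_le_norm a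
  have h2 := Complex.abs_re_le_norm b
  have h3 := Complex.abs_im_le_norm a
  have h4 := Complex.abs_im_le_norm b
  have h5 := mul_le_mul h1 h2 (abs_nonneg _) (norm_nonneg _)
  have h6 := mul_le_mul h3 h4 (abs_nonneg _) (norm_nonneg _)
  linarith

private theorem meas_dot53 {a b : ℂ → ℂ} (ha : Measurable a) (hb : Measurable b) :
    Measurable fun z => dot (a z) (b z) := by
  unfold dot
  exact ((Complex.measurable_re.comp ha).mul (Complex.measurable_re.comp hb)).add
    ((Complex.measurable_im.comp ha).mul (Complex.measurable_im.comp hb))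

private theorem intOn53 {s : Set ℂ} (hs : Bornology.IsBounded s) (hm : MeasurableSet s) {F : ℂ → ℝ}
    (hF : Measurable F) {M : ℝ} (hM : ∀ z ∈ s, |F z| ≤ M) : IntegrableOn F s := by
  refine Measure.integrableOn_of_bounded (M := M) hs.measure_lt_top.ne hF.aestronglyMeasurable ?_
  exact (ae_restrict_mem hm).mono fun z hz => hM z hz

private theorem grad_zero53 {G : ℂ → ℝ} {p : ℂ} {ρ : ℝ} (h0 : ∀ z, z ∉ Sq p ρ → G z = 0) {z : ℂ}
    (hz : z ∉ Sq p ρ) : grad G z = 0 := by
  have h1 : G =ᶠ[nhds z] fun _ => (0 : ℝ) := by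
    filter_upwards [(isClosed_Sq53 p ρ).isOpen_compl.mem_nhds hz] with y hy using h0 y hy
  have h2 : fderiv ℝ G z = 0 := by
    rw [h1.fderiv_eq]; simp
  unfold grad
  rw [h2]
  rfl

private theorem grad_pot53 (T : Tri H) (x : H → ℝ) {f : H → ℂ → ℝ} {k : H} {z : ℂ}
    (hd : DifferentiableAt ℝ (f k) z) : grad (pot T x f k) z = et T x f k z := by
  set ω := omega T x k with hω
  let l : ℂ →L[ℝ] ℝ := ω.re • Complex.reCLM + ω.im • Complex.imCLM
  have h1 : HasFDerivAt (fun z : ℂ => dot ω z) l z := by
    have : (fun z : ℂ => dot ω z) = l := by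
      ext y
      simp [l, dot]
    rw [this]
    exact l.hasFDerivAt
  have h2 : HasFDerivAt (pot T x f k) (l + fderiv ℝ (f k) z) z := h1.add hd.hasFDerivAt
  unfold et grad
  rw [h2.fderiv]
  apply Complex.ext
  · simp [l, hω]
  · simp [l, hω]

private theorem split53 (T : Tri H) {h : H} {p : ℂ} {ρ : ℝ} (hp : Sq p ρ ⊆ Kt T h) {F : ℂ → ℝ}
    (hF : IntegrableOn F (Sq p ρ)) :
    ∫ z in Sq p ρ, F z = (∫ z in Op T h ∩ Sq p ρ, F z) + ∫ z in Op T (sg T h) ∩ Sq p ρ, F z := by
  have hms : ∀ k, MeasurableSet (Op T k ∩ Sq p ρ) := fun k =>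
    (isOpen_Op T k).measurableSet.inter (isClosed_Sq53 p ρ).measurableSet
  have hd : Disjoint (Op T h ∩ Sq p ρ) (Op T (sg T h) ∩ Sq p ρ) := by
    rw [Set.disjoint_left]
    intro z hz hz2
    have h1 := Op_pos53 T h hz2.1
    have h2 : 0 < T.a0 h z := hz.1.1
    linarith
  have hae : Sq p ρ =ᵐ[volume] ((Op T h ∩ Sq p ρ) ∪ (Op T (sg T h) ∩ Sq p ρ) : Set ℂ) := by
    have hnull : volume {z : ℂ | cr (T.vec h) (z - 0) = 0} = 0 := line_null (vec_ne53 T h) 0 0
    have hae2 : ∀ᵐ z : ℂ ∂volume, z ∉ {z : ℂ | cr (T.vec h) (z - 0) = 0} := measure_eq_zero_iff_ae_notMem.mp hnull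
    filter_upwards [hae2] with z hz
    have hz1 : T.a0 h z ≠ 0 := by
      intro h1
      apply hz
      change cr (T.vec h) (z - 0) = 0
      rw [sub_zero]; exact h1
    apply propext
    constructor
    · intro hzS
      rcases lt_or_gt_of_ne hz1 with h1 | h1
      · exact Or.inr ⟨Kt_neg53 T h (hp hzS) h1, hzS⟩
      · exact Or.inl ⟨Kt_pos53 T h (hp hzS) h1, hzS⟩
    · rintro (h1 | h1)
      · exact h1.2
      · exact h1.2
  rw [setIntegral_congr_set hae, setIntegral_union hd (hms _) (hF.mono_set inter_subset_right)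
    (hF.mono_set inter_subset_right)]

/-- the gradient of the extension in one of the two triangles -/
private theorem ae_grad53 (T : Tri H) {x : H → ℝ} {f : H → ℂ → ℝ} (hf : Fn T f) {k : H} {p : ℂ}
    {ρ : ℝ} {V : ℂ → ℝ} (hV : ∀ z ∈ Op T k ∩ Sq p ρ, V z = pot T x f k z) :
    ∀ᵐ z ∂(volume.restrict (Op T k ∩ Sq p ρ)), grad V z = et T x f k z := by
  obtain ⟨C, hC⟩ := hf.lip
  have hms : MeasurableSet (Op T k ∩ Sq p ρ) :=
    (isOpen_Op T k).measurableSet.inter (isClosed_Sq53 p ρ).measurableSet
  rw [ae_restrict_iff' hms]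
  have h1 := ((hC k).mono (Op_sub_Cl T k)).ae_differentiableWithinAt_of_mem (μ := volume)
  have h2 : ∀ᵐ z : ℂ ∂volume, z ∉ frontier (Sq p ρ) :=
    measure_eq_zero_iff_ae_notMem.mp ((convex_Sq53 p ρ).addHaar_frontier volume)
  filter_upwards [h1, h2] with z hz1 hz2 hz
  have hd : DifferentiableAt ℝ (f k) z :=
    (hz1 hz.1).differentiableAt ((isOpen_Op T k).mem_nhds hz.1)
  have hint : z ∈ interior (Sq p ρ) := by
    by_contra hc
    apply hz2
    rw [(isClosed_Sq53 p ρ).frontier_eq]
    exact ⟨hz.2, hc⟩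
  have heq : V =ᶠ[nhds z] pot T x f k := by
    filter_upwards [(isOpen_Op T k).mem_nhds hz.1, isOpen_interior.mem_nhds hint] with y h3 h4
    exact hV y ⟨h3, interior_subset h4⟩
  rw [← grad_pot53 T x hd]
  unfold grad
  rw [heq.fderiv_eq]

theorem sq_kite {ρ : ℝ} (hρ : 0 < ρ) : ∃ C : ℝ, 0 ≤ C ∧
    ∀ (H : Type) [Fintype H] (T : Tri H) (x : H → ℝ) (f : H → ℂ → ℝ) (κ : ℝ), x ∈ Coch T →
      Fn T f → 0 ≤ κ → NH T x f κ → ∀ (h : H) (p : ℂ), Sq p ρ ⊆ Kt T h →
        ∃ m c : ℝ, (∫ z in Sq p ρ, (mg T x f h z - (m * z.im + c)) ^ 2) ≤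
          C * (eA T x f + κ ^ 2) := by
  obtain ⟨C, hC0, hC⟩ := sq_lemma hρ
  refine ⟨C, hC0, ?_⟩
  intro H _ T x f κ hx hf hκ hNH h p hp
  obtain ⟨L, hL⟩ := mg_lip T hx hf hp
  obtain ⟨V, hV, hVeq⟩ := hL.extend_real
  have hQc := isClosed_Sq53 p ρ
  have hQb := isBounded_Sq53 p ρ
  have hQm := hQc.measurableSet
  have hV1 : ∀ z ∈ Op T h ∩ Sq p ρ, V z = pot T x f h z := by
    intro z hz
    rw [← hVeq hz.2]
    exact if_pos hz.1.1.le
  have hV2 : ∀ z ∈ Op T (sg T h) ∩ Sq p ρ, V z = pot T x f (sg T h) z := by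
    intro z hz
    rw [← hVeq hz.2]
    exact if_neg (not_le.mpr (Op_pos53 T h hz.1))
  have hg1 := ae_grad53 T hf hV1
  have hg2 := ae_grad53 T hf hV2
  have hmV := measurable_grad V
  have hne : h ≠ sg T h := (sg_ne T h).symm
  -- the test functions
  have htest : ∀ (G : ℂ → ℝ) (M : NNReal), LipschitzWith M G → (∀ z, z ∉ Sq p ρ → G z = 0) →
      |∫ z in Sq p ρ, dot (grad V z) (grad G z)| ≤
        κ * Real.sqrt (∫ z in Sq p ρ, ‖grad G z‖ ^ 2) := by
    classical
    intro G M hG hG0
    have hcor := kite_corner T h hG (fun z hz => hG0 z fun hz2 => hz (hp hz2))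
    have hmG := measurable_grad G
    have key := hNH _ hcor
    -- evaluation of the sums
    have gin : ∀ k, (k = h ∨ k = sg T h) →
        (fun z => if k = h ∨ k = sg T h then G z else 0) = G := by
      intro k hk; ext z; rw [if_pos hk]
    have gout : ∀ k, ¬ (k = h ∨ k = sg T h) →
        (fun z => if k = h ∨ k = sg T h then G z else 0) = fun _ : ℂ => (0 : ℝ) := by
      intro k hk; ext z; rw [if_neg hk]
    have g0 : ∀ z, grad (fun _ : ℂ => (0 : ℝ)) z = 0 := by
      intro z; unfold grad; simp; rfl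
    have hsum : ∀ Φ : H → ℂ → ℂ → ℝ, (∀ k z, Φ k z 0 = 0) →
        ∑ k, ∫ z in Op T k, Φ k z (grad (fun z => if k = h ∨ k = sg T h then G z else 0) z) =
          (∫ z in Op T h, Φ h z (grad G z)) + ∫ z in Op T (sg T h), Φ (sg T h) z (grad G z) := by
      intro Φ hΦ
      rw [← Finset.sum_subset (Finset.subset_univ {h, sg T h}) ?_, Finset.sum_pair hne]
      · rw [gin h (Or.inl rfl), gin (sg T h) (Or.inr rfl)]
      · intro k _ hk
        have hk2 : ¬ (k = h ∨ k = sg T h) := by simpa using hk
        rw [gout k hk2]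
        simp only [g0, hΦ, integral_zero]
    rw [hsum (fun k z w => dot (et T x f k z) w) (by intro k z; simp [dot]),
      hsum (fun k z w => ‖w‖ ^ 2) (by intro k z; simp)] at key
    -- restriction to the square
    have hres : ∀ (k : H) (Φ : ℂ → ℂ → ℝ), (∀ z, Φ z 0 = 0) →
        ∫ z in Op T k, Φ z (grad G z) = ∫ z in Op T k ∩ Sq p ρ, Φ z (grad G z) := by
      intro k Φ hΦ
      refine setIntegral_eq_of_subset_of_forall_sdiff_eq_zero (isOpen_Op T k).measurableSet
        inter_subset_left fun z hz => ?_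
      have hz2 : z ∉ Sq p ρ := fun h3 => hz.2 ⟨hz.1, h3⟩
      rw [grad_zero53 hG0 hz2]
      exact hΦ z
    have e1 : ∫ z in Sq p ρ, dot (grad V z) (grad G z) =
        (∫ z in Op T h, dot (et T x f h z) (grad G z)) +
          ∫ z in Op T (sg T h), dot (et T x f (sg T h) z) (grad G z) := by
      have hint : IntegrableOn (fun z => dot (grad V z) (grad G z)) (Sq p ρ) := by
        refine intOn53 hQb hQm (meas_dot53 hmV hmG) (M := 2 * ((2 * L) * (2 * M))) fun z _ => ?_
        refine (dot_le53 _ _).trans ?_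
        have := mul_le_mul (grad_lip53 hV z) (grad_lip53 hG z) (norm_nonneg _) (by positivity)
        linarith
      rw [split53 T hp hint, hres h (fun z w => dot (et T x f h z) w) (by intro z; simp [dot]),
        hres (sg T h) (fun z w => dot (et T x f (sg T h) z) w) (by intro z; simp [dot])]
      congr 1
      · refine integral_congr_ae ?_
        filter_upwards [hg1] with z hz
        rw [hz]
      · refine integral_congr_ae ?_
        filter_upwards [hg2] with z hz
        rw [hz]
    have e2 : ∫ z in Sq p ρ, ‖grad G z‖ ^ 2 =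
        (∫ z in Op T h, ‖grad G z‖ ^ 2) + ∫ z in Op T (sg T h), ‖grad G z‖ ^ 2 := by
      have hint : IntegrableOn (fun z => ‖grad G z‖ ^ 2) (Sq p ρ) := by
        refine intOn53 hQb hQm (hmG.norm.pow_const 2) (M := (2 * M) ^ 2) fun z _ => ?_
        rw [abs_of_nonneg (by positivity)]
        exact pow_le_pow_left₀ (norm_nonneg _) (grad_lip53 hG z) 2
      rw [split53 T hp hint, hres h (fun z w => ‖w‖ ^ 2) (by intro z; simp),
        hres (sg T h) (fun z w => ‖w‖ ^ 2) (by intro z; simp)]
    rw [e1, e2]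
    exact key
  obtain ⟨m, c, hmc⟩ := hC p V L hV κ hκ htest
  refine ⟨m, c, ?_⟩
  have e3 : ∫ z in Sq p ρ, (mg T x f h z - (m * z.im + c)) ^ 2 =
      ∫ z in Sq p ρ, (V z - (m * z.im + c)) ^ 2 := by
    refine setIntegral_congr_fun hQm fun z hz => ?_
    have := hVeq hz
    simp only [this]
  rw [e3]
  refine hmc.trans (mul_le_mul_of_nonneg_left ?_ hC0)
  gcongr
  -- the horizontal energy
  obtain ⟨C1, hC1⟩ := hf.lip
  have hmet : ∀ k, Measurable fun z => (et T x f k z).re ^ 2 := fun k =>
    (Complex.measurable_re.comp (measurable_const.add (measurable_grad (f k)))).pow_const 2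
  have hiet : ∀ k, IntegrableOn (fun z => (et T x f k z).re ^ 2) (Op T k) := by
    intro k
    refine intOn53 ((isBounded_Cl T k).subset (Op_sub_Cl T k)) (isOpen_Op T k).measurableSet
      (hmet k) (M := (‖omega T x k‖ + 2 * C1) ^ 2) fun z hz => ?_
    rw [abs_of_nonneg (by positivity), ← sq_abs]
    refine pow_le_pow_left₀ (abs_nonneg _) ?_ 2
    refine (Complex.abs_re_le_norm _).trans ?_
    unfold et
    exact (norm_add_le _ _).trans (by gcongr; exact grad_bound (hC1 k) hz)
  have hint : IntegrableOn (fun z => (grad V z).re ^ 2) (Sq p ρ) := by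
    refine intOn53 hQb hQm ((Complex.measurable_re.comp hmV).pow_const 2) (M := (2 * L) ^ 2)
      fun z _ => ?_
    rw [abs_of_nonneg (by positivity), ← sq_abs]
    exact pow_le_pow_left₀ (abs_nonneg _) ((Complex.abs_re_le_norm _).trans (grad_lip53 hV z)) 2
  have hle : ∀ k, (∀ᵐ z ∂(volume.restrict (Op T k ∩ Sq p ρ)), grad V z = et T x f k z) →
      ∫ z in Op T k ∩ Sq p ρ, (grad V z).re ^ 2 ≤ ∫ z in Op T k, (et T x f k z).re ^ 2 := by
    intro k hk
    calc ∫ z in Op T k ∩ Sq p ρ, (grad V z).re ^ 2
        = ∫ z in Op T k ∩ Sq p ρ, (et T x f k z).re ^ 2 := by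
          refine integral_congr_ae ?_
          filter_upwards [hk] with z hz
          rw [hz]
      _ ≤ ∫ z in Op T k, (et T x f k z).re ^ 2 := by
          refine setIntegral_mono_set (hiet k) ?_ ?_
          · exact Filter.Eventually.of_forall fun z => sq_nonneg _
          · exact (inter_subset_left).eventuallyLE
  classical
  calc ∫ z in Sq p ρ, (grad V z).re ^ 2
      = (∫ z in Op T h ∩ Sq p ρ, (grad V z).re ^ 2) +
          ∫ z in Op T (sg T h) ∩ Sq p ρ, (grad V z).re ^ 2 := split53 T hp hint
    _ ≤ (∫ z in Op T h, (et T x f h z).re ^ 2) +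
          ∫ z in Op T (sg T h), (et T x f (sg T h) z).re ^ 2 :=
        add_le_add (hle h hg1) (hle (sg T h) hg2)
    _ = ∑ k ∈ {h, sg T h}, ∫ z in Op T k, (et T x f k z).re ^ 2 :=
        (Finset.sum_pair (f := fun k => ∫ z in Op T k, (et T x f k z).re ^ 2) hne).symm
    _ ≤ eA T x f := by
        unfold eA
        refine Finset.sum_le_sum_of_subset_of_nonneg (Finset.subset_univ _) fun k _ _ => ?_
        exact integral_nonneg fun z => sq_nonneg _

end Pool.Agent.Helper21.H3
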