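import Pool.Agent.Helper21.H3.CornerF
import Pool.Agent.Helper72.TF.BE4

/-!
# MP_e98778_an (full), H3, block LEV: the energy on the surface `g_t T`

BLOCK TF-H3-LEV (helper77).
`en_eq`: `‖w‖² = w.re² + w.im²`.
`en_lev`: let `A = gsu t 0`, `f' h z = f h (A.symm z)`. `Fn (lev T t 0) f'` (`Fn_act`) and `en_act`,
`adj_gsu`. So `en (lev T t 0) x f' = (e^{-2t} eA + e^{2t} eB)/3`, and `hn2 ≤ en` (`hn2_le`).
-/

set_option autoImplicit false

open MeasureTheory Set Pool.Agent.Helper87.LS Pool.Agent.Helper79.G Pool.Agent.Helper72.TF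

namespace Pool.Agent.Helper21.H3

variable {H : Type}

private theorem sq_norm_h77 (w : ℂ) : ‖w‖ ^ 2 = w.re ^ 2 + w.im ^ 2 := by
  rw [← Complex.normSq_eq_norm_sq, Complex.normSq_apply]; ring

private theorem int_re_h77 [Fintype H] {T : Tri H} (x : H → ℝ) {f : H → ℂ → ℝ} (hf : Fn T f)
    (h : H) : IntegrableOn (fun z => (et T x f h z).re ^ 2) (Op T h) := by
  have hm : Measurable (grad (f h)) := grad_measurable61 (f h)
  refine Integrable.mono' (hf.intOn h (omega T x h)) ?_ (Filter.Eventually.of_forall fun z => ?_)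
  · refine Measurable.aestronglyMeasurable ?_
    exact (Complex.measurable_re.comp (hm.const_add (omega T x h))).pow_const 2
  · rw [Real.norm_eq_abs, abs_of_nonneg (by positivity)]
    show (omega T x h + grad (f h) z).re ^ 2 ≤ _
    rw [sq_norm_h77]
    linarith [sq_nonneg (omega T x h + grad (f h) z).im]

private theorem int_im_h77 [Fintype H] {T : Tri H} (x : H → ℝ) {f : H → ℂ → ℝ} (hf : Fn T f)
    (h : H) : IntegrableOn (fun z => (et T x f h z).im ^ 2) (Op T h) := by
  have hm : Measurable (grad (f h)) := grad_measurable61 (f h)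
  refine Integrable.mono' (hf.intOn h (omega T x h)) ?_ (Filter.Eventually.of_forall fun z => ?_)
  · refine Measurable.aestronglyMeasurable ?_
    exact (Complex.measurable_im.comp (hm.const_add (omega T x h))).pow_const 2
  · rw [Real.norm_eq_abs, abs_of_nonneg (by positivity)]
    show (omega T x h + grad (f h) z).im ^ 2 ≤ _
    rw [sq_norm_h77]
    linarith [sq_nonneg (omega T x h + grad (f h) z).re]

theorem en_eq [Fintype H] (T : Tri H) (x : H → ℝ) {f : H → ℂ → ℝ} (hf : Fn T f) :
    en T x f = (eA T x f + eB T x f) / 3 := by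
  unfold en eA eB
  rw [← Finset.sum_add_distrib]
  congr 1
  refine Finset.sum_congr rfl fun h _ => ?_
  rw [← integral_add (int_re_h77 x hf h) (int_im_h77 x hf h)]
  refine integral_congr_ae (Filter.Eventually.of_forall fun z => ?_)
  exact sq_norm_h77 _

theorem hn2_lev_le [Fintype H] (T : Tri H) (x : H → ℝ) {f : H → ℂ → ℝ} (hf : Fn T f) (t : ℝ) :
    hn2 (lev T t 0) x ≤
      (Real.exp (-(2 * t)) * eA T x f + Real.exp (2 * t) * eB T x f) / 3 := by
  have hf' : Fn (lev T t 0) (fun h z => f h ((gsu t 0).symm z)) := by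
    unfold lev
    rw [Fn_act]
    simpa using hf
  refine (hn2_le hf' x).trans (le_of_eq ?_)
  unfold lev
  rw [en_act]
  congr 1
  unfold eA eB
  rw [Finset.mul_sum, Finset.mul_sum, ← Finset.sum_add_distrib]
  refine Finset.sum_congr rfl fun h _ => ?_
  rw [← integral_const_mul, ← integral_const_mul,
    ← integral_add ((int_re_h77 x hf h).const_mul _) ((int_im_h77 x hf h).const_mul _)]
  refine integral_congr_ae (Filter.Eventually.of_forall fun z => ?_)
  have e1 : Real.exp (-(2 * t)) = Real.exp (-t) ^ 2 := by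
    rw [← Real.exp_nat_mul]; push_cast; ring_nf
  have e2 : Real.exp (2 * t) = Real.exp t ^ 2 := by
    rw [← Real.exp_nat_mul]; push_cast; ring_nf
  simp only [LinearEquiv.symm_apply_apply]
  rw [sq_norm_h77, adj_gsu, e1, e2]
  simp only [et, zero_mul, add_zero]
  ring

end Pool.Agent.Helper21.H3
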