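import Pool.Agent.Helper21.H3.Kite
import Pool.Agent.Helper21.H3.Geo
import Pool.Agent.Helper21.H3.Aff

/-!
# MP_e98778_an (full), H3, block LOC: local slopes

BLOCK TF-H3-LOC. With `ρ = 1/(32 K²)`, `δ² = C₀ (eA + κ²)` from `sq_kite`: every square with centre in
`Rg T h` or `Rp T (sg T h)` lies in `Kt T h` (`sq_sub_Rg`, `sq_sub_Rp`); let `m h, c h` be the affine function of the
square at `mid T h`. `chain` in `Rg T h` and in `Rp T (sg T h)` (both contain `mid T h`) and `aff_near` give the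
first two statements. For `|m (sg T h) - m h|, |c (sg T h) - c h|` use `overlap` with the two (equal) squares at
`cen T (sg T h)` (it lies in `Rp T (sg T h)` and in `Rg T (sg T h)`;
`mg T x f h = pot (sg h) = mg T x f (sg h)` on it, `sq_sub_cen`); for `|m (T.next h) - m h|` the squares at `cen T h`
(translate the square of `next h` by `vec h`: `cen_next`, `pot_next`; the integral over the translated square is that of
`V z = mg T x f (next h) (z - vec h) + x h`, which is `pot h` on the square, against `m y + c` with another `c`).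
-/

set_option autoImplicit false

open MeasureTheory Set Pool.Agent.Helper87.LS Pool.Agent.Helper79.G Pool.Agent.Helper72.TF

namespace Pool.Agent.Helper21.H3

private theorem h99_measurableSet_Sq (p : ℂ) (r : ℝ) : MeasurableSet (Sq p r) := by
  have h1 : IsClosed {z : ℂ | |z.re - p.re| ≤ r} := by
    refine isClosed_le ?_ continuous_const
    exact (Complex.continuous_re.sub continuous_const).abs
  have h2 : IsClosed {z : ℂ | |z.im - p.im| ≤ r} := by
    refine isClosed_le ?_ continuous_const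
    exact (Complex.continuous_im.sub continuous_const).abs
  exact (h1.inter h2).measurableSet

private theorem h99_Sq_translate (p v : ℂ) (r : ℝ) (F : ℂ → ℝ) :
    ∫ z in Sq (p - v) r, F z = ∫ w in Sq p r, F (w - v) := by
  have h := (measurePreserving_sub_right (volume : Measure ℂ) v).setIntegral_preimage_emb
    (MeasurableEquiv.subRight v).measurableEmbedding F (Sq (p - v) r)
  rw [← h]
  congr 2
  ext w
  simp only [Sq, mem_preimage, mem_ofPred_eq, Complex.sub_re, Complex.sub_im]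
  rw [show w.re - v.re - (p.re - v.re) = w.re - p.re by ring,
    show w.im - v.im - (p.im - v.im) = w.im - p.im by ring]

/-- Local slopes `m h` and constants `c h`. -/
theorem loc (K : ℝ) (hK : 1 ≤ K) : ∃ C : ℝ, 0 ≤ C ∧
    ∀ (H : Type) [Fintype H] (T : Tri H) (x : H → ℝ) (f : H → ℂ → ℝ) (κ : ℝ), Tame T K →
      x ∈ Coch T → Fn T f → 0 ≤ κ → NH T x f κ → ∃ m c : H → ℝ,
        (∀ h, ∀ p ∈ Rg T h, (∫ z in Sq p (1 / (32 * K ^ 2)),
          (mg T x f h z - (m h * z.im + c h)) ^ 2) ≤ C * (eA T x f + κ ^ 2)) ∧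
        (∀ h, ∀ p ∈ Rp T (sg T h), (∫ z in Sq p (1 / (32 * K ^ 2)),
          (mg T x f h z - (m h * z.im + c h)) ^ 2) ≤ C * (eA T x f + κ ^ 2)) ∧
        (∀ h, |m (sg T h) - m h| ≤ C * Real.sqrt (eA T x f + κ ^ 2)) ∧
        (∀ h, |c (sg T h) - c h| ≤ C * Real.sqrt (eA T x f + κ ^ 2)) ∧
        (∀ h, |m (T.next h) - m h| ≤ C * Real.sqrt (eA T x f + κ ^ 2)) := by
  have hK0 : 0 < K := lt_of_lt_of_le one_pos hK
  have hρ : 0 < 1 / (32 * K ^ 2) := by positivity
  set ρ : ℝ := 1 / (32 * K ^ 2) with hρd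
  have h2K : 0 ≤ 2 * K := by linarith
  obtain ⟨C0, hC0, H0⟩ := sq_kite hρ
  obtain ⟨C1, hC1, H1⟩ := chain hρ h2K
  obtain ⟨C2, hC2, H2⟩ := aff_near (D := C1) hρ h2K hC1
  obtain ⟨C3, hC3, H3⟩ := overlap hρ h2K
  refine ⟨C2 * C0 + C3 * Real.sqrt (C2 * C0), by positivity, ?_⟩
  intro H _ T x f κ hT hx hf hκ hNH
  have hEA : 0 ≤ eA T x f := by
    unfold eA
    exact Finset.sum_nonneg fun h _ => integral_nonneg fun z => sq_nonneg _
  set E : ℝ := eA T x f + κ ^ 2 with hE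
  have hE0 : 0 ≤ E := add_nonneg hEA (sq_nonneg _)
  set δ : ℝ := Real.sqrt (C0 * E) with hδ
  have hδ0 : 0 ≤ δ := Real.sqrt_nonneg _
  have hδ2 : δ ^ 2 = C0 * E := Real.sq_sqrt (mul_nonneg hC0 hE0)
  -- squares in the kites
  have hSg : ∀ h, ∀ p ∈ Rg T h, Sq p ρ ⊆ Kt T h := fun h p hp => sq_sub_Rg hT hp
  have hSp : ∀ h, ∀ p ∈ Rp T (sg T h), Sq p ρ ⊆ Kt T h := fun h p hp => sq_sub_Rp hT hp
  have hex : ∀ h p, Sq p ρ ⊆ Kt T h → ∃ m c : ℝ,
      (∫ z in Sq p ρ, (mg T x f h z - (m * z.im + c)) ^ 2) ≤ δ ^ 2 := by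
    intro h p hp
    rw [hδ2]
    exact H0 H T x f κ hx hf hκ hNH h p hp
  have hct : ∀ h p, Sq p ρ ⊆ Kt T h → ContinuousOn (mg T x f h) (Sq p ρ) := by
    intro h p hp
    obtain ⟨L, hL⟩ := mg_lip T hx hf hp
    exact hL.continuousOn
  choose m c hmc using fun h => hex h (mid T h) (hSg h _ (mid_mem_Rg T h))
  -- the general comparison in a convex region
  have key : ∀ (h : H) (S : Set ℂ), Convex ℝ S → (∀ z ∈ S, ‖z‖ ≤ 2 * K) → mid T h ∈ S →
      (∀ p ∈ S, Sq p ρ ⊆ Kt T h) → ∀ p ∈ S,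
      (∫ z in Sq p ρ, (mg T x f h z - (m h * z.im + c h)) ^ 2) ≤ C2 * δ ^ 2 := by
    intro h S hS hSn hmid hSK p hp
    obtain ⟨m', c', hm'⟩ := hex h p (hSK p hp)
    obtain ⟨e1, e2⟩ := H1 S hS hSn (mg T x f h) (fun q hq => hct h q (hSK q hq)) δ hδ0
      (fun q hq => hex h q (hSK q hq)) p hp (mid T h) hmid m' c' (m h) (c h) hm' (hmc h)
    exact H2 p (hSn p hp) (mg T x f h) (hct h p (hSK p hp)) δ hδ0 m' c' (m h) (c h) hm' e1 e2
  have hA : ∀ h, ∀ p ∈ Rg T h, (∫ z in Sq p ρ, (mg T x f h z - (m h * z.im + c h)) ^ 2) ≤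
      C2 * δ ^ 2 := fun h =>
    key h (Rg T h) (convex_Rg T h) (fun z hz => norm_le_of_Cl hT (Rg_sub_Cl T h hz))
      (mid_mem_Rg T h) (hSg h)
  have hB : ∀ h, ∀ p ∈ Rp T (sg T h), (∫ z in Sq p ρ, (mg T x f h z - (m h * z.im + c h)) ^ 2) ≤
      C2 * δ ^ 2 := fun h =>
    key h (Rp T (sg T h)) (convex_Rp T _) (fun z hz => norm_le_of_Cl hT (Rp_sub_Cl T _ hz))
      (mid_mem_Rp T h) (hSp h)
  -- the constants
  have hCδ : C2 * δ ^ 2 ≤ (C2 * C0 + C3 * Real.sqrt (C2 * C0)) * E := by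
    rw [hδ2]
    have : 0 ≤ C3 * Real.sqrt (C2 * C0) * E :=
      mul_nonneg (mul_nonneg hC3 (Real.sqrt_nonneg _)) hE0
    nlinarith
  set δ' : ℝ := Real.sqrt (C2 * C0) * Real.sqrt E with hδ'
  have hδ'0 : 0 ≤ δ' := mul_nonneg (Real.sqrt_nonneg _) (Real.sqrt_nonneg _)
  have hδ'2 : δ' ^ 2 = C2 * δ ^ 2 := by
    rw [hδ', mul_pow, Real.sq_sqrt (mul_nonneg hC2 hC0), Real.sq_sqrt hE0, hδ2]
    ring
  have hCδ' : C3 * δ' ≤ (C2 * C0 + C3 * Real.sqrt (C2 * C0)) * Real.sqrt E := by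
    have h1 : 0 ≤ C2 * C0 * Real.sqrt E :=
      mul_nonneg (mul_nonneg hC2 hC0) (Real.sqrt_nonneg _)
    rw [hδ']
    nlinarith
  have him : ∀ h, |(cen T h).im| ≤ 2 * K := fun h =>
    (Complex.abs_im_le_norm _).trans (norm_le_of_Cl hT (Rg_sub_Cl T h (cen_mem_Rg T h)))
  have hzero : ∀ a : ℝ, |a - a| ≤ ρ := fun a => by rw [sub_self, abs_zero]; exact hρ.le
  -- neighbouring triangles
  have hsg : ∀ h, |m (sg T h) - m h| ≤ C3 * δ' ∧ |c (sg T h) - c h| ≤ C3 * δ' := by
    intro h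
    have hop := sq_sub_cen hT (sg T h)
    have heq : ∀ z ∈ Sq (cen T (sg T h)) ρ, mg T x f (sg T h) z = mg T x f h z := by
      intro z hz
      have h1 : T.Int (sg T h) z := hop hz
      have h2 : T.a0 h z < 0 := by
        have := a2_sg T h z
        linarith [h1.2.2]
      unfold mg
      rw [if_pos h1.1.le, if_neg (not_le.2 h2)]
    have e1 := hA (sg T h) _ (cen_mem_Rg T (sg T h))
    have e2 := hB h _ (cen_mem_Rp T (sg T h))
    rw [← hδ'2] at e1 e2
    exact H3 (cen T (sg T h)) (cen T (sg T h)) (hzero _) (hzero _) (him _) (mg T x f (sg T h))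
      (mg T x f h) (hct _ _ (hSg _ _ (cen_mem_Rg T (sg T h))))
      (hct _ _ (hSp _ _ (cen_mem_Rp T (sg T h)))) (fun z hz _ => heq z hz) δ' hδ'0 _ _ _ _ e1 e2
  have hnx : ∀ h, |m (T.next h) - m h| ≤ C3 * δ' := by
    intro h
    have hop := sq_sub_cen hT h
    have e1 := hA h _ (cen_mem_Rg T h)
    have e2 := hA (T.next h) _ (cen_mem_Rg T (T.next h))
    rw [cen_next, h99_Sq_translate] at e2
    have e3 : ∫ w in Sq (cen T h) ρ, (mg T x f (T.next h) (w - T.vec h) -
        (m (T.next h) * (w - T.vec h).im + c (T.next h))) ^ 2 =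
        ∫ w in Sq (cen T h) ρ, (mg T x f h w - (m (T.next h) * w.im +
          (c (T.next h) - m (T.next h) * (T.vec h).im + x h))) ^ 2 := by
      refine setIntegral_congr_fun (h99_measurableSet_Sq _ _) ?_
      intro w hw
      have h1 : T.Int h w := hop hw
      have h2 : T.Int (T.next h) (w - T.vec h) := (mem_Op_next T h w).2 h1
      have h3 := pot_next T hx hf h (Op_sub_Cl T h h1)
      have h4 : mg T x f (T.next h) (w - T.vec h) = pot T x f h w - x h := by
        unfold mg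
        rw [if_pos h2.1.le, h3]
      have h5 : mg T x f h w = pot T x f h w := by
        unfold mg
        rw [if_pos h1.1.le]
      change (mg T x f (T.next h) (w - T.vec h) -
        (m (T.next h) * (w - T.vec h).im + c (T.next h))) ^ 2 = (mg T x f h w - (m (T.next h) * w.im +
          (c (T.next h) - m (T.next h) * (T.vec h).im + x h))) ^ 2
      rw [h4, h5, Complex.sub_im]
      ring
    rw [e3] at e2
    rw [← hδ'2] at e1 e2
    have hc := hct h _ (hSg h _ (cen_mem_Rg T h))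
    exact (H3 (cen T h) (cen T h) (hzero _) (hzero _) (him _) (mg T x f h) (mg T x f h) hc hc
      (fun z _ _ => rfl) δ' hδ'0 _ _ _ _ e2 e1).1
  exact ⟨m, c, fun h p hp => (hA h p hp).trans hCδ, fun h p hp => (hB h p hp).trans hCδ,
    fun h => (hsg h).1.trans hCδ', fun h => (hsg h).2.trans hCδ', fun h => (hnx h).trans hCδ'⟩

end Pool.Agent.Helper21.H3
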