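import Pool.Agent.Helper21.H3.Glue
import Pool.Agent.Helper21.H3.Lev
import Pool.Agent.Helper35.E98.Energy

/-!
# MP_e98778_an (full), H3, the gap lemma

`sum_grad`: from helper35's `grad_mean` (bridge between `Fn (ofSurf Y)` and `LipS Y`).
`gap`: `f` with `en ≤ hn2 + ε` (infimum), `NH` with `κ = √(3 ε)`, `glue`; since `∑ ∫ et = 0` (`sum_grad` and
`qT = 0`, area of `Op` = `ar/2`), `eB = ∑ ∫ im² ≤ ∑ ∫ (im - M)² ≤ C (eA + 3 ε)`. With `C ≥ 1`,
`lam = (C - 1)/(C + 1)`: `eB - eA ≤ lam (eA + eB) + 6 C ε/(C + 1)`, and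
`hn2 (lev) ≤ cosh (2t) (eA + eB)/3 + sinh (2t) (eB - eA)/3`. Let `ε → 0`.
-/

set_option autoImplicit false

open MeasureTheory Set Topology Pool.Agent.Helper87.LS Pool.Agent.Helper79.G
  Pool.Agent.Helper72.TF

namespace Pool.Agent.Helper21.H3

/-- Integrals over the triangle of a dart of a `Surf`. -/
theorem int_shift {E : Type*} [NormedAddCommGroup E] [NormedSpace ℝ E] (Y : Surf) (i : Fin Y.n)
    (k : Fin 3) (u : ℂ → E) :
    ∫ z in Op (ofSurf Y) (i, k), u (z + Y.P i k) = ∫ z in tri (Y.P i), u z := by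
  have hmp : MeasurePreserving (fun z : ℂ => z + Y.P i k) volume volume :=
    measurePreserving_add_right volume (Y.P i k)
  have h1 := hmp.setIntegral_preimage_emb (measurableEmbedding_addRight (Y.P i k)) u
    (tri (Y.P i))
  have h2 : (fun z : ℂ => z + Y.P i k) ⁻¹' tri (Y.P i) = Op (ofSurf Y) (i, k) := by
    ext z
    exact (Pool.Agent.Helper35.E98.mem_Op i k z).symm
  rw [h2] at h1
  exact h1

theorem vol_Op_surf (Y : Surf) (h : Fin Y.n × Fin 3) :
    volume.real (Op (ofSurf Y) h) = ar (ofSurf Y) h / 2 := by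
  obtain ⟨i, k⟩ := h
  have h1 := int_shift Y i k (fun _ => (1 : ℝ))
  rw [setIntegral_const, setIntegral_const, smul_eq_mul, smul_eq_mul, mul_one, mul_one,
    Pool.Agent.Helper35.E98.measureReal_tri] at h1
  rw [h1]
  congr 1
  change Y.area2 i = cr (Y.vec (i, k)) (Y.vec (i, k + 1))
  rw [Y.cr_vec_succ]

theorem sum_grad (Y : Surf) (F : Fin Y.n × Fin 3 → ℂ → ℝ) (hF : Fn (ofSurf Y) F) :
    ∑ h, ∫ z in Op (ofSurf Y) h, grad (F h) z = 0 := by
  obtain ⟨G, L, hG, hGF⟩ := Pool.Agent.Helper35.E98.Fn.toLipS hF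
  have key : ∀ i k, ∫ z in Op (ofSurf Y) (i, k), grad (F (i, k)) z =
      ∫ z in tri (Y.P i), grad G z := by
    intro i k
    rw [← int_shift Y i k]
    refine setIntegral_congr_fun (isOpen_Op _ _).measurableSet fun z hz => ?_
    have h4 : F (i, k) =ᶠ[𝓝 z] fun z => G (z + Y.P i k) := by
      filter_upwards [(isOpen_Op (ofSurf Y) (i, k)).mem_nhds hz] with w hw
      exact hGF i k w hw
    change grad (F (i, k)) z = grad G (z + Y.P i k)
    rw [Pool.Agent.Helper35.E98.grad_congr h4, Pool.Agent.Helper35.E98.grad_add_right]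
  have hint : Integrable (grad G) Y.μ := by
    refine Integrable.of_bound (measurable_grad G).aestronglyMeasurable (2 * L) ?_
    filter_upwards [Pool.Agent.Helper35.E98.ae_mem_D Y] with z hz
    exact hG.grad_le hz
  have hD : ∫ z, grad G z ∂Y.μ = ∑ i, ∫ z in tri (Y.P i), grad G z := by
    unfold Surf.μ Surf.D
    refine integral_iUnion_fintype (fun i => (Y.isOpen_tri i).measurableSet) ?_ ?_
    · intro i j hij
      exact Y.disj i j hij
    · intro i
      refine IntegrableOn.mono_set (t := Y.D) hint ?_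
      exact subset_iUnion (fun i => tri (Y.P i)) i
  rw [Fintype.sum_prod_type]
  simp_rw [key]
  simp only [Finset.sum_const, Finset.card_univ, Fintype.card_fin]
  rw [← Finset.smul_sum, ← hD, Pool.Agent.Helper35.E98.grad_mean hG, smul_zero]

variable {H : Type}

theorem int_et (T : Tri H) (x : H → ℝ) {f : H → ℂ → ℝ} (hf : Fn T f) (h : H) :
    IntegrableOn (et T x f h) (Op T h) := by
  obtain ⟨B, hB0, hB⟩ := et_bound T x hf h
  have : IsFiniteMeasure (volume.restrict (Op T h)) :=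
    ⟨by rw [Measure.restrict_apply_univ]; exact (fin_Op T h).lt_top⟩
  refine ⟨(measurable_et T x f h).aestronglyMeasurable, HasFiniteIntegral.of_bounded (C := B) ?_⟩
  rw [ae_restrict_iff' (isOpen_Op T h).measurableSet]
  exact Filter.Eventually.of_forall fun z hz => hB z hz

/-- The mean of the form. -/
theorem sum_et (Y : Surf) {x : Fin Y.n × Fin 3 → ℝ} (hq : qT (ofSurf Y) x = 0)
    {f : Fin Y.n × Fin 3 → ℂ → ℝ} (hf : Fn (ofSurf Y) f) :
    ∑ h, ∫ z in Op (ofSurf Y) h, et (ofSurf Y) x f h z = 0 := by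
  have hg : ∀ h, IntegrableOn (grad (f h)) (Op (ofSurf Y) h) := by
    intro h
    have h1 := int_et (ofSurf Y) x hf h
    have h2 : IntegrableOn (fun _ : ℂ => omega (ofSurf Y) x h) (Op (ofSurf Y) h) :=
      integrableOn_const (fin_Op _ h)
    have h3 := h1.sub h2
    refine h3.congr_fun (fun z _ => ?_) (isOpen_Op _ h).measurableSet
    simp [et]
  have h1 : ∀ h, ∫ z in Op (ofSurf Y) h, et (ofSurf Y) x f h z =
      (ar (ofSurf Y) h / 2 : ℝ) * omega (ofSurf Y) x h +
        ∫ z in Op (ofSurf Y) h, grad (f h) z := by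
    intro h
    have h2 : IntegrableOn (fun _ : ℂ => omega (ofSurf Y) x h) (Op (ofSurf Y) h) :=
      integrableOn_const (fin_Op _ h)
    unfold et
    rw [integral_add h2 (hg h), setIntegral_const, vol_Op_surf, Complex.real_smul]
  simp_rw [h1]
  rw [Finset.sum_add_distrib, sum_grad Y f hf, add_zero]
  unfold qT at hq
  have h2 : ∑ h, (ar (ofSurf Y) h : ℂ) * omega (ofSurf Y) x h = 0 := by
    have h6 : (6 : ℂ) ≠ 0 := by norm_num
    exact (div_eq_zero_iff.1 hq).resolve_right h6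
  calc _ = (1 / 2 : ℂ) * ∑ h, (ar (ofSurf Y) h : ℂ) * omega (ofSurf Y) x h := by
        rw [Finset.mul_sum]
        refine Finset.sum_congr rfl fun h _ => ?_
        push_cast; ring
    _ = 0 := by rw [h2, mul_zero]

theorem eB_le (Y : Surf) {x : Fin Y.n × Fin 3 → ℝ} (hq : qT (ofSurf Y) x = 0)
    {f : Fin Y.n × Fin 3 → ℂ → ℝ} (hf : Fn (ofSurf Y) f) (M : ℝ) :
    eB (ofSurf Y) x f ≤
      ∑ h, ∫ z in Op (ofSurf Y) h, ‖et (ofSurf Y) x f h z - M * Complex.I‖ ^ 2 := by
  have hi : ∀ h, IntegrableOn (fun z => (et (ofSurf Y) x f h z).im) (Op (ofSurf Y) h) :=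
    fun h => (int_et (ofSurf Y) x hf h).im
  have hsum : ∑ h, ∫ z in Op (ofSurf Y) h, (et (ofSurf Y) x f h z).im = 0 := by
    have h1 := congrArg Complex.im (sum_et Y hq hf)
    rw [Complex.im_sum, Complex.zero_im] at h1
    rw [← h1]
    refine Finset.sum_congr rfl fun h _ => ?_
    have := integral_im (int_et (ofSurf Y) x hf h)
    exact this
  have hi2 : ∀ h, IntegrableOn (fun z => (et (ofSurf Y) x f h z).im ^ 2) (Op (ofSurf Y) h) := by
    intro h
    obtain ⟨B, hB0, hB⟩ := et_bound (ofSurf Y) x hf h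
    refine int_Op _ h (B := B ^ 2) ?_ fun z hz => ?_
    · exact ((Complex.measurable_im.comp (measurable_et (ofSurf Y) x f h)).pow_const
        2).aestronglyMeasurable
    · rw [abs_pow]
      gcongr
      exact (Complex.abs_im_le_norm _).trans (hB z hz)
  calc eB (ofSurf Y) x f = ∑ h, ((∫ z in Op (ofSurf Y) h, (et (ofSurf Y) x f h z).im ^ 2) -
        2 * M * ∫ z in Op (ofSurf Y) h, (et (ofSurf Y) x f h z).im) := by
        rw [Finset.sum_sub_distrib, ← Finset.mul_sum, hsum, mul_zero, sub_zero]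
        rfl
    _ ≤ _ := by
        refine Finset.sum_le_sum fun h _ => ?_
        rw [← integral_const_mul, ← integral_sub (hi2 h) ((hi h).const_mul _)]
        have h9 := int_wt (ofSurf Y) x hf h (w := fun _ => 1) (D := 1) continuous_const (by simp)
          (M * Complex.I)
        refine setIntegral_mono_on ((hi2 h).sub ((hi h).const_mul _)) (by simpa using h9)
          (isOpen_Op _ h).measurableSet fun z _ => ?_
        rw [← Complex.normSq_eq_norm_sq, Complex.normSq_apply]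
        simp only [Complex.sub_re, Complex.sub_im, Complex.mul_re, Complex.mul_im,
          Complex.ofReal_re, Complex.ofReal_im, Complex.I_re, Complex.I_im, mul_zero, mul_one,
          zero_mul, sub_zero, zero_add, add_zero, sub_self]
        nlinarith [sq_nonneg (et (ofSurf Y) x f h z).re, sq_nonneg M]

theorem tame_max {T : Tri H} {K : ℝ} (hT : Tame T K) : Tame T (max K 1) := by
  refine ⟨fun h => (hT.1 h).trans (le_max_left _ _), fun h => ?_⟩
  rw [max_eq_left (one_le_K hT h)]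
  exact hT.2 h

theorem fn_zero (T : Tri H) : Fn T (fun _ _ => 0) := by
  refine ⟨⟨0, fun h => ?_⟩, fun _ _ _ => rfl, fun _ _ _ => rfl⟩
  exact (LipschitzWith.const 0).lipschitzOnWith

theorem exists_near [Fintype H] (T : Tri H) (x : H → ℝ) {ε : ℝ} (hε : 0 < ε) :
    ∃ f, Fn T f ∧ en T x f ≤ hn2 T x + ε := by
  have : Nonempty {f : H → ℂ → ℝ // Fn T f} := ⟨⟨_, fn_zero T⟩⟩
  have h1 : hn2 T x < hn2 T x + ε := by linarith
  obtain ⟨⟨f, hf⟩, hlt⟩ := exists_lt_of_ciInf_lt h1
  exact ⟨f, hf, hlt.le⟩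

theorem gap (n : ℕ) (K : ℝ) : ∃ lam : ℝ, 0 ≤ lam ∧ lam < 1 ∧ ∀ Y : Surf, Y.n = n → Connected Y →
    (∀ e, ‖Y.vec e‖ ≤ K) → (∀ i, 1 / K ≤ Y.area2 i) →
      ∀ x ∈ Coch (ofSurf Y), qT (ofSurf Y) x = 0 → ∀ t : ℝ, 0 ≤ t → t ≤ 1 →
        hn2 (lev (ofSurf Y) t 0) x ≤
          (Real.cosh (2 * t) + lam * Real.sinh (2 * t)) * hn2 (ofSurf Y) x := by
  obtain ⟨C0, hC0, hglue⟩ := glue n (max K 1) (le_max_right _ _)
  set C : ℝ := C0 + 1 with hC
  have hC1 : 1 ≤ C := by linarith
  refine ⟨(C - 1) / (C + 1), div_nonneg (by linarith) (by linarith),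
    by rw [div_lt_one (by linarith)]; linarith, ?_⟩
  intro Y hn hconn hY1 hY2 x hx hq t ht0 ht1
  have hT : Tame (ofSurf Y) K := by
    refine ⟨hY1, fun h => ?_⟩
    obtain ⟨i, k⟩ := h
    have : ar (ofSurf Y) (i, k) = Y.area2 i := by
      change cr (Y.vec (i, k)) (Y.vec (i, k + 1)) = _
      rw [Y.cr_vec_succ]
    rw [this]
    exact hY2 i
  have hcard : Fintype.card (Fin Y.n × Fin 3) = 3 * n := by
    rw [Fintype.card_prod, Fintype.card_fin, Fintype.card_fin, hn, mul_comm]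
  set lam : ℝ := (C - 1) / (C + 1) with hlam
  have hlam0 : 0 ≤ lam := div_nonneg (by linarith) (by linarith)
  have hsinh : 0 ≤ Real.sinh (2 * t) := Real.sinh_nonneg_iff.2 (by linarith)
  have hcosh : 1 ≤ Real.cosh (2 * t) := Real.one_le_cosh _
  have main : ∀ ε : ℝ, 0 < ε → hn2 (lev (ofSurf Y) t 0) x ≤
      (Real.cosh (2 * t) + lam * Real.sinh (2 * t)) * (hn2 (ofSurf Y) x + ε) +
        Real.sinh (2 * t) * (2 * ε) := by
    intro ε hε
    obtain ⟨f, hf, hfe⟩ := exists_near (ofSurf Y) x hε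
    have hNH := nh_of_near (ofSurf Y) hx hf hε.le hfe
    obtain ⟨M, hM⟩ := hglue _ (ofSurf Y) x f _ hcard hconn (tame_max hT) (sum_grad Y) hx hf
      (Real.sqrt_nonneg _) hNH
    rw [Real.sq_sqrt (by linarith)] at hM
    have hB := (eB_le Y hq hf M).trans hM
    have hlev := hn2_lev_le (ofSurf Y) x hf t
    rw [en_eq (ofSurf Y) x hf] at hfe
    have hA0 : 0 ≤ eA (ofSurf Y) x f := by
      unfold eA
      exact Finset.sum_nonneg fun h _ => integral_nonneg fun z => sq_nonneg _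
    set a := eA (ofSurf Y) x f with ha
    set b := eB (ofSurf Y) x f with hb
    have hb2 : b ≤ C * (a + 3 * ε) := by
      rw [hC]; nlinarith
    have e1 : (Real.exp (-(2 * t)) * a + Real.exp (2 * t) * b) / 3 =
        Real.cosh (2 * t) * ((a + b) / 3) + Real.sinh (2 * t) * ((b - a) / 3) := by
      rw [Real.cosh_eq, Real.sinh_eq]; ring
    have e2 : (b - a) / 3 ≤ lam * ((a + b) / 3) + 2 * ε := by
      have h3 : (C + 1) * (b - a) ≤ (C - 1) * (a + b) + 6 * C * ε := by nlinarith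
      have h4 : (b - a) ≤ ((C - 1) * (a + b) + 6 * C * ε) / (C + 1) := by
        rw [le_div_iff₀ (by linarith)]; linarith
      have h5 : ((C - 1) * (a + b) + 6 * C * ε) / (C + 1) ≤ lam * (a + b) + 6 * ε := by
        rw [div_le_iff₀ (by linarith), hlam]
        have : ((C - 1) / (C + 1) * (a + b) + 6 * ε) * (C + 1) =
            (C - 1) * (a + b) + 6 * ε * (C + 1) := by
          field_simp
        rw [this]; nlinarith
      linarith
    rw [e1] at hlev
    calc _ ≤ _ := hlev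
      _ ≤ Real.cosh (2 * t) * ((a + b) / 3) +
          Real.sinh (2 * t) * (lam * ((a + b) / 3) + 2 * ε) := by gcongr
      _ = (Real.cosh (2 * t) + lam * Real.sinh (2 * t)) * ((a + b) / 3) +
          Real.sinh (2 * t) * (2 * ε) := by ring
      _ ≤ _ := by gcongr
  refine le_of_forall_pos_le_add fun δ hδ => ?_
  set R : ℝ := Real.cosh (2 * t) + lam * Real.sinh (2 * t) + 2 * Real.sinh (2 * t) with hR
  have hR1 : 0 < R := by positivity
  have := main (δ / R) (by positivity)
  calc _ ≤ _ := this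
    _ = (Real.cosh (2 * t) + lam * Real.sinh (2 * t)) * hn2 (ofSurf Y) x + R * (δ / R) := by
      rw [hR]; ring
    _ = _ := by rw [mul_div_cancel₀ _ hR1.ne']

end Pool.Agent.Helper21.H3
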